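import Pool.Agent.V7H9.AL.Region

set_option autoImplicit false

/-!
# The area of the region `0 < s ≤ l t`, `s t (s + t) ≤ 1`
-/

namespace Pool.Agent.V7H9.AL

open Finset Filter Topology Pool.Agent.TH498.AR MeasureTheory

/-- the area of the region, as an integral over the directions -/
noncomputable def Ar (l : ℝ) : ℝ := 1 / 2 * ∫ v in (0 : ℝ)..l, (v * (1 + v)) ^ (-(2 / 3) : ℝ)

/-- the second coordinate of the boundary point in direction `v` -/
noncomputable def Tf (v : ℝ) : ℝ := (v * (1 + v)) ^ (-(1 / 3) : ℝ)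

/-- the first coordinate of the boundary point in direction `v` -/
noncomputable def Sf (v : ℝ) : ℝ := v * Tf v

lemma Tf_pos {v : ℝ} (hv : 0 < v) : 0 < Tf v := by
  unfold Tf
  positivity

lemma Sf_pos {v : ℝ} (hv : 0 < v) : 0 < Sf v := mul_pos hv (Tf_pos hv)

lemma Tf_cube {v : ℝ} (hv : 0 < v) : Tf v ^ 3 * (v * (1 + v)) = 1 := by
  unfold Tf
  have h : 0 < v * (1 + v) := by positivity
  rw [← Real.rpow_natCast, ← Real.rpow_mul h.le]
  norm_num
  rw [Real.rpow_neg_one]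
  exact inv_mul_cancel₀ h.ne'

lemma Tf_sq {v : ℝ} (hv : 0 < v) : Tf v ^ 2 = (v * (1 + v)) ^ (-(2 / 3) : ℝ) := by
  unfold Tf
  have h : 0 < v * (1 + v) := by positivity
  rw [← Real.rpow_natCast, ← Real.rpow_mul h.le]
  norm_num

lemma Sf_eq {v : ℝ} (hv : 0 < v) : Sf v * Tf v * (Sf v + Tf v) = 1 := by
  have h := Tf_cube hv
  unfold Sf
  calc v * Tf v * Tf v * (v * Tf v + Tf v) = Tf v ^ 3 * (v * (1 + v)) := by ring
    _ = 1 := h

lemma gg_Sf {v : ℝ} (hv : 0 < v) : gg (Sf v) = Tf v := by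
  have hS := Sf_pos hv
  have hT := Tf_pos hv
  have hg := gg_pos hS
  refine le_antisymm ?_ ((gg_iff hS hT).2 (Sf_eq hv).le)
  by_contra hcon
  push Not at hcon
  have h1 := (gg_iff hS hg).1 le_rfl
  have h2 := Sf_eq hv
  have h3 : Sf v * Tf v * (Sf v + Tf v) < Sf v * gg (Sf v) * (Sf v + gg (Sf v)) := by
    refine mul_lt_mul'' (mul_lt_mul_of_pos_left hcon hS) (by linarith) (by positivity)
      (by positivity)
  linarith

lemma gg_continuousOn : ContinuousOn gg (Set.Ioi 0) := by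
  unfold gg
  refine ContinuousOn.div continuousOn_const ?_ ?_
  · exact (by fun_prop : Continuous fun s : ℝ => s ^ 2 + Real.sqrt (s ^ 4 + 4 * s)).continuousOn
  · intro s hs
    exact (gg_den hs).ne'

lemma Tf_hasDerivAt {v : ℝ} (hv : 0 < v) :
    HasDerivAt Tf (-(1 / 3) * (1 + 2 * v) * Tf v / (v * (1 + v))) v := by
  have h : 0 < v * (1 + v) := by positivity
  have h1 : HasDerivAt (fun v : ℝ => v * (1 + v)) (1 * (1 + v) + v * 1) v :=
    (hasDerivAt_id' v).mul ((hasDerivAt_id' v).const_add 1)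
  have h2 := h1.rpow_const (p := (-(1 / 3) : ℝ)) (Or.inl h.ne')
  have h3 : (v * (1 + v)) ^ (-(1 / 3) - 1 : ℝ) = Tf v / (v * (1 + v)) := by
    unfold Tf
    rw [Real.rpow_sub h, Real.rpow_one]
  have h4 : HasDerivAt Tf ((1 * (1 + v) + v * 1) * (-(1 / 3)) *
      (v * (1 + v)) ^ (-(1 / 3) - 1 : ℝ)) v := h2
  rw [h3] at h4
  refine h4.congr_deriv ?_
  ring

/-- the area right of `σ` -/
noncomputable def Kf (l σ : ℝ) : ℝ := ∫ s in σ..(Sf l), (gg s - s / l)

lemma Kf_cont {l : ℝ} : ContinuousOn (fun s => gg s - s / l) (Set.Ioi 0) :=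
  gg_continuousOn.sub (by fun_prop)

lemma Kf_int {l a b : ℝ} (ha : 0 < a) (hb : 0 < b) :
    IntervalIntegrable (fun s => gg s - s / l) volume a b := by
  refine ContinuousOn.intervalIntegrable ?_
  refine Kf_cont.mono ?_
  intro s hs
  have := (Set.mem_uIcc.1 hs)
  rcases this with h | h
  · exact lt_of_lt_of_le ha h.1
  · exact lt_of_lt_of_le hb h.1

lemma Kf_hasDerivAt {l σ : ℝ} (hl : 0 < l) (hσ : 0 < σ) :
    HasDerivAt (Kf l) (-(gg σ - σ / l)) σ := by
  have hc : ContinuousAt (fun s => gg s - s / l) σ :=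
    Kf_cont.continuousAt (Ioi_mem_nhds hσ)
  refine intervalIntegral.integral_hasDerivAt_left (Kf_int hσ (Sf_pos hl)) ?_ hc
  exact Kf_cont.stronglyMeasurableAtFilter isOpen_Ioi σ hσ

lemma sq_cont : ContinuousOn (fun v : ℝ => Tf v ^ 2) (Set.Ioi 0) := by
  refine ContinuousOn.pow ?_ 2
  intro v hv
  exact (Tf_hasDerivAt hv).continuousAt.continuousWithinAt

/-- the area formula for the part right of a boundary point -/
lemma Kf_eq {l v : ℝ} (hl : 0 < l) (hv : 0 < v) (hvl : v ≤ l) :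
    Kf l (Sf v) = 1 / 2 * (∫ u in v..l, Tf u ^ 2) + 1 / 2 * (Sf v ^ 2 / l - Sf v * Tf v) := by
  set D : ℝ → ℝ := fun v => Kf l (Sf v) - (1 / 2 * (∫ u in v..l, Tf u ^ 2) +
    1 / 2 * (Sf v ^ 2 / l - Sf v * Tf v)) with hD
  have hder : ∀ u : ℝ, 0 < u → HasDerivAt D 0 u := by
    intro u hu
    have hT := Tf_hasDerivAt hu
    obtain ⟨T', hT'⟩ : ∃ T' : ℝ, T' = -(1 / 3) * (1 + 2 * u) * Tf u / (u * (1 + u)) := ⟨_, rfl⟩
    rw [← hT'] at hT
    have hS : HasDerivAt Sf (1 * Tf u + u * T') u := (hasDerivAt_id u).mul hT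
    obtain ⟨S', hS'⟩ : ∃ S' : ℝ, S' = 1 * Tf u + u * T' := ⟨_, rfl⟩
    rw [← hS'] at hS
    have h1 : HasDerivAt (fun v => Kf l (Sf v)) (-(gg (Sf u) - Sf u / l) * S') u :=
      (Kf_hasDerivAt hl (Sf_pos hu)).comp u hS
    have hc : ContinuousAt (fun v : ℝ => Tf v ^ 2) u := sq_cont.continuousAt (Ioi_mem_nhds hu)
    have h2 : HasDerivAt (fun v => ∫ u in v..l, Tf u ^ 2) (-(Tf u ^ 2)) u := by
      refine intervalIntegral.integral_hasDerivAt_left ?_ ?_ hc
      · refine ContinuousOn.intervalIntegrable (sq_cont.mono ?_)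
        intro s hs
        rcases Set.mem_uIcc.1 hs with h | h
        · exact lt_of_lt_of_le hu h.1
        · exact lt_of_lt_of_le hl h.1
      · exact sq_cont.stronglyMeasurableAtFilter isOpen_Ioi u hu
    have h3 : HasDerivAt (fun v => Sf v ^ 2 / l - Sf v * Tf v)
        ((2 : ℕ) * Sf u ^ (2 - 1) * S' / l - (S' * Tf u + Sf u * T')) u :=
      ((hS.pow 2).div_const l).sub (hS.mul hT)
    have h4 := h1.sub ((h2.const_mul (1 / 2)).add (h3.const_mul (1 / 2)))
    refine HasDerivAt.congr_deriv (f := D) h4 ?_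
    rw [gg_Sf hu, hS']
    push_cast
    unfold Sf
    have hl' : l ≠ 0 := hl.ne'
    field_simp
    ring
  have hDl : D l = 0 := by
    have hKl : Kf l (Sf l) = 0 := by
      unfold Kf
      rw [intervalIntegral.integral_same]
    have hSl : Sf l ^ 2 / l - Sf l * Tf l = 0 := by
      unfold Sf
      have : l ≠ 0 := hl.ne'
      field_simp
      ring
    simp only [hD]
    rw [hKl, hSl, intervalIntegral.integral_same]
    ring
  have hDv : D v = 0 := by
    rcases eq_or_lt_of_le hvl with h | h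
    · rw [h]; exact hDl
    · obtain ⟨c, hc, hc2⟩ := exists_hasDerivAt_eq_slope D (fun _ => 0) h
        (fun u hu => (hder u (lt_of_lt_of_le hv hu.1)).continuousAt.continuousWithinAt)
        (fun u hu => hder u (hv.trans hu.1))
      have h5 : l - v ≠ 0 := by linarith
      rw [eq_div_iff h5, zero_mul] at hc2
      linarith
  have : Kf l (Sf v) - (1 / 2 * (∫ u in v..l, Tf u ^ 2) +
    1 / 2 * (Sf v ^ 2 / l - Sf v * Tf v)) = 0 := hDv
  linarith

lemma Sf_cube {v : ℝ} (hv : 0 < v) : Sf v ^ 3 * (1 + v) = v ^ 2 := by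
  have h := Tf_cube hv
  unfold Sf
  calc (v * Tf v) ^ 3 * (1 + v) = v ^ 2 * (Tf v ^ 3 * (v * (1 + v))) := by ring
    _ = _ := by rw [h, mul_one]

lemma Sf_mono {u v : ℝ} (hu : 0 < u) (huv : u ≤ v) : Sf u ≤ Sf v := by
  have hv : 0 < v := lt_of_lt_of_le hu huv
  have h1 := Sf_cube hu
  have h2 := Sf_cube hv
  by_contra hcon
  push Not at hcon
  have h3 : Sf v ^ 3 < Sf u ^ 3 := pow_lt_pow_left₀ hcon (Sf_pos hv).le (by norm_num)
  have h4 : Sf u ^ 3 = u ^ 2 / (1 + u) := by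
    rw [eq_div_iff (by linarith)]
    exact h1
  have h5 : Sf v ^ 3 = v ^ 2 / (1 + v) := by
    rw [eq_div_iff (by linarith)]
    exact h2
  rw [h4, h5, div_lt_div_iff₀ (by linarith) (by linarith)] at h3
  nlinarith [mul_nonneg hu.le hv.le, mul_nonneg (mul_nonneg hu.le hv.le) (sub_nonneg.2 huv)]

lemma Sf_le {v : ℝ} (hv : 0 < v) (hv1 : v ≤ 1) : Sf v ≤ 1 := by
  by_contra hcon
  push Not at hcon
  have h1 := Sf_cube hv
  have h2 : 1 < Sf v ^ 3 := one_lt_pow₀ hcon (by norm_num)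
  nlinarith

/-- the length of the interval in terms of the end `Sf l` -/
lemma Ph_left {l s : ℝ} (hl : 0 < l) (hs : 0 < s) (h : s ≤ Sf l) : Ph l s = gg s - s / l := by
  unfold Ph
  refine max_eq_right ?_
  have h1 : s / l ≤ gg s := by
    rw [gg_iff hs (by positivity)]
    have h2 := Sf_cube hl
    have h3 : s ^ 3 ≤ Sf l ^ 3 := pow_le_pow_left₀ hs.le h 3
    have h4 : s * (s / l) * (s + s / l) = s ^ 3 * (1 + l) / l ^ 2 := by
      field_simp
      ring
    rw [h4, div_le_one (by positivity), ← h2]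
    exact mul_le_mul_of_nonneg_right h3 (by linarith)
  linarith

lemma Ph_right {l s : ℝ} (hl : 0 < l) (hs : 0 < s) (h : Sf l ≤ s) : Ph l s = 0 := by
  unfold Ph
  refine max_eq_left ?_
  by_contra hcon
  push Not at hcon
  have h1 : s / l < gg s := by linarith
  have h2 := Sf_cube hl
  have h3 : Sf l ^ 3 ≤ s ^ 3 := pow_le_pow_left₀ (Sf_pos hl).le h 3
  have h4 : s * gg s * (s + gg s) ≤ 1 := (gg_iff hs (gg_pos hs)).1 le_rfl
  have h5 : s * (s / l) * (s + s / l) < s * gg s * (s + gg s) := by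
    refine mul_lt_mul'' (mul_lt_mul_of_pos_left h1 hs) (by linarith) (by positivity)
      (by positivity)
  have h6 : s * (s / l) * (s + s / l) = s ^ 3 * (1 + l) / l ^ 2 := by
    field_simp
    ring
  have h7 : 1 ≤ s ^ 3 * (1 + l) / l ^ 2 := by
    rw [le_div_iff₀ (by positivity), one_mul, ← h2]
    exact mul_le_mul_of_nonneg_right h3 (by linarith)
  linarith

/-- the area right of `Sf v` -/
lemma J_eq {l v : ℝ} (hl : 0 < l) (hl1 : l ≤ 1) (hv : 0 < v) (hvl : v ≤ l) :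
    J l (Sf v) = Kf l (Sf v) := by
  have hη := Sf_pos hv
  have hη2 := Sf_mono hv hvl
  have hl2 := Sf_le hl hl1
  have hii : ∀ a b : ℝ, IntervalIntegrable (PL l (Sf v)) volume a b :=
    fun a b => (PL_anti hl hη).intervalIntegrable
  have e1 := intervalIntegral.integral_add_adjacent_intervals (hii 0 (Sf v)) (hii (Sf v) (Sf l))
  have e2 := intervalIntegral.integral_add_adjacent_intervals (hii 0 (Sf l)) (hii (Sf l) 1)
  have i1 : ∫ s in (0 : ℝ)..(Sf v), PL l (Sf v) s = Ph l (Sf v) * Sf v := by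
    rw [intervalIntegral.integral_congr (g := fun _ => Ph l (Sf v))]
    · simp [mul_comm]
    · intro s hs
      rw [Set.uIcc_of_le hη.le] at hs
      exact PL_small hs.2
  have i2 : ∫ s in (Sf v)..(Sf l), PL l (Sf v) s = Kf l (Sf v) := by
    unfold Kf
    refine intervalIntegral.integral_congr ?_
    intro s hs
    rw [Set.uIcc_of_le hη2] at hs
    simp only
    rw [PL_eq hs.1, Ph_left hl (lt_of_lt_of_le hη hs.1) hs.2]
  have i3 : ∫ s in (Sf l)..1, PL l (Sf v) s = 0 := by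
    rw [intervalIntegral.integral_congr (g := fun _ => (0 : ℝ))]
    · simp
    · intro s hs
      rw [Set.uIcc_of_le hl2] at hs
      simp only
      rw [PL_eq (hη2.trans hs.1), Ph_right hl (lt_of_lt_of_le (Sf_pos hl) hs.1) hs.1]
  unfold J
  linarith

lemma sq_le_rpow {v : ℝ} (hv : 0 < v) : (v * (1 + v)) ^ (-(2 / 3) : ℝ) ≤ v ^ (-(2 / 3) : ℝ) :=
  Real.rpow_le_rpow_of_nonpos hv (by nlinarith) (by norm_num)

lemma Ar_int {a b : ℝ} (ha : 0 ≤ a) (hb : 0 ≤ b) :
    IntervalIntegrable (fun v : ℝ => (v * (1 + v)) ^ (-(2 / 3) : ℝ)) volume a b := by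
  have h1 : IntervalIntegrable (fun v : ℝ => v ^ (-(2 / 3) : ℝ)) volume a b :=
    intervalIntegral.intervalIntegrable_rpow' (by norm_num)
  refine h1.mono_fun ?_ ?_
  · have : Measurable (fun v : ℝ => (v * (1 + v)) ^ (-(2 / 3) : ℝ)) := by fun_prop
    exact this.aestronglyMeasurable
  · refine (ae_restrict_iff' measurableSet_uIoc).2 (Eventually.of_forall fun v hv => ?_)
    have hv0 : 0 < v := by
      rcases Set.mem_uIoc.1 hv with h | h
      · exact lt_of_le_of_lt ha h.1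
      · exact lt_of_le_of_lt hb h.1
    simp only
    rw [Real.norm_of_nonneg (by positivity), Real.norm_of_nonneg (by positivity)]
    exact sq_le_rpow hv0

lemma Ar_small {v : ℝ} (hv : 0 < v) : 0 ≤ Ar v ∧ Ar v ≤ 3 / 2 * v ^ (1 / 3 : ℝ) := by
  have h1 : 0 ≤ ∫ u in (0 : ℝ)..v, (u * (1 + u)) ^ (-(2 / 3) : ℝ) := by
    refine intervalIntegral.integral_nonneg hv.le fun u hu => ?_
    have := hu.1
    positivity
  have h2 : ∫ u in (0 : ℝ)..v, (u * (1 + u)) ^ (-(2 / 3) : ℝ) ≤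
      ∫ u in (0 : ℝ)..v, u ^ (-(2 / 3) : ℝ) := by
    refine intervalIntegral.integral_mono_on_of_le_Ioo hv.le (Ar_int le_rfl hv.le)
      (intervalIntegral.intervalIntegrable_rpow' (by norm_num)) fun u hu => ?_
    exact sq_le_rpow hu.1
  have h3 : ∫ u in (0 : ℝ)..v, u ^ (-(2 / 3) : ℝ) = 3 * v ^ (1 / 3 : ℝ) := by
    rw [integral_rpow (Or.inl (by norm_num))]
    have e : (-(2 / 3) + 1 : ℝ) = 1 / 3 := by norm_num
    rw [e, Real.zero_rpow (by norm_num)]
    ring
  unfold Ar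
  constructor
  · linarith
  · linarith

/-- **The approximation of the area.** -/
theorem J_approx {l : ℝ} (hl : 0 < l) (hl1 : l ≤ 1) {v : ℝ} (hv : 0 < v) (hvl : v ≤ l) :
    |J l (Sf v) - Ar l| ≤ 2 * v ^ (1 / 3 : ℝ) := by
  have h1 := Kf_eq hl hv hvl
  have hv1 : v ≤ 1 := hvl.trans hl1
  rw [J_eq hl hl1 hv hvl, h1]
  have e1 : ∫ u in v..l, Tf u ^ 2 = ∫ u in v..l, (u * (1 + u)) ^ (-(2 / 3) : ℝ) := by
    refine intervalIntegral.integral_congr fun u hu => ?_
    rw [Set.uIcc_of_le hvl] at hu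
    exact Tf_sq (lt_of_lt_of_le hv hu.1)
  have e2 := intervalIntegral.integral_add_adjacent_intervals (Ar_int le_rfl hv.le)
    (Ar_int hv.le hl.le)
  have h2 := Ar_small hv
  have h3 : Sf v * Tf v ≤ v ^ (1 / 3 : ℝ) := by
    have : Sf v * Tf v = v * Tf v ^ 2 := by unfold Sf; ring
    rw [this, Tf_sq hv]
    calc v * (v * (1 + v)) ^ (-(2 / 3) : ℝ) ≤ v * v ^ (-(2 / 3) : ℝ) :=
          mul_le_mul_of_nonneg_left (sq_le_rpow hv) hv.le
      _ = v ^ (1 / 3 : ℝ) := by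
          nth_rewrite 1 [← Real.rpow_one v]
          rw [← Real.rpow_add hv]
          norm_num
  have h4 : 0 ≤ Sf v ^ 2 / l := by positivity
  have h5 : Sf v ^ 2 / l ≤ Sf v * Tf v := by
    rw [div_le_iff₀ hl]
    have hT := Tf_pos hv
    have hS := Sf_pos hv
    have : Sf v ≤ Tf v * l := by
      unfold Sf
      rw [mul_comm]
      exact mul_le_mul_of_nonneg_left hvl hT.le
    nlinarith
  have e3 : Ar l = 1 / 2 * ∫ v in (0 : ℝ)..l, (v * (1 + v)) ^ (-(2 / 3) : ℝ) := rfl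
  have e4 : Ar v = 1 / 2 * ∫ u in (0 : ℝ)..v, (u * (1 + u)) ^ (-(2 / 3) : ℝ) := rfl
  have hp : 0 ≤ v ^ (1 / 3 : ℝ) := by positivity
  have h6 : J l (Sf v) = J l (Sf v) := rfl
  rw [e1]
  have key : 1 / 2 * (∫ u in v..l, (u * (1 + u)) ^ (-(2 / 3) : ℝ)) +
      1 / 2 * (Sf v ^ 2 / l - Sf v * Tf v) - Ar l =
      -(Ar v) - 1 / 2 * (Sf v * Tf v - Sf v ^ 2 / l) := by
    rw [e3, e4]
    linarith
  rw [key, abs_le]
  constructor <;> nlinarith [h2.1, h2.2]

lemma Sf_le_rpow {v : ℝ} (hv : 0 < v) : Sf v ≤ v ^ (2 / 3 : ℝ) := by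
  unfold Sf Tf
  calc v * (v * (1 + v)) ^ (-(1 / 3) : ℝ) ≤ v * v ^ (-(1 / 3) : ℝ) := by
        refine mul_le_mul_of_nonneg_left ?_ hv.le
        exact Real.rpow_le_rpow_of_nonpos hv (by nlinarith) (by norm_num)
    _ = v ^ (2 / 3 : ℝ) := by
        nth_rewrite 1 [← Real.rpow_one v]
        rw [← Real.rpow_add hv]
        norm_num

end Pool.Agent.V7H9.AL
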