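import Pool.Agent.V7H9.AL.Exc

set_option autoImplicit false

/-!
# Bounds for the law of `c / rad (abc) ^ (1/3)`
-/

namespace Pool.Agent.V7H9.AL

open Finset Filter Topology Pool.Agent.TH498.AR
open Pool.Agent.Results.MP_1ea25c_nt.AlmostAllTriples (triples rad3)

lemma rr_le {q : ℕ} (hq : q.Prime) : rr q ≤ 3 / q := by
  have h2 := two_le_cast hq
  have hq0 : (0 : ℝ) < q := by linarith
  unfold rr
  rw [div_le_div_iff₀ (rr_den hq) hq0]
  nlinarith

/-- the summand with a general exponent -/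
noncomputable def fr (τ : ℝ) (w : ℕ) : ℝ := (w : ℝ) ^ (-τ) * ∏ q ∈ w.primeFactors, rr q

lemma fr_nonneg (τ : ℝ) (w : ℕ) : 0 ≤ fr τ w := by
  unfold fr
  refine mul_nonneg (by positivity) (prod_nonneg fun q hq => ?_)
  exact (rr_pos (Nat.prime_of_mem_primeFactors hq)).le

lemma fr_zero {τ : ℝ} (hτ : 0 < τ) : fr τ 0 = 0 := by
  unfold fr
  rw [Nat.cast_zero, Real.zero_rpow (by linarith), zero_mul]

lemma fr_one (τ : ℝ) : fr τ 1 = 1 := by
  unfold fr
  simp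

lemma fr_mul {τ : ℝ} {m n : ℕ} (h : Nat.Coprime m n) : fr τ (m * n) = fr τ m * fr τ n := by
  unfold fr
  rw [h.primeFactors_mul, prod_union h.disjoint_primeFactors]
  push_cast
  rw [Real.mul_rpow (Nat.cast_nonneg _) (Nat.cast_nonneg _)]
  ring

lemma fr_pow {τ : ℝ} {q : ℕ} (hq : q.Prime) (n : ℕ) :
    fr τ (q ^ (n + 1)) = ((q : ℝ) ^ (-τ)) ^ (n + 1) * rr q := by
  unfold fr
  rw [Nat.primeFactors_pow_succ, hq.primeFactors, prod_singleton]
  push_cast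
  congr 1
  rw [← Real.rpow_natCast, ← Real.rpow_mul (Nat.cast_nonneg _), mul_comm,
    Real.rpow_mul (Nat.cast_nonneg _), Real.rpow_natCast]

/-- the sums converge for all positive exponents -/
theorem fr_summable {τ : ℝ} (hτ : 0 < τ) : Summable (fr τ) := by
  classical
  obtain ⟨y, hy⟩ : ∃ y : ℝ, y = (2 : ℝ) ^ (-τ) := ⟨_, rfl⟩
  have hy0 : 0 < y := by rw [hy]; positivity
  have hy1 : y < 1 := by rw [hy]; exact Real.rpow_lt_one_of_one_lt_of_neg (by norm_num) (by linarith)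
  obtain ⟨c, hc⟩ : ∃ c : ℝ, c = 1 / (1 - y) := ⟨_, rfl⟩
  have hc1 : 1 ≤ c := by
    rw [hc, le_div_iff₀ (by linarith)]
    linarith
  obtain ⟨Z, hZ⟩ : ∃ Z : ℝ, Z = ∑' n : ℕ, ((n : ℝ) ^ (1 + τ))⁻¹ := ⟨_, rfl⟩
  have hsm : Summable fun n : ℕ => ((n : ℝ) ^ (1 + τ))⁻¹ :=
    Real.summable_nat_rpow_inv.2 (by linarith)
  have hZ0 : 0 ≤ Z := by rw [hZ]; exact tsum_nonneg fun n => by positivity
  -- the value at a prime
  have hx : ∀ {p : ℕ}, p.Prime → 0 < (p : ℝ) ^ (-τ) ∧ (p : ℝ) ^ (-τ) ≤ y := by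
    intro p hp
    have h0 : (0 : ℝ) < p := by exact_mod_cast hp.pos
    have h2 : (2 : ℝ) ≤ p := by exact_mod_cast hp.two_le
    refine ⟨by positivity, ?_⟩
    rw [hy]
    exact Real.rpow_le_rpow_of_nonpos (by norm_num) h2 (by linarith)
  have e1 : ∀ {p : ℕ}, p.Prime → (fun n : ℕ => fr τ (p ^ (n + 1))) = fun n : ℕ =>
        ((p : ℝ) ^ (-τ)) ^ n * (((p : ℝ) ^ (-τ)) * rr p) := by
    intro p hp
    funext n
    rw [fr_pow hp, pow_succ]
    ring
  have hsum : ∀ {p : ℕ}, p.Prime → Summable (fun n : ℕ ↦ ‖fr τ (p ^ n)‖) := by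
    intro p hp
    obtain ⟨h1, h2⟩ := hx hp
    have e0 : (fun n : ℕ ↦ ‖fr τ (p ^ n)‖) = fun n : ℕ ↦ fr τ (p ^ n) := by
      funext n
      rw [Real.norm_of_nonneg (fr_nonneg _ _)]
    rw [e0, ← summable_nat_add_iff 1, e1 hp]
    exact (summable_geometric_of_lt_one h1.le (by linarith)).mul_right _
  have hle : ∀ {p : ℕ}, p.Prime → ∑' n : ℕ, fr τ (p ^ n) ≤
      Real.exp (3 * c * ((p : ℝ) ^ (1 + τ))⁻¹) := by
    intro p hp
    obtain ⟨h1, h2⟩ := hx hp
    have h0 : (0 : ℝ) < p := by exact_mod_cast hp.pos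
    have hs := (hsum hp).of_norm
    rw [hs.tsum_eq_zero_add, pow_zero, fr_one, e1 hp, tsum_mul_right,
      tsum_geometric_of_lt_one h1.le (by linarith)]
    have hinv : (1 - (p : ℝ) ^ (-τ))⁻¹ ≤ c := by
      rw [hc, one_div]
      exact inv_anti₀ (by linarith) (by linarith)
    have h4 : (p : ℝ) ^ (-τ) * (3 / p) = 3 * ((p : ℝ) ^ (1 + τ))⁻¹ := by
      rw [Real.rpow_neg h0.le, Real.rpow_add h0, Real.rpow_one]
      field_simp
    have h5 : (p : ℝ) ^ (-τ) * rr p ≤ 3 * ((p : ℝ) ^ (1 + τ))⁻¹ := by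
      rw [← h4]
      exact mul_le_mul_of_nonneg_left (rr_le hp) h1.le
    have h5' : 0 ≤ (p : ℝ) ^ (-τ) * rr p := mul_nonneg h1.le (rr_pos hp).le
    have h6 : (1 - (p : ℝ) ^ (-τ))⁻¹ * ((p : ℝ) ^ (-τ) * rr p) ≤
        c * (3 * ((p : ℝ) ^ (1 + τ))⁻¹) :=
      mul_le_mul hinv h5 h5' (by linarith)
    have h7 := Real.add_one_le_exp (3 * c * ((p : ℝ) ^ (1 + τ))⁻¹)
    linarith
  refine summable_of_sum_range_le (c := Real.exp (3 * c * Z)) (fr_nonneg τ) fun M => ?_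
  have hS := EulerProduct.summable_and_hasSum_factoredNumbers_prod_filter_prime_tsum
    (f := fr τ) (fr_one τ) (fun {m n} h => fr_mul h) hsum (range (M + 1))
  have hmem : ∀ m ∈ Icc 1 M, m ∈ Nat.factoredNumbers (range (M + 1)) := by
    intro m hm
    obtain ⟨h1, h2⟩ := mem_Icc.1 hm
    refine Nat.mem_factoredNumbers_of_primeFactors_subset (by omega) ?_
    intro p hp
    have := Nat.le_of_mem_primeFactors hp
    exact mem_range.2 (by omega)
  have h7 : ∑ m ∈ Icc 1 M, fr τ m ≤ ∏ p ∈ range (M + 1) with p.Prime, ∑' n : ℕ, fr τ (p ^ n) := by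
    rw [← Finset.sum_subtype_of_mem (fun m => fr τ m) hmem]
    exact sum_le_hasSum _ (fun i _ => fr_nonneg _ _) hS.2
  have h8 : ∑ i ∈ range M, fr τ i ≤ ∑ m ∈ Icc 1 M, fr τ m := by
    have h4 : ∑ i ∈ range M, fr τ i ≤ ∑ i ∈ insert 0 (Icc 1 M), fr τ i := by
      refine sum_le_sum_of_subset_of_nonneg ?_ fun i _ _ => fr_nonneg τ i
      intro i hi
      rw [mem_range] at hi
      rw [mem_insert, mem_Icc]
      omega
    rw [sum_insert (by simp), fr_zero hτ, zero_add] at h4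
    exact h4
  refine h8.trans (h7.trans ?_)
  calc ∏ p ∈ range (M + 1) with p.Prime, ∑' n : ℕ, fr τ (p ^ n)
      ≤ ∏ p ∈ range (M + 1) with p.Prime, Real.exp (3 * c * ((p : ℝ) ^ (1 + τ))⁻¹) := by
        refine Finset.prod_le_prod (fun p _ => tsum_nonneg fun n => fr_nonneg _ _) ?_
        intro p hp
        exact hle (mem_filter.1 hp).2
    _ = Real.exp (∑ p ∈ range (M + 1) with p.Prime, 3 * c * ((p : ℝ) ^ (1 + τ))⁻¹) := by
        rw [Real.exp_sum]
    _ ≤ Real.exp (3 * c * Z) := by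
        refine Real.exp_le_exp.2 ?_
        rw [← mul_sum, hZ]
        exact mul_le_mul_of_nonneg_left (hsm.sum_le_tsum _ (fun n _ => by positivity))
          (by linarith)

/-- the limit law of `c / rad ^ (1/3)`, as a function of `z` -/
noncomputable def Gz (z : ℝ) : ℝ := ∑' w : ℕ, C0 * wgt w * Hf (tz z w)

lemma Hf_nonneg {s : ℝ} (hs : 0 ≤ s) (hs1 : s ≤ 1 / 2) : 0 ≤ Hf s :=
  le_trans (by positivity) (Hf_ge hs hs1)

lemma Hf_bd {s : ℝ} (hs : 0 ≤ s) (hs1 : s ≤ 1 / 2) : Hf s ≤ 3 := by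
  refine (Hf_le hs hs1).trans ?_
  have : s ^ (1 / 3 : ℝ) ≤ 1 := Real.rpow_le_one hs (by linarith) (by norm_num)
  linarith

lemma Gz_summable {z : ℝ} (hz : 0 < z) : Summable (fun w => C0 * wgt w * Hf (tz z w)) := by
  have h : Summable (fun w => C0 * 3 * wgt w) := wgt_summable.mul_left _
  refine Summable.of_nonneg_of_le (fun w => ?_) (fun w => ?_) h
  · exact mul_nonneg (mul_nonneg C0_pos.le (wgt_nonneg w)) (Hf_nonneg (tz_bd hz w).1 (tz_bd hz w).2)
  · have h1 := mul_le_mul_of_nonneg_left (Hf_bd (tz_bd hz w).1 (tz_bd hz w).2)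
      (mul_nonneg C0_pos.le (wgt_nonneg w))
    linarith

/-- the lower bound -/
theorem Gz_ge {z : ℝ} (hz : 0 < z) (hz4 : 4 ≤ z ^ 3) : 3 / 2 * C0 / z ≤ Gz z := by
  have hb := tz_bd hz 1
  have hu : 1 / z ^ 3 ≤ tz z 1 := by
    have hz3 : 0 < z ^ 3 := by positivity
    have h4 : 4 * ((1 : ℕ) : ℝ) / z ^ 3 ≤ 1 := by
      rw [div_le_one hz3]
      push_cast
      linarith
    have h1 := Real.sq_sqrt (by linarith : 0 ≤ 1 - 4 * ((1 : ℕ) : ℝ) / z ^ 3)
    obtain ⟨r, hr⟩ : ∃ r : ℝ, r = Real.sqrt (1 - 4 * ((1 : ℕ) : ℝ) / z ^ 3) := ⟨_, rfl⟩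
    have hr0 : 0 ≤ r := by rw [hr]; exact Real.sqrt_nonneg _
    unfold tz
    rw [← hr] at h1 ⊢
    push_cast at h1
    have h5 : 4 * 1 / z ^ 3 = 4 * (1 / z ^ 3) := by ring
    rw [h5] at h1
    have h6 : 0 < 1 / z ^ 3 := by positivity
    nlinarith
  have h1 : 3 / 2 * (1 / z ^ 3) ^ (1 / 3 : ℝ) ≤ Hf (tz z 1) := by
    refine le_trans ?_ (Hf_ge hb.1 hb.2)
    have := Real.rpow_le_rpow (by positivity) hu (by norm_num : (0 : ℝ) ≤ 1 / 3)
    linarith
  have h2 : (1 / z ^ 3) ^ (1 / 3 : ℝ) = 1 / z := by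
    rw [← one_div_pow, ← Real.rpow_natCast, ← Real.rpow_mul (by positivity)]
    norm_num
  rw [h2] at h1
  have h3 : C0 * wgt 1 * Hf (tz z 1) ≤ Gz z := by
    refine (Gz_summable hz).le_tsum 1 fun w _ => ?_
    exact mul_nonneg (mul_nonneg C0_pos.le (wgt_nonneg w)) (Hf_nonneg (tz_bd hz w).1 (tz_bd hz w).2)
  rw [wgt_one, mul_one] at h3
  have h4 := mul_le_mul_of_nonneg_left h1 C0_pos.le
  calc 3 / 2 * C0 / z = C0 * (3 / 2 * (1 / z)) := by ring
    _ ≤ _ := h4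
    _ ≤ _ := h3

lemma tz_le {z : ℝ} (hz : 0 < z) (w : ℕ) : tz z w ≤ 2 * (w / z ^ 3) := by
  have hz3 : 0 < z ^ 3 := by positivity
  have hu0 : 0 ≤ (w : ℝ) / z ^ 3 := by positivity
  have e : 4 * (w : ℝ) / z ^ 3 = 4 * (w / z ^ 3) := by ring
  unfold tz
  rw [e]
  obtain ⟨u, hu⟩ : ∃ u : ℝ, u = (w : ℝ) / z ^ 3 := ⟨_, rfl⟩
  rw [← hu] at hu0 ⊢
  rcases le_or_gt u (1 / 4) with h | h
  · have h1 : 1 - 4 * u ≤ Real.sqrt (1 - 4 * u) := by
      refine Real.le_sqrt_of_sq_le ?_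
      nlinarith
    linarith
  · have h1 : Real.sqrt (1 - 4 * u) = 0 := Real.sqrt_eq_zero_of_nonpos (by linarith)
    rw [h1]
    linarith

/-- the upper bound -/
theorem Gz_le {ε : ℝ} (hε : 0 < ε) (hε1 : ε ≤ 1) : ∃ C : ℝ, 0 < C ∧ ∀ z : ℝ, 0 < z →
    Gz z ≤ C * z ^ (-(1 - ε)) := by
  have hs := fr_summable (τ := ε / 3) (by positivity)
  refine ⟨6 * C0 * ∑' w, fr (ε / 3) w, ?_, fun z hz => ?_⟩
  · have h1 : fr (ε / 3) 1 ≤ ∑' w, fr (ε / 3) w :=
      hs.le_tsum 1 fun w _ => fr_nonneg _ _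
    rw [fr_one] at h1
    have := C0_pos
    positivity
  · have hterm : ∀ w : ℕ, C0 * wgt w * Hf (tz z w) ≤ 6 * C0 * z ^ (-(1 - ε)) * fr (ε / 3) w := by
      intro w
      rcases Nat.eq_zero_or_pos w with h0 | h0
      · rw [h0, wgt_zero, fr_zero (by positivity)]
        simp
      · have hw0 : (0 : ℝ) < w := by exact_mod_cast h0
        have hb := tz_bd hz w
        have h1 := Hf_le hb.1 hb.2
        obtain ⟨y, hy⟩ : ∃ y : ℝ, y = (w : ℝ) ^ (1 / 3 : ℝ) / z := ⟨_, rfl⟩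
        have hy0 : 0 < y := by rw [hy]; positivity
        have h2 : (tz z w) ^ (1 / 3 : ℝ) ≤ 2 * y := by
          have h3 := Real.rpow_le_rpow hb.1 (tz_le hz w) (by norm_num : (0 : ℝ) ≤ 1 / 3)
          refine h3.trans ?_
          rw [Real.mul_rpow (by norm_num) (by positivity), Real.div_rpow hw0.le (by positivity)]
          have h4 : (z ^ 3) ^ (1 / 3 : ℝ) = z := by
            rw [← Real.rpow_natCast, ← Real.rpow_mul hz.le]
            norm_num
          rw [h4, ← hy]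
          refine mul_le_mul_of_nonneg_right ?_ hy0.le
          calc (2 : ℝ) ^ (1 / 3 : ℝ) ≤ 2 ^ (1 : ℝ) :=
                Real.rpow_le_rpow_of_exponent_le (by norm_num) (by norm_num)
            _ = 2 := Real.rpow_one _
        have h5 : Hf (tz z w) ≤ 6 * y ^ (1 - ε) := by
          rcases le_or_gt y 1 with h | h
          · have h6 : y ≤ y ^ (1 - ε) := by
              calc y = y ^ (1 : ℝ) := (Real.rpow_one y).symm
                _ ≤ y ^ (1 - ε) := Real.rpow_le_rpow_of_exponent_ge hy0 h (by linarith)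
            linarith
          · have h6 : 1 ≤ y ^ (1 - ε) := Real.one_le_rpow h.le (by linarith)
            have := Hf_bd hb.1 hb.2
            linarith
        have h6 : y ^ (1 - ε) = (w : ℝ) ^ ((1 - ε) / 3) * z ^ (-(1 - ε)) := by
          rw [hy, Real.div_rpow (by positivity) hz.le, ← Real.rpow_mul hw0.le,
            Real.rpow_neg hz.le, div_eq_mul_inv]
          congr 2
          ring
        have h7 : wgt w * (w : ℝ) ^ ((1 - ε) / 3) = fr (ε / 3) w := by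
          unfold wgt fr
          have : (w : ℝ) ^ (-(ε / 3)) = (w : ℝ) ^ (-(1 / 3) : ℝ) * (w : ℝ) ^ ((1 - ε) / 3) := by
            rw [← Real.rpow_add hw0]
            congr 1
            ring
          rw [this]
          ring
        have h8 := mul_le_mul_of_nonneg_left h5 (mul_nonneg C0_pos.le (wgt_nonneg w))
        rw [h6] at h8
        calc C0 * wgt w * Hf (tz z w)
            ≤ C0 * wgt w * (6 * ((w : ℝ) ^ ((1 - ε) / 3) * z ^ (-(1 - ε)))) := h8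
          _ = 6 * C0 * z ^ (-(1 - ε)) * (wgt w * (w : ℝ) ^ ((1 - ε) / 3)) := by ring
          _ = _ := by rw [h7]
    calc Gz z ≤ ∑' w, 6 * C0 * z ^ (-(1 - ε)) * fr (ε / 3) w :=
          (Gz_summable hz).tsum_le_tsum hterm (hs.mul_left _)
      _ = 6 * C0 * z ^ (-(1 - ε)) * ∑' w, fr (ε / 3) w := tsum_mul_left
      _ = _ := by ring

end Pool.Agent.V7H9.AL
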