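import Pool.Agent.V7H9.AL.Area
import Mathlib.Probability.Distributions.Beta

set_option autoImplicit false

/-!
# The area in terms of `a / c`, and the Beta function
-/

namespace Pool.Agent.V7H9.AL

open Filter Topology MeasureTheory

/-- the area function in terms of `t = a / c` -/
noncomputable def Hf (s : ℝ) : ℝ := 1 / 2 * ∫ t in (0 : ℝ)..s, (t * (1 - t)) ^ (-(2 / 3) : ℝ)

lemma image_frac {l : ℝ} (hl : 0 ≤ l) :
    (fun v : ℝ => v / (1 + v)) '' Set.Ioc 0 l = Set.Ioc 0 (l / (1 + l)) := by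
  ext t
  rw [Set.mem_image, Set.mem_Ioc]
  constructor
  · rintro ⟨v, ⟨h1, h2⟩, rfl⟩
    refine ⟨by positivity, ?_⟩
    rw [div_le_div_iff₀ (by linarith) (by linarith)]
    nlinarith
  · rintro ⟨h1, h2⟩
    have h3 : l / (1 + l) < 1 := by
      rw [div_lt_one (by linarith)]
      linarith
    have h4 : 0 < 1 - t := by linarith
    refine ⟨t / (1 - t), ⟨by positivity, ?_⟩, ?_⟩
    · rw [div_le_iff₀ h4]
      rw [le_div_iff₀ (by linarith)] at h2
      linarith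
    · field_simp
      ring

lemma Hf_eq {l : ℝ} (hl : 0 ≤ l) : Hf (l / (1 + l)) = Ar l := by
  unfold Hf Ar
  congr 1
  have hl1 : 0 ≤ l / (1 + l) := by positivity
  rw [intervalIntegral.integral_of_le hl1, intervalIntegral.integral_of_le hl,
    ← image_frac hl]
  have hder : ∀ v ∈ Set.Ioc 0 l, HasDerivWithinAt (fun v : ℝ => v / (1 + v))
      (1 / (1 + v) ^ 2) (Set.Ioc 0 l) v := by
    intro v hv
    have hv0 : (1 : ℝ) + v ≠ 0 := by
      have := hv.1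
      linarith
    have h1 : HasDerivAt (fun v : ℝ => v / (1 + v)) ((1 * (1 + v) - v * 1) / (1 + v) ^ 2) v :=
      (hasDerivAt_id' v).div ((hasDerivAt_id' v).const_add 1) hv0
    refine (h1.congr_deriv ?_).hasDerivWithinAt
    congr 1
    ring
  have hinj : Set.InjOn (fun v : ℝ => v / (1 + v)) (Set.Ioc 0 l) := by
    intro u hu v hv h
    simp only at h
    have h1 : (1 : ℝ) + u ≠ 0 := by
      have := hu.1
      linarith
    have h2 : (1 : ℝ) + v ≠ 0 := by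
      have := hv.1
      linarith
    rw [div_eq_div_iff h1 h2] at h
    linarith
  rw [integral_image_eq_integral_abs_deriv_smul measurableSet_Ioc hder hinj]
  refine setIntegral_congr_fun measurableSet_Ioc fun v hv => ?_
  have hv0 : 0 < v := hv.1
  have h1 : (0 : ℝ) < 1 + v := by linarith
  have e1 : v / (1 + v) * (1 - v / (1 + v)) = v * (1 + v) * ((1 + v) ^ 3)⁻¹ := by
    field_simp
    ring
  rw [e1, Real.mul_rpow (by positivity) (by positivity), abs_of_pos (by positivity), smul_eq_mul]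
  have e2 : (((1 + v) ^ 3)⁻¹) ^ (-(2 / 3) : ℝ) = (1 + v) ^ 2 := by
    rw [← Real.rpow_natCast, ← Real.rpow_neg h1.le, ← Real.rpow_mul h1.le, ← Real.rpow_natCast]
    norm_num
  rw [e2]
  field_simp

lemma bf_bound {t : ℝ} (h0 : 0 < t) (h1 : t ≤ 1 / 2) :
    (t * (1 - t)) ^ (-(2 / 3) : ℝ) ≤ (2 : ℝ) ^ (2 / 3 : ℝ) * t ^ (-(2 / 3) : ℝ) := by
  have h2 : t * (1 / 2) ≤ t * (1 - t) := mul_le_mul_of_nonneg_left (by linarith) h0.le
  have h3 := Real.rpow_le_rpow_of_nonpos (by positivity) h2 (by norm_num : (-(2 / 3) : ℝ) ≤ 0)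
  refine h3.trans (le_of_eq ?_)
  rw [Real.mul_rpow h0.le (by norm_num), mul_comm]
  congr 1
  rw [one_div, Real.inv_rpow (by norm_num), ← Real.rpow_neg (by norm_num), neg_neg]

lemma bf_int {a b : ℝ} (ha : 0 ≤ a) (ha' : a ≤ 1 / 2) (hb : 0 ≤ b) (hb' : b ≤ 1 / 2) :
    IntervalIntegrable (fun t : ℝ => (t * (1 - t)) ^ (-(2 / 3) : ℝ)) volume a b := by
  have h1 : IntervalIntegrable (fun v : ℝ => (2 : ℝ) ^ (2 / 3 : ℝ) * v ^ (-(2 / 3) : ℝ))
      volume a b := (intervalIntegral.intervalIntegrable_rpow' (by norm_num)).const_mul _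
  refine h1.mono_fun ?_ ?_
  · have : Measurable (fun v : ℝ => (v * (1 - v)) ^ (-(2 / 3) : ℝ)) := by fun_prop
    exact this.aestronglyMeasurable
  · refine (ae_restrict_iff' measurableSet_uIoc).2 (Eventually.of_forall fun v hv => ?_)
    have hv0 : 0 < v ∧ v ≤ 1 / 2 := by
      rcases Set.mem_uIoc.1 hv with h | h
      · exact ⟨lt_of_le_of_lt ha h.1, h.2.trans hb'⟩
      · exact ⟨lt_of_le_of_lt hb h.1, h.2.trans ha'⟩
    have h5 : 0 ≤ v * (1 - v) := mul_nonneg hv0.1.le (by linarith [hv0.2])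
    simp only
    rw [Real.norm_of_nonneg (Real.rpow_nonneg h5 _), Real.norm_of_nonneg (by
      have := hv0.1
      positivity)]
    exact bf_bound hv0.1 hv0.2

/-- the value of the Beta integral -/
lemma beta_real : ∫ t in (0 : ℝ)..1, (t * (1 - t)) ^ (-(2 / 3) : ℝ) =
    Real.Gamma (1 / 3) ^ 2 / Real.Gamma (2 / 3) := by
  have h1 := ProbabilityTheory.beta_eq_betaIntegralReal (1 / 3) (1 / 3) (by norm_num) (by norm_num)
  have h2 : ProbabilityTheory.beta (1 / 3) (1 / 3) =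
      Real.Gamma (1 / 3) ^ 2 / Real.Gamma (2 / 3) := by
    unfold ProbabilityTheory.beta
    norm_num
    ring
  rw [← h2, h1]
  have h3 : Complex.betaIntegral ((1 / 3 : ℝ) : ℂ) ((1 / 3 : ℝ) : ℂ) =
      ((∫ t in (0 : ℝ)..1, (t * (1 - t)) ^ (-(2 / 3) : ℝ) : ℝ) : ℂ) := by
    unfold Complex.betaIntegral
    rw [← intervalIntegral.integral_ofReal]
    refine intervalIntegral.integral_congr_ae ?_
    refine Eventually.of_forall fun t ht => ?_
    rw [Set.uIoc_of_le zero_le_one] at ht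
    have ht0 : 0 < t := ht.1
    have ht1 : 0 ≤ 1 - t := by linarith [ht.2]
    rw [Real.mul_rpow ht0.le ht1]
    push_cast
    rw [Complex.ofReal_cpow ht0.le, Complex.ofReal_cpow ht1]
    push_cast
    norm_num
  rw [h3, Complex.ofReal_re]

/-- the total area -/
lemma Hf_half : Hf (1 / 2) = Real.Gamma (1 / 3) ^ 2 / (4 * Real.Gamma (2 / 3)) := by
  have h1 := beta_real
  have hi1 : IntervalIntegrable (fun t : ℝ => (t * (1 - t)) ^ (-(2 / 3) : ℝ)) volume 0 (1 / 2) :=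
    bf_int le_rfl (by norm_num) (by norm_num) le_rfl
  have hsymm : ∫ t in (1 / 2 : ℝ)..1, (t * (1 - t)) ^ (-(2 / 3) : ℝ) =
      ∫ t in (0 : ℝ)..(1 / 2), (t * (1 - t)) ^ (-(2 / 3) : ℝ) := by
    have h2 := intervalIntegral.integral_comp_sub_left (a := (0 : ℝ)) (b := 1 / 2)
      (fun t : ℝ => (t * (1 - t)) ^ (-(2 / 3) : ℝ)) 1
    rw [show (1 : ℝ) - 1 / 2 = 1 / 2 by norm_num, sub_zero] at h2
    rw [← h2]
    refine intervalIntegral.integral_congr fun t _ => ?_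
    congr 1
    ring
  have hi2 : IntervalIntegrable (fun t : ℝ => (t * (1 - t)) ^ (-(2 / 3) : ℝ)) volume (1 / 2) 1 := by
    have h3 := hi1.comp_sub_left 1
    have h4 : (fun x : ℝ => ((1 - x) * (1 - (1 - x))) ^ (-(2 / 3) : ℝ)) =
        fun t : ℝ => (t * (1 - t)) ^ (-(2 / 3) : ℝ) := by
      funext t
      congr 1
      ring
    rw [h4] at h3
    rw [show (1 : ℝ) - 1 / 2 = 1 / 2 by norm_num, sub_zero] at h3
    exact h3.symm
  have h5 := intervalIntegral.integral_add_adjacent_intervals hi1 hi2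
  rw [hsymm, h1] at h5
  unfold Hf
  have hG : Real.Gamma (2 / 3) ≠ 0 := (Real.Gamma_pos_of_pos (by norm_num)).ne'
  obtain ⟨I, hI⟩ : ∃ I : ℝ, I = ∫ t in (0 : ℝ)..(1 / 2), (t * (1 - t)) ^ (-(2 / 3) : ℝ) :=
    ⟨_, rfl⟩
  rw [← hI] at h5 ⊢
  have h6 : I = Real.Gamma (1 / 3) ^ 2 / Real.Gamma (2 / 3) / 2 := by linarith
  rw [h6]
  field_simp
  ring

/-- lower bound -/
lemma Hf_ge {s : ℝ} (hs : 0 ≤ s) (hs1 : s ≤ 1 / 2) : 3 / 2 * s ^ (1 / 3 : ℝ) ≤ Hf s := by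
  have h3 : ∫ u in (0 : ℝ)..s, u ^ (-(2 / 3) : ℝ) = 3 * s ^ (1 / 3 : ℝ) := by
    rw [integral_rpow (Or.inl (by norm_num))]
    have e : (-(2 / 3) + 1 : ℝ) = 1 / 3 := by norm_num
    rw [e, Real.zero_rpow (by norm_num)]
    ring
  have h4 : ∫ u in (0 : ℝ)..s, u ^ (-(2 / 3) : ℝ) ≤
      ∫ u in (0 : ℝ)..s, (u * (1 - u)) ^ (-(2 / 3) : ℝ) := by
    refine intervalIntegral.integral_mono_on_of_le_Ioo hs
      (intervalIntegral.intervalIntegrable_rpow' (by norm_num))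
      (bf_int le_rfl (by norm_num) hs hs1) fun u hu => ?_
    have hu0 := hu.1
    have hu1 := hu.2
    refine Real.rpow_le_rpow_of_nonpos (mul_pos hu0 (by linarith)) ?_ (by norm_num)
    nlinarith
  unfold Hf
  linarith

/-- upper bound -/
lemma Hf_le {s : ℝ} (hs : 0 ≤ s) (hs1 : s ≤ 1 / 2) : Hf s ≤ 3 * s ^ (1 / 3 : ℝ) := by
  have h3 : ∫ u in (0 : ℝ)..s, (2 : ℝ) ^ (2 / 3 : ℝ) * u ^ (-(2 / 3) : ℝ) =
      (2 : ℝ) ^ (2 / 3 : ℝ) * (3 * s ^ (1 / 3 : ℝ)) := by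
    rw [intervalIntegral.integral_const_mul, integral_rpow (Or.inl (by norm_num))]
    have e : (-(2 / 3) + 1 : ℝ) = 1 / 3 := by norm_num
    rw [e, Real.zero_rpow (by norm_num)]
    ring
  have h4 : ∫ u in (0 : ℝ)..s, (u * (1 - u)) ^ (-(2 / 3) : ℝ) ≤
      ∫ u in (0 : ℝ)..s, (2 : ℝ) ^ (2 / 3 : ℝ) * u ^ (-(2 / 3) : ℝ) := by
    refine intervalIntegral.integral_mono_on_of_le_Ioo hs
      (bf_int le_rfl (by norm_num) hs hs1)
      ((intervalIntegral.intervalIntegrable_rpow' (by norm_num)).const_mul _) fun u hu => ?_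
    exact bf_bound hu.1 (hu.2.le.trans hs1)
  have h5 : (2 : ℝ) ^ (2 / 3 : ℝ) ≤ 2 := by
    calc (2 : ℝ) ^ (2 / 3 : ℝ) ≤ 2 ^ (1 : ℝ) :=
          Real.rpow_le_rpow_of_exponent_le (by norm_num) (by norm_num)
      _ = 2 := Real.rpow_one _
  have h6 : 0 ≤ s ^ (1 / 3 : ℝ) := by positivity
  unfold Hf
  rw [h3] at h4
  nlinarith

end Pool.Agent.V7H9.AL
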