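import Mathlib

set_option autoImplicit false

/-!
# Local densities: the pairs of residues with given valuation of `a b (a + b)`
-/

namespace Pool.Agent.V7H9.AL

open Finset Filter Topology

lemma card_mod {N d : ℕ} (hd : 0 < d) (hN : d ∣ N) (v : ℕ) :
    ((range N).filter (fun b => b % d = v % d)).card = N / d := by
  have h1 : ((range N).filter (fun b => b % d = v % d)).card =
      N / d + if v % d < N % d then 1 else 0 := by
    rw [← Nat.count_modEq_card N hd v, Nat.count_eq_card_filter_range]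
    rfl
  rw [h1, Nat.mod_eq_zero_of_dvd hN, if_neg (Nat.not_lt_zero _), add_zero]

lemma card_dvd {N d : ℕ} (hd : 0 < d) (hN : d ∣ N) :
    ((range N).filter (fun b => d ∣ b)).card = N / d := by
  rw [← card_mod hd hN 0]
  congr 1
  refine filter_congr fun b _ => ?_
  rw [Nat.zero_mod, Nat.dvd_iff_mod_eq_zero]

lemma card_dvd_add {N d : ℕ} (hd : 0 < d) (hN : d ∣ N) (a : ℕ) :
    ((range N).filter (fun b => d ∣ a + b)).card = N / d := by
  rw [← card_mod hd hN (d - a % d)]
  congr 1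
  refine filter_congr fun b _ => ?_
  have hlt := Nat.mod_lt a hd
  constructor
  · intro h
    have h1 : a + b ≡ a + (d - a % d) [MOD d] := by
      have h2 : a + (d - a % d) ≡ 0 [MOD d] := by
        have : a + (d - a % d) = d * (a / d) + d := by
          have := Nat.div_add_mod a d
          omega
        rw [this]
        exact Nat.modEq_zero_iff_dvd.2 (Dvd.intro _ (by ring : d * (a / d + 1) = _))
      exact (Nat.modEq_zero_iff_dvd.2 h).trans h2.symm
    exact Nat.ModEq.add_left_cancel' a h1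
  · intro h
    have h1 : a + b ≡ a + (d - a % d) [MOD d] := Nat.ModEq.add_left a h
    have : a + (d - a % d) = d * (a / d) + d := by
      have := Nat.div_add_mod a d
      omega
    rw [this] at h1
    refine Nat.modEq_zero_iff_dvd.1 (h1.trans ?_)
    exact Nat.modEq_zero_iff_dvd.2 (Dvd.intro _ (by ring : d * (a / d + 1) = _))

lemma card_ndvd {N d : ℕ} (hd : 0 < d) (hN : d ∣ N) :
    ((range N).filter (fun b => ¬ d ∣ b)).card = N - N / d := by
  have h := card_filter_add_card_filter_not (s := range N) (fun b => d ∣ b)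
  rw [card_dvd hd hN, card_range] at h
  omega

/-- the pairs, not both divisible by `q`, with `q ^ j ∣ a b (a + b)` -/
def Ej (q j : ℕ) (p : ℕ × ℕ) : Prop := ¬ (q ∣ p.1 ∧ q ∣ p.2) ∧ q ^ j ∣ p.1 * p.2 * (p.1 + p.2)

instance (q j : ℕ) : DecidablePred (Ej q j) := fun _ => by unfold Ej; infer_instance

lemma fibre {q j N : ℕ} (hq : q.Prime) (hj : 0 < j) (hN : q ^ j ∣ N) (a : ℕ) :
    ((range N).filter (fun b => Ej q j (a, b))).card =
      if q ∣ a then (if q ^ j ∣ a then N - N / q else 0) else 2 * (N / q ^ j) := by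
  have hqN : q ∣ N := (dvd_pow_self q hj.ne').trans hN
  have hqj : 0 < q ^ j := pow_pos hq.pos j
  split_ifs with h1 h2
  · rw [← card_ndvd hq.pos hqN]
    congr 1
    refine filter_congr fun b _ => ?_
    unfold Ej
    simp only
    constructor
    · intro h h3
      exact h.1 ⟨h1, h3⟩
    · intro h
      exact ⟨fun h3 => h h3.2, (h2.mul_right b).mul_right _⟩
  · rw [card_eq_zero, filter_eq_empty_iff]
    intro b _ h
    obtain ⟨h3, h4⟩ := h
    simp only at h3 h4
    have h5 : ¬ q ∣ b := fun h => h3 ⟨h1, h⟩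
    have h6 : ¬ q ∣ a + b := fun h => h5 ((Nat.dvd_add_right h1).1 h)
    have c2 : Nat.Coprime (q ^ j) b := Nat.Coprime.pow_left j ((hq.coprime_iff_not_dvd).2 h5)
    have c3 : Nat.Coprime (q ^ j) (a + b) :=
      Nat.Coprime.pow_left j ((hq.coprime_iff_not_dvd).2 h6)
    exact h2 (c2.dvd_of_dvd_mul_right (c3.dvd_of_dvd_mul_right h4))
  · have hd : Disjoint ((range N).filter (fun b => q ^ j ∣ b))
        ((range N).filter (fun b => q ^ j ∣ a + b)) := by
      rw [disjoint_filter]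
      intro b _ h3 h4
      have h5 : q ∣ b := (dvd_pow_self q hj.ne').trans h3
      have h6 : q ∣ a + b := (dvd_pow_self q hj.ne').trans h4
      exact h1 ((Nat.dvd_add_left h5).1 h6)
    have hu : (range N).filter (fun b => Ej q j (a, b)) =
        (range N).filter (fun b => q ^ j ∣ b) ∪ (range N).filter (fun b => q ^ j ∣ a + b) := by
      rw [← filter_or]
      refine filter_congr fun b _ => ?_
      unfold Ej
      simp only
      constructor
      · rintro ⟨-, h4⟩
        have c1 : Nat.Coprime (q ^ j) a := Nat.Coprime.pow_left j ((hq.coprime_iff_not_dvd).2 h1)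
        rw [mul_assoc] at h4
        have h5 : q ^ j ∣ b * (a + b) := c1.dvd_of_dvd_mul_left h4
        by_cases h6 : q ∣ b
        · have h7 : ¬ q ∣ a + b := fun h => h1 ((Nat.dvd_add_left h6).1 h)
          have c3 : Nat.Coprime (q ^ j) (a + b) :=
            Nat.Coprime.pow_left j ((hq.coprime_iff_not_dvd).2 h7)
          exact Or.inl (c3.dvd_of_dvd_mul_right h5)
        · have c2 : Nat.Coprime (q ^ j) b := Nat.Coprime.pow_left j ((hq.coprime_iff_not_dvd).2 h6)
          exact Or.inr (c2.dvd_of_dvd_mul_left h5)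
      · intro h
        refine ⟨fun h3 => h1 h3.1, ?_⟩
        rcases h with h | h
        · exact (h.mul_left a).mul_right _
        · exact h.mul_left _
    rw [hu, card_union_of_disjoint hd, card_dvd hqj hN, card_dvd_add hqj hN]
    ring

lemma card_fib (N : ℕ) (P : ℕ × ℕ → Prop) [DecidablePred P] :
    ((range N ×ˢ range N).filter P).card =
      ∑ a ∈ range N, ((range N).filter (fun b => P (a, b))).card := by
  simp only [card_filter]
  rw [sum_product]

/-- the number of the pairs in `Ej` -/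
lemma card_Ej {q j N : ℕ} (hq : q.Prime) (hj : 0 < j) (hN : q ^ j ∣ N) :
    ((range N ×ˢ range N).filter (Ej q j)).card = 3 * (N / q ^ j) * (N - N / q) := by
  have hqN : q ∣ N := (dvd_pow_self q hj.ne').trans hN
  have hqj : 0 < q ^ j := pow_pos hq.pos j
  rw [card_fib]
  simp only [fibre hq hj hN]
  have e : ∀ a ∈ range N, (if q ∣ a then (if q ^ j ∣ a then N - N / q else 0) else
      2 * (N / q ^ j)) = (if q ^ j ∣ a then N - N / q else 0) +
        (if ¬ q ∣ a then 2 * (N / q ^ j) else 0) := by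
    intro a _
    by_cases h1 : q ∣ a
    · rw [if_pos h1, if_neg (not_not.2 h1), add_zero]
    · have h2 : ¬ q ^ j ∣ a := fun h => h1 ((dvd_pow_self q hj.ne').trans h)
      rw [if_neg h1, if_neg h2, if_pos h1, zero_add]
  rw [sum_congr rfl e, sum_add_distrib, ← sum_filter, ← sum_filter, sum_const, sum_const,
    card_dvd hqj hN, card_ndvd hq.pos hqN, smul_eq_mul, smul_eq_mul]
  ring

/-- the local condition at the prime `q`: the exponent of `q` in `a b (a + b)` is `e + 1`, or
`0` or `1` if `e = 0`, and `q` does not divide both `a` and `b` -/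
def Lc (q e : ℕ) (p : ℕ × ℕ) : Prop :=
  ¬ (q ∣ p.1 ∧ q ∣ p.2) ∧ (0 < e → q ^ (e + 1) ∣ p.1 * p.2 * (p.1 + p.2)) ∧
    ¬ q ^ (e + 2) ∣ p.1 * p.2 * (p.1 + p.2)

instance (q e : ℕ) : DecidablePred (Lc q e) := fun _ => by unfold Lc; infer_instance

/-- the density of the local condition -/
noncomputable def dd (q e : ℕ) : ℝ :=
  if e = 0 then 1 - 4 / (q : ℝ) ^ 2 + 3 / (q : ℝ) ^ 3
  else 3 / (q : ℝ) ^ (e + 1) * (1 - 1 / (q : ℝ)) ^ 2

lemma card_nb {q N : ℕ} (hq : q.Prime) (hN : q ∣ N) :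
    ((range N ×ˢ range N).filter (fun p => ¬ (q ∣ p.1 ∧ q ∣ p.2))).card =
      N * N - (N / q) * (N / q) := by
  have h := card_filter_add_card_filter_not (s := range N ×ˢ range N)
    (fun p : ℕ × ℕ => q ∣ p.1 ∧ q ∣ p.2)
  have h2 : ((range N ×ˢ range N).filter (fun p : ℕ × ℕ => q ∣ p.1 ∧ q ∣ p.2)).card =
      (N / q) * (N / q) := by
    have : (range N ×ˢ range N).filter (fun p : ℕ × ℕ => q ∣ p.1 ∧ q ∣ p.2) =
        ((range N).filter (fun a => q ∣ a)) ×ˢ ((range N).filter (fun a => q ∣ a)) := by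
      rw [filter_product]
    rw [this, card_product, card_dvd hq.pos hN]
  rw [h2, card_product, card_range] at h
  omega

/-- **The local count.** -/
lemma card_Lc {q : ℕ} (hq : q.Prime) (e : ℕ) :
    (((range (q ^ (e + 2)) ×ˢ range (q ^ (e + 2))).filter (Lc q e)).card : ℝ) =
      dd q e * ((q ^ (e + 2) : ℕ) : ℝ) ^ 2 := by
  obtain ⟨N, hNd⟩ : ∃ N, N = q ^ (e + 2) := ⟨_, rfl⟩
  rw [← hNd]
  have hq0 : (q : ℝ) ≠ 0 := by exact_mod_cast hq.ne_zero
  have hN2 : q ^ (e + 2) ∣ N := by rw [hNd]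
  have hN1 : q ^ (e + 1) ∣ N := by rw [hNd]; exact pow_dvd_pow q (by omega)
  have hN0 : q ∣ N := by rw [hNd]; exact dvd_pow_self q (by omega)
  have hNr : (N : ℝ) = (q : ℝ) ^ (e + 2) := by rw [hNd]; push_cast; rfl
  have c2 := card_Ej hq (j := e + 2) (by omega) hN2
  have c1 := card_Ej hq (j := e + 1) (by omega) hN1
  have r0 : ((N / q : ℕ) : ℝ) = N / q := Nat.cast_div hN0 hq0
  have r1 : ((N / q ^ (e + 1) : ℕ) : ℝ) = N / (q : ℝ) ^ (e + 1) := by
    rw [Nat.cast_div hN1 (by push_cast; positivity)]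
    push_cast
    rfl
  have r2 : ((N / q ^ (e + 2) : ℕ) : ℝ) = N / (q : ℝ) ^ (e + 2) := by
    rw [Nat.cast_div hN2 (by push_cast; positivity)]
    push_cast
    rfl
  have hsub : ((N - N / q : ℕ) : ℝ) = N - N / q := by
    rw [Nat.cast_sub (Nat.div_le_self _ _), r0]
  have C2 : ((((range N ×ˢ range N).filter (Ej q (e + 2))).card : ℕ) : ℝ) =
      3 * (N / (q : ℝ) ^ (e + 2)) * (N - N / q) := by
    rw [c2]
    push_cast [r2, hsub]
    rfl
  have C1 : ((((range N ×ˢ range N).filter (Ej q (e + 1))).card : ℕ) : ℝ) =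
      3 * (N / (q : ℝ) ^ (e + 1)) * (N - N / q) := by
    rw [c1]
    push_cast [r1, hsub]
    rfl
  unfold dd
  split_ifs with he
  · subst he
    have c0 := card_nb hq hN0
    have hle : (N / q) * (N / q) ≤ N * N := Nat.mul_le_mul (Nat.div_le_self _ _)
      (Nat.div_le_self _ _)
    have C0 : ((((range N ×ˢ range N).filter (fun p => ¬ (q ∣ p.1 ∧ q ∣ p.2))).card : ℕ) : ℝ) =
        N * N - (N / q) * (N / q) := by
      rw [c0, Nat.cast_sub hle]
      push_cast [r0]
      rfl
    have hs : (range N ×ˢ range N).filter (Ej q 2) ⊆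
        (range N ×ˢ range N).filter (fun p => ¬ (q ∣ p.1 ∧ q ∣ p.2)) :=
      monotone_filter_right _ fun p _ hp => hp.1
    have heq : (range N ×ˢ range N).filter (Lc q 0) =
        (range N ×ˢ range N).filter (fun p => ¬ (q ∣ p.1 ∧ q ∣ p.2)) \
          (range N ×ˢ range N).filter (Ej q 2) := by
      ext p
      rw [Finset.mem_sdiff, mem_filter, mem_filter, mem_filter]
      unfold Lc Ej
      constructor
      · rintro ⟨h1, h2, -, h3⟩
        exact ⟨⟨h1, h2⟩, fun h => h3 h.2.2⟩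
      · rintro ⟨⟨h1, h2⟩, h3⟩
        exact ⟨h1, h2, fun h => absurd h (lt_irrefl 0), fun h => h3 ⟨h1, h2, h⟩⟩
    rw [heq, card_sdiff_of_subset hs, Nat.cast_sub (card_le_card hs), C0]
    have C2' : ((((range N ×ˢ range N).filter (Ej q 2)).card : ℕ) : ℝ) =
      3 * (N / (q : ℝ) ^ 2) * (N - N / q) := C2
    rw [C2']
    field_simp
    ring
  · have hs : (range N ×ˢ range N).filter (Ej q (e + 2)) ⊆
        (range N ×ˢ range N).filter (Ej q (e + 1)) :=
      monotone_filter_right _ fun p _ hp => ⟨hp.1, (pow_dvd_pow q (by omega)).trans hp.2⟩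
    have heq : (range N ×ˢ range N).filter (Lc q e) =
        (range N ×ˢ range N).filter (Ej q (e + 1)) \
          (range N ×ˢ range N).filter (Ej q (e + 2)) := by
      ext p
      rw [Finset.mem_sdiff, mem_filter, mem_filter, mem_filter]
      unfold Lc Ej
      constructor
      · rintro ⟨h1, h2, h3, h4⟩
        exact ⟨⟨h1, h2, h3 (by omega)⟩, fun h => h4 h.2.2⟩
      · rintro ⟨⟨h1, h2, h4⟩, h3⟩
        exact ⟨h1, h2, fun _ => h4, fun h => h3 ⟨h1, h2, h⟩⟩
    rw [heq, card_sdiff_of_subset hs, Nat.cast_sub (card_le_card hs), C1, C2]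
    have hpow : (q : ℝ) ^ (e + 2) = (q : ℝ) ^ (e + 1) * q := pow_succ _ _
    rw [hpow]
    field_simp

/-- the number of pairs of residues with a property -/
def cnt (Q : ℕ) (S : ℕ × ℕ → Prop) [DecidablePred S] : ℕ :=
  ((range Q ×ˢ range Q).filter S).card

/-- a property of the residues modulo `m` -/
def Per (m : ℕ) (S : ℕ × ℕ → Prop) : Prop :=
  ∀ p p' : ℕ × ℕ, p.1 % m = p'.1 % m → p.2 % m = p'.2 % m → S p → S p'

lemma Per_Lc (q e : ℕ) : Per (q ^ (e + 2)) (Lc q e) := by
  intro p p' h1 h2 h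
  obtain ⟨a1, a2, a3⟩ := h
  have key : ∀ {d x y : ℕ}, d ∣ q ^ (e + 2) → x ≡ y [MOD q ^ (e + 2)] → d ∣ x → d ∣ y := by
    intro d x y hd hxy hx
    have : x ≡ y [MOD d] := Nat.ModEq.of_dvd hd hxy
    exact (Nat.modEq_zero_iff_dvd.1 (this.symm.trans (Nat.modEq_zero_iff_dvd.2 hx)))
  have e1 : p.1 ≡ p'.1 [MOD q ^ (e + 2)] := h1
  have e2 : p.2 ≡ p'.2 [MOD q ^ (e + 2)] := h2
  have e3 : p.1 * p.2 * (p.1 + p.2) ≡ p'.1 * p'.2 * (p'.1 + p'.2) [MOD q ^ (e + 2)] :=
    (e1.mul e2).mul (e1.add e2)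
  have hq1 : q ∣ q ^ (e + 2) := dvd_pow_self q (by omega)
  exact ⟨fun hc => a1 ⟨key hq1 e1.symm hc.1, key hq1 e2.symm hc.2⟩,
    fun he => key (pow_dvd_pow q (by omega)) e3 (a2 he),
    fun hc => a3 (key dvd_rfl e3.symm hc)⟩

/-- the Chinese remainder theorem for the counts -/
lemma cnt_mul {m n : ℕ} (hm : 0 < m) (hn : 0 < n) (hc : Nat.Coprime m n)
    {S1 S2 : ℕ × ℕ → Prop} [DecidablePred S1] [DecidablePred S2] (h1 : Per m S1) (h2 : Per n S2) :
    cnt (m * n) (fun p => S1 p ∧ S2 p) = cnt m S1 * cnt n S2 := by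
  unfold cnt
  rw [← card_product]
  refine card_bij (fun t _ => ((t.1 % m, t.2 % m), (t.1 % n, t.2 % n))) ?_ ?_ ?_
  · intro t ht
    rw [mem_filter] at ht
    obtain ⟨-, a1, a2⟩ := ht
    rw [mem_product, mem_filter, mem_filter, mem_product, mem_product]
    simp only [mem_range]
    refine ⟨⟨⟨Nat.mod_lt _ hm, Nat.mod_lt _ hm⟩, h1 t _ ?_ ?_ a1⟩,
      ⟨Nat.mod_lt _ hn, Nat.mod_lt _ hn⟩, h2 t _ ?_ ?_ a2⟩ <;> simp
  · intro t ht t' ht' h
    rw [mem_filter, mem_product, mem_range, mem_range] at ht ht'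
    simp only [Prod.mk.injEq] at h
    obtain ⟨⟨b1, b2⟩, b3, b4⟩ := h
    have k : ∀ {x y : ℕ}, x < m * n → y < m * n → x % m = y % m → x % n = y % n → x = y := by
      intro x y hx hy c1 c2
      have : x ≡ y [MOD m * n] := (Nat.modEq_and_modEq_iff_modEq_mul hc).1 ⟨c1, c2⟩
      exact Nat.ModEq.eq_of_lt_of_lt this hx hy
    exact Prod.ext (k ht.1.1 ht'.1.1 b1 b3) (k ht.1.2 ht'.1.2 b2 b4)
  · rintro ⟨s, s'⟩ hs
    rw [mem_product, mem_filter, mem_filter, mem_product, mem_product] at hs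
    simp only [mem_range] at hs
    obtain ⟨⟨⟨b1, b2⟩, b3⟩, ⟨b4, b5⟩, b6⟩ := hs
    obtain ⟨x, hx1, hx2⟩ := Nat.chineseRemainder hc s.1 s'.1
    obtain ⟨y, hy1, hy2⟩ := Nat.chineseRemainder hc s.2 s'.2
    have hmn : 0 < m * n := Nat.mul_pos hm hn
    have z1 : ∀ z : ℕ, z % (m * n) % m = z % m := fun z => Nat.mod_mul_right_mod _ _ _
    have z2 : ∀ z : ℕ, z % (m * n) % n = z % n := fun z => Nat.mod_mul_left_mod _ _ _
    have x1 : x % m = s.1 := by
      have h0 : x % m = s.1 % m := hx1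
      rwa [Nat.mod_eq_of_lt b1] at h0
    have x2 : x % n = s'.1 := by
      have h0 : x % n = s'.1 % n := hx2
      rwa [Nat.mod_eq_of_lt b4] at h0
    have y1 : y % m = s.2 := by
      have h0 : y % m = s.2 % m := hy1
      rwa [Nat.mod_eq_of_lt b2] at h0
    have y2 : y % n = s'.2 := by
      have h0 : y % n = s'.2 % n := hy2
      rwa [Nat.mod_eq_of_lt b5] at h0
    refine ⟨(x % (m * n), y % (m * n)), ?_, ?_⟩
    · rw [mem_filter, mem_product, mem_range, mem_range]
      refine ⟨⟨Nat.mod_lt _ hmn, Nat.mod_lt _ hmn⟩, h1 s _ ?_ ?_ b3, h2 s' _ ?_ ?_ b6⟩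
      · rw [z1, x1, Nat.mod_eq_of_lt b1]
      · rw [z1, y1, Nat.mod_eq_of_lt b2]
      · rw [z2, x2, Nat.mod_eq_of_lt b4]
      · rw [z2, y2, Nat.mod_eq_of_lt b5]
    · simp only
      rw [z1, z1, z2, z2, x1, x2, y1, y2]

/-- the modulus for a set of primes -/
def Qs (w : ℕ) (P : Finset ℕ) : ℕ := ∏ q ∈ P, q ^ (w.factorization q + 2)

/-- the local conditions at a set of primes -/
def Ls (w : ℕ) (P : Finset ℕ) (p : ℕ × ℕ) : Prop := ∀ q ∈ P, Lc q (w.factorization q) p

instance (w : ℕ) (P : Finset ℕ) : DecidablePred (Ls w P) := fun _ => by unfold Ls; infer_instance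

lemma Qs_pos {w : ℕ} {P : Finset ℕ} (hP : ∀ q ∈ P, q.Prime) : 0 < Qs w P :=
  Finset.prod_pos fun q hq => pow_pos (hP q hq).pos _

lemma Per_Ls (w : ℕ) (P : Finset ℕ) : Per (Qs w P) (Ls w P) := by
  intro p p' h1 h2 h q hq
  have hd : q ^ (w.factorization q + 2) ∣ Qs w P := dvd_prod_of_mem _ hq
  exact Per_Lc q _ p p' (Nat.ModEq.of_dvd hd h1) (Nat.ModEq.of_dvd hd h2) (h q hq)

/-- **The number of the classes.** -/
theorem card_Ls (w : ℕ) {P : Finset ℕ} (hP : ∀ q ∈ P, q.Prime) :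
    (cnt (Qs w P) (Ls w P) : ℝ) = (∏ q ∈ P, dd q (w.factorization q)) * (Qs w P : ℝ) ^ 2 := by
  induction P using Finset.induction_on with
  | empty =>
    have : cnt (Qs w ∅) (Ls w ∅) = 1 := by
      unfold cnt Qs Ls
      simp
    rw [this]
    simp [Qs]
  | insert q P hq ih =>
    have hP' : ∀ q ∈ P, q.Prime := fun r hr => hP r (mem_insert_of_mem hr)
    have hqp : q.Prime := hP q (mem_insert_self q P)
    have hQ : Qs w (insert q P) = q ^ (w.factorization q + 2) * Qs w P := by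
      unfold Qs
      rw [prod_insert hq]
    have hc : Nat.Coprime (q ^ (w.factorization q + 2)) (Qs w P) := by
      unfold Qs
      refine Nat.Coprime.prod_right fun r hr => ?_
      refine Nat.Coprime.pow _ _ ((Nat.coprime_primes hqp (hP' r hr)).2 ?_)
      rintro rfl
      exact hq hr
    have h := cnt_mul (pow_pos hqp.pos (w.factorization q + 2)) (Qs_pos (w := w) hP') hc
      (Per_Lc q (w.factorization q)) (Per_Ls w P)
    have hS : cnt (Qs w (insert q P)) (Ls w (insert q P)) =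
        cnt (q ^ (w.factorization q + 2) * Qs w P)
          (fun p => Lc q (w.factorization q) p ∧ Ls w P p) := by
      unfold cnt
      rw [hQ]
      congr 1
      refine filter_congr fun p _ => ?_
      unfold Ls
      rw [forall_mem_insert]
    rw [hS, h, hQ, prod_insert hq]
    push_cast
    rw [ih hP']
    have := card_Lc hqp (w.factorization q)
    unfold cnt
    rw [this]
    push_cast
    ring

end Pool.Agent.V7H9.AL
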