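import Pool.Agent.V7H9.AL.Per

set_option autoImplicit false

/-!
# The effective count of the triples with a given repeated part
-/

namespace Pool.Agent.V7H9.AL

open Finset Filter Topology Pool.Agent.TH498.AR

/-- the primes up to `N` that do not divide `w` -/
def PPw (w N : ℕ) : Finset ℕ := (PP N).filter (fun q => ¬ q ∣ w)

/-- the density of the bad local behaviour -/
noncomputable def bet (q : ℕ) : ℝ := 1 - dd q 0

lemma bet_nonneg {q : ℕ} (hq : q.Prime) : 0 ≤ bet q := by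
  unfold bet
  linarith [dd_le_one hq 0]

lemma bet_le {q : ℕ} (hq : q.Prime) : bet q ≤ 4 / (q : ℝ) ^ 2 := by
  have h0 : (0 : ℝ) < q := by exact_mod_cast hq.pos
  unfold bet
  rw [dd_zero]
  have : 0 ≤ 3 / (q : ℝ) ^ 3 := by positivity
  linarith

/-- Rankin's trick -/
theorem rankin : ∃ C1 : ℝ, 0 < C1 ∧ ∀ (N : ℕ) (D : ℝ), 1 ≤ D →
    ∑ S ∈ (PP N).powerset with D < ((∏ q ∈ S, q : ℕ) : ℝ), ∏ q ∈ S, bet q ≤
      C1 * D ^ (-(1 / 2) : ℝ) := by
  classical
  obtain ⟨Z, hZ⟩ : ∃ Z : ℝ, Z = ∑' n : ℕ, ((n : ℝ) ^ ((3 : ℝ) / 2))⁻¹ := ⟨_, rfl⟩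
  have hsm : Summable fun n : ℕ => ((n : ℝ) ^ ((3 : ℝ) / 2))⁻¹ :=
    Real.summable_nat_rpow_inv.2 (by norm_num)
  refine ⟨Real.exp (4 * Z), Real.exp_pos _, fun N D hD => ?_⟩
  have hD0 : 0 < D := by linarith
  have hterm : ∀ S ∈ (PP N).powerset.filter (fun S => D < ((∏ q ∈ S, q : ℕ) : ℝ)),
      ∏ q ∈ S, bet q ≤ D ^ (-(1 / 2) : ℝ) * ∏ q ∈ S, ((q : ℝ) ^ ((1 : ℝ) / 2) * bet q) := by
    intro S hS
    obtain ⟨h1, h2⟩ := mem_filter.1 hS
    have hp : ∀ q ∈ S, q.Prime := fun q hq => PP_prime N q (mem_powerset.1 h1 hq)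
    have h3 : 0 ≤ ∏ q ∈ S, bet q := prod_nonneg fun q hq => bet_nonneg (hp q hq)
    rw [prod_mul_distrib]
    have h4 : ∏ q ∈ S, (q : ℝ) ^ ((1 : ℝ) / 2) = (((∏ q ∈ S, q : ℕ) : ℝ)) ^ ((1 : ℝ) / 2) := by
      push_cast
      rw [Real.finsetProd_rpow S (fun q => (q : ℝ)) (fun q _ => Nat.cast_nonneg q)]
    rw [h4, ← mul_assoc]
    have h5 : 1 ≤ D ^ (-(1 / 2) : ℝ) * (((∏ q ∈ S, q : ℕ) : ℝ)) ^ ((1 : ℝ) / 2) := by
      have h6 : D ^ ((1 : ℝ) / 2) ≤ (((∏ q ∈ S, q : ℕ) : ℝ)) ^ ((1 : ℝ) / 2) :=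
        Real.rpow_le_rpow hD0.le h2.le (by norm_num)
      have h7 : D ^ (-(1 / 2) : ℝ) * D ^ ((1 : ℝ) / 2) = 1 := by
        rw [← Real.rpow_add hD0]
        norm_num
      exact h7.symm.le.trans (mul_le_mul_of_nonneg_left h6 (Real.rpow_nonneg hD0.le _))
    nlinarith
  refine (sum_le_sum hterm).trans ?_
  rw [← mul_sum, mul_comm (Real.exp (4 * Z))]
  refine mul_le_mul_of_nonneg_left ?_ (Real.rpow_nonneg hD0.le _)
  have hnn : ∀ q ∈ PP N, 0 ≤ (q : ℝ) ^ ((1 : ℝ) / 2) * bet q := fun q hq =>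
    mul_nonneg (by positivity) (bet_nonneg (PP_prime N q hq))
  have h1 : ∑ S ∈ (PP N).powerset with D < ((∏ q ∈ S, q : ℕ) : ℝ),
      ∏ q ∈ S, ((q : ℝ) ^ ((1 : ℝ) / 2) * bet q) ≤
      ∑ S ∈ (PP N).powerset, ∏ q ∈ S, ((q : ℝ) ^ ((1 : ℝ) / 2) * bet q) := by
    refine sum_le_sum_of_subset_of_nonneg (filter_subset _ _) fun S hS _ => ?_
    exact prod_nonneg fun q hq => hnn q (mem_powerset.1 hS hq)
  refine h1.trans ?_
  rw [← prod_one_add]
  calc ∏ q ∈ PP N, (1 + (q : ℝ) ^ ((1 : ℝ) / 2) * bet q)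
      ≤ ∏ q ∈ PP N, Real.exp (4 * ((q : ℝ) ^ ((3 : ℝ) / 2))⁻¹) := by
        refine prod_le_prod (fun q hq => by have := hnn q hq; linarith) fun q hq => ?_
        have hqp := PP_prime N q hq
        have h0 : (0 : ℝ) < q := by exact_mod_cast hqp.pos
        have h2 : (q : ℝ) ^ ((1 : ℝ) / 2) * bet q ≤ 4 * ((q : ℝ) ^ ((3 : ℝ) / 2))⁻¹ := by
          have h3 : (q : ℝ) ^ ((1 : ℝ) / 2) * (4 / (q : ℝ) ^ 2) = 4 * ((q : ℝ) ^ ((3 : ℝ) / 2))⁻¹ := by
            rw [← Real.rpow_neg h0.le, ← Real.rpow_natCast, mul_div_assoc', mul_comm,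
              mul_div_assoc, ← Real.rpow_sub h0]
            norm_num
          rw [← h3]
          exact mul_le_mul_of_nonneg_left (bet_le hqp) (by positivity)
        have h4 := Real.add_one_le_exp (4 * ((q : ℝ) ^ ((3 : ℝ) / 2))⁻¹)
        linarith
    _ = Real.exp (∑ q ∈ PP N, 4 * ((q : ℝ) ^ ((3 : ℝ) / 2))⁻¹) := by rw [Real.exp_sum]
    _ ≤ Real.exp (4 * Z) := by
        refine Real.exp_le_exp.2 ?_
        rw [← mul_sum, hZ]
        exact mul_le_mul_of_nonneg_left (hsm.sum_le_tsum _ (fun n _ => by positivity))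
          (by norm_num)

lemma mem_PPw {w N q : ℕ} : q ∈ PPw w N ↔ (q ≤ N ∧ q.Prime) ∧ ¬ q ∣ w := by
  unfold PPw
  rw [mem_filter, mem_PP]

lemma PPw_sub (w N : ℕ) : PPw w N ⊆ PP N := filter_subset _ _

/-- the densities at the primes dividing `w` -/
noncomputable def Aw (w : ℕ) : ℝ := ∏ q ∈ w.primeFactors, dd q (w.factorization q)

lemma Aw_nonneg (w : ℕ) : 0 ≤ Aw w :=
  prod_nonneg fun q hq => dd_nonneg (Nat.prime_of_mem_primeFactors hq) _

lemma Aw_le_one (w : ℕ) : Aw w ≤ 1 :=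
  prod_le_one (fun q hq => dd_nonneg (Nat.prime_of_mem_primeFactors hq) _)
    (fun q hq => dd_le_one (Nat.prime_of_mem_primeFactors hq) _)

lemma PP_split {w : ℕ} (hw : 0 < w) {N : ℕ} (hN : w ≤ N) :
    Disjoint w.primeFactors (PPw w N) ∧ PP N = w.primeFactors ∪ PPw w N := by
  constructor
  · rw [disjoint_left]
    intro q hq hq'
    exact (mem_PPw.1 hq').2 (Nat.dvd_of_mem_primeFactors hq)
  · ext q
    rw [mem_union, mem_PPw, mem_PP, Nat.mem_primeFactors]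
    constructor
    · rintro ⟨h1, h2⟩
      by_cases h : q ∣ w
      · exact Or.inl ⟨h2, h, hw.ne'⟩
      · exact Or.inr ⟨⟨h1, h2⟩, h⟩
    · rintro (⟨h1, h2, -⟩ | ⟨h1, -⟩)
      · exact ⟨(Nat.le_of_dvd hw h2).trans hN, h1⟩
      · exact h1

lemma Dw_split {w : ℕ} (hw : 0 < w) {N : ℕ} (hN : w ≤ N) :
    Dw w N = Aw w * ∏ q ∈ PPw w N, (1 - bet q) := by
  obtain ⟨h1, h2⟩ := PP_split hw hN
  unfold Dw Aw
  rw [h2, prod_union h1]
  congr 1
  refine prod_congr rfl fun q hq => ?_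
  have : w.factorization q = 0 := Nat.factorization_eq_zero_of_not_dvd (mem_PPw.1 hq).2
  rw [this]
  unfold bet
  ring

/-- the truncated singular series -/
noncomputable def TS0 (w D : ℕ) : ℝ :=
  ∑ S ∈ (PPw w D).powerset with ((∏ q ∈ S, q : ℕ) : ℝ) ≤ D, (-1 : ℝ) ^ S.card * ∏ q ∈ S, bet q

theorem TS0_approx : ∃ C1 : ℝ, 0 < C1 ∧
    (∀ (N : ℕ) (D : ℝ), 1 ≤ D →
    ∑ S ∈ (PP N).powerset with D < ((∏ q ∈ S, q : ℕ) : ℝ), ∏ q ∈ S, bet q ≤
      C1 * D ^ (-(1 / 2) : ℝ)) ∧ ∀ (w D : ℕ), 0 < w → 1 ≤ D →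
    |Aw w * TS0 w D - C0 * wt w| ≤ C1 * (D : ℝ) ^ (-(1 / 2) : ℝ) := by
  classical
  obtain ⟨C1, hC1, hR⟩ := rankin
  refine ⟨C1, hC1, hR, fun w D hw hD => ?_⟩
  have hD1 : (1 : ℝ) ≤ D := by exact_mod_cast hD
  have hlim := (((Dw_tendsto hw).const_sub (Aw w * TS0 w D))).abs
  refine le_of_tendsto hlim ?_
  filter_upwards [eventually_ge_atTop (max w D)] with N hN
  have hwN : w ≤ N := (le_max_left _ _).trans hN
  have hDN : D ≤ N := (le_max_right _ _).trans hN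
  rw [Dw_split hw hwN, ← mul_sub, abs_mul, abs_of_nonneg (Aw_nonneg w)]
  have e1 : ∏ q ∈ PPw w N, (1 - bet q) =
      ∑ S ∈ (PPw w N).powerset, (-1 : ℝ) ^ S.card * ∏ q ∈ S, bet q := by
    have : ∏ q ∈ PPw w N, (1 - bet q) = ∏ q ∈ PPw w N, (1 + (-bet q)) := by
      refine prod_congr rfl fun q _ => by ring
    rw [this, prod_one_add]
    refine sum_congr rfl fun S _ => ?_
    rw [prod_neg]
  have e2 : TS0 w D = ∑ S ∈ (PPw w N).powerset with ((∏ q ∈ S, q : ℕ) : ℝ) ≤ D,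
      (-1 : ℝ) ^ S.card * ∏ q ∈ S, bet q := by
    unfold TS0
    refine sum_congr ?_ fun _ _ => rfl
    ext S
    rw [mem_filter, mem_filter, mem_powerset, mem_powerset]
    constructor
    · rintro ⟨h1, h2⟩
      refine ⟨fun q hq => ?_, h2⟩
      have := mem_PPw.1 (h1 hq)
      exact mem_PPw.2 ⟨⟨this.1.1.trans hDN, this.1.2⟩, this.2⟩
    · rintro ⟨h1, h2⟩
      refine ⟨fun q hq => ?_, h2⟩
      have h3 := mem_PPw.1 (h1 hq)
      have h4 : q ∣ ∏ q ∈ S, q := dvd_prod_of_mem _ hq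
      have h5 : 0 < ∏ q ∈ S, q := Finset.prod_pos fun r hr => (mem_PPw.1 (h1 hr)).1.2.pos
      have h6 := Nat.le_of_dvd h5 h4
      have h7 : ∏ q ∈ S, q ≤ D := by exact_mod_cast h2
      exact mem_PPw.2 ⟨⟨h6.trans h7, h3.1.2⟩, h3.2⟩
  rw [e1, e2, ← sum_filter_add_sum_filter_not (PPw w N).powerset
    (fun S => ((∏ q ∈ S, q : ℕ) : ℝ) ≤ D), sub_add_eq_sub_sub, sub_self, zero_sub, abs_neg]
  have h1 : |∑ S ∈ (PPw w N).powerset with ¬ ((∏ q ∈ S, q : ℕ) : ℝ) ≤ D,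
      (-1 : ℝ) ^ S.card * ∏ q ∈ S, bet q| ≤ C1 * (D : ℝ) ^ (-(1 / 2) : ℝ) := by
    refine (abs_sum_le_sum_abs _ _).trans ?_
    refine le_trans ?_ (hR N D hD1)
    have h2 : ∀ S ∈ (PPw w N).powerset.filter (fun S => ¬ ((∏ q ∈ S, q : ℕ) : ℝ) ≤ D),
        |(-1 : ℝ) ^ S.card * ∏ q ∈ S, bet q| = ∏ q ∈ S, bet q := by
      intro S hS
      have h3 := mem_powerset.1 (mem_filter.1 hS).1
      rw [abs_mul, abs_pow, abs_neg, abs_one, one_pow, one_mul, abs_of_nonneg]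
      exact prod_nonneg fun q hq => bet_nonneg (mem_PPw.1 (h3 hq)).1.2
    rw [sum_congr rfl h2]
    refine sum_le_sum_of_subset_of_nonneg ?_ fun S hS _ => ?_
    · intro S hS
      obtain ⟨h3, h4⟩ := mem_filter.1 hS
      exact mem_filter.2 ⟨mem_powerset.2 ((mem_powerset.1 h3).trans (PPw_sub w N)), not_le.1 h4⟩
    · have h3 := mem_powerset.1 (mem_filter.1 hS).1
      exact prod_nonneg fun q hq => bet_nonneg (PP_prime N q (h3 hq))
  calc Aw w * |∑ S ∈ (PPw w N).powerset with ¬ ((∏ q ∈ S, q : ℕ) : ℝ) ≤ D,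
      (-1 : ℝ) ^ S.card * ∏ q ∈ S, bet q| ≤ 1 * (C1 * (D : ℝ) ^ (-(1 / 2) : ℝ)) :=
        mul_le_mul (Aw_le_one w) h1 (abs_nonneg _) zero_le_one
    _ = _ := one_mul _

/-- the sets of primes with bounded product -/
lemma card_sets {w N M : ℕ} :
    (((PPw w N).powerset.filter (fun S => ((∏ q ∈ S, q : ℕ) : ℝ) ≤ M)).card : ℝ) ≤ M := by
  classical
  have : ((PPw w N).powerset.filter (fun S => ((∏ q ∈ S, q : ℕ) : ℝ) ≤ M)).card ≤ (Icc 1 M).card := by
    refine card_le_card_of_injOn (fun S => ∏ q ∈ S, q) ?_ ?_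
    · intro S hS
      rw [mem_coe, mem_filter, mem_powerset] at hS
      rw [mem_coe, mem_Icc]
      refine ⟨Nat.succ_le_of_lt (Finset.prod_pos fun r hr => (mem_PPw.1 (hS.1 hr)).1.2.pos), ?_⟩
      exact_mod_cast hS.2
    · intro S hS S' hS' h
      rw [mem_coe, mem_filter, mem_powerset] at hS hS'
      have h1 := Nat.primeFactors_prod (s := S) (fun q hq => (mem_PPw.1 (hS.1 hq)).1.2)
      have h2 := Nat.primeFactors_prod (s := S') (fun q hq => (mem_PPw.1 (hS'.1 hq)).1.2)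
      simp only at h
      rw [← h1, ← h2, h]
  rw [Nat.card_Icc] at this
  have h2 : ((PPw w N).powerset.filter (fun S => ((∏ q ∈ S, q : ℕ) : ℝ) ≤ M)).card ≤ M := by omega
  exact_mod_cast h2

/-- the joint local conditions -/
def Tw (w : ℕ) (S : Finset ℕ) (p : ℕ × ℕ) : Prop :=
  (∀ q ∈ w.primeFactors, Lc q (w.factorization q) p) ∧ ∀ q ∈ S, Bd q p

lemma Qw_le {w : ℕ} (hw : 0 < w) : ∏ q ∈ w.primeFactors, q ^ (w.factorization q + 2) ≤ w ^ 3 := by
  have h1 : ∏ q ∈ w.primeFactors, q ^ (w.factorization q + 2) ≤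
      ∏ q ∈ w.primeFactors, (q ^ w.factorization q) ^ 3 := by
    refine Finset.prod_le_prod' fun q hq => ?_
    rw [← pow_mul]
    refine Nat.pow_le_pow_right (Nat.prime_of_mem_primeFactors hq).pos ?_
    have := (Nat.prime_of_mem_primeFactors hq).factorization_pos_of_dvd hw.ne'
      (Nat.dvd_of_mem_primeFactors hq)
    omega
  rw [prod_pow] at h1
  have h2 := Nat.prod_factorization_pow_eq_self hw.ne'
  have h3 : ∏ q ∈ w.primeFactors, q ^ w.factorization q = w := by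
    conv_rhs => rw [← h2]
    rw [Finsupp.prod, Nat.support_factorization]
  rw [h3] at h1
  exact h1

/-- the count with the joint local conditions -/
theorem Tw_count {w : ℕ} (hw : 0 < w) {l : ℝ} (hl : 0 < l) (hl1 : l ≤ 1) {η : ℝ} (hη : 0 < η)
    (hη1 : η ≤ 1) {N : ℕ} {S : Finset ℕ} (hS : S ⊆ PPw w N) {x : ℝ} (hx : 1 ≤ x) :
    |(({p | p ∈ Rg l η x ∧ Tw w S p} : Set (ℕ × ℕ)).ncard : ℝ) -
      J l η * (Aw w * ∏ q ∈ S, bet q) * x ^ 2| ≤
      (w : ℝ) ^ 6 * (((∏ q ∈ S, q : ℕ) : ℝ)) ^ 4 * (8 + 4 * Ph l η) * x := by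
  classical
  have hPh := Ph_nonneg l η
  have hx0 : 0 < x := by linarith
  obtain ⟨P, hPd⟩ : ∃ P : Finset ℕ, P = w.primeFactors ∪ S := ⟨_, rfl⟩
  have hdisj : Disjoint w.primeFactors S := by
    rw [disjoint_left]
    intro q hq hq'
    exact (mem_PPw.1 (hS hq')).2 (Nat.dvd_of_mem_primeFactors hq)
  have hP : ∀ q ∈ P, q.Prime := by
    intro q hq
    rw [hPd, mem_union] at hq
    rcases hq with h | h
    · exact Nat.prime_of_mem_primeFactors h
    · exact (mem_PPw.1 (hS h)).1.2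
  have hnot : ∀ q ∈ w.primeFactors, q ∉ S := fun q hq => disjoint_left.1 hdisj hq
  let k : ℕ → ℕ := fun q => if q ∈ S then 2 else w.factorization q + 2
  let Sq : ℕ → ℕ × ℕ → Prop := fun q p => if q ∈ S then Bd q p else Lc q (w.factorization q) p
  let δ : ℕ → ℝ := fun q => if q ∈ S then bet q else dd q (w.factorization q)
  haveI : ∀ q, DecidablePred (Sq q) := fun q p => by
    simp only [Sq]
    infer_instance
  have h1 : ∀ q ∈ P, Per (q ^ k q) (Sq q) := by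
    intro q hq
    by_cases h : q ∈ S
    · have e1 : k q = 2 := by simp only [k]; rw [if_pos h]
      have e2 : Sq q = Bd q := by funext p; simp only [Sq]; rw [if_pos h]
      rw [e1, e2]
      exact Per_Bd q
    · have e1 : k q = w.factorization q + 2 := by simp only [k]; rw [if_neg h]
      have e2 : Sq q = Lc q (w.factorization q) := by funext p; simp only [Sq]; rw [if_neg h]
      rw [e1, e2]
      exact Per_Lc q _
  have h2 : ∀ q ∈ P, (cnt (q ^ k q) (Sq q) : ℝ) = δ q * ((q ^ k q : ℕ) : ℝ) ^ 2 := by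
    intro q hq
    by_cases h : q ∈ S
    · have e1 : k q = 2 := by simp only [k]; rw [if_pos h]
      have e3 : δ q = bet q := by simp only [δ]; rw [if_pos h]
      have e4 : cnt (q ^ k q) (Sq q) = cnt (q ^ 2) (Bd q) := by
        unfold cnt
        rw [e1]
        congr 1
        refine filter_congr fun p _ => ?_
        simp only [Sq]
        rw [if_pos h]
      rw [e4, e3, e1]
      exact cnt_Bd (hP q hq)
    · have e1 : k q = w.factorization q + 2 := by simp only [k]; rw [if_neg h]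
      have e3 : δ q = dd q (w.factorization q) := by simp only [δ]; rw [if_neg h]
      have e4 : cnt (q ^ k q) (Sq q) =
          cnt (q ^ (w.factorization q + 2)) (Lc q (w.factorization q)) := by
        unfold cnt
        rw [e1]
        congr 1
        refine filter_congr fun p _ => ?_
        simp only [Sq]
        rw [if_neg h]
      rw [e4, e3, e1]
      exact card_Lc (hP q hq) _
  obtain ⟨g1, g2⟩ := cnt_prod hP k Sq δ h1 h2
  obtain ⟨Q, hQ⟩ : ∃ Q : ℕ, Q = ∏ q ∈ P, q ^ k q := ⟨_, rfl⟩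
  have hQ0 : 0 < Q := by
    rw [hQ]
    exact Finset.prod_pos fun q hq => pow_pos (hP q hq).pos _
  have hQr : (0 : ℝ) < Q := by exact_mod_cast hQ0
  rw [← hQ] at g1 g2
  have g3 := per_count hl hl1 hη hη1 hQ0 g1 hx
  have hprod : ∏ q ∈ P, δ q = Aw w * ∏ q ∈ S, bet q := by
    rw [hPd, prod_union hdisj]
    unfold Aw
    congr 1
    · refine prod_congr rfl fun q hq => ?_
      simp only [δ]
      rw [if_neg (hnot q hq)]
    · refine prod_congr rfl fun q hq => ?_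
      simp only [δ]
      rw [if_pos hq]
  rw [g2, hprod, mul_div_assoc, div_self (by positivity), mul_one] at g3
  have hset : ({p | p ∈ Rg l η x ∧ Tw w S p} : Set (ℕ × ℕ)) =
      {p | p ∈ Rg l η x ∧ ∀ q ∈ P, Sq q p} := by
    ext p
    rw [Set.mem_ofPred_eq, Set.mem_ofPred_eq]
    refine and_congr_right fun _ => ?_
    unfold Tw
    rw [hPd]
    constructor
    · rintro ⟨k1, k2⟩ q hq
      rcases mem_union.1 hq with h | h
      · simp only [Sq]
        rw [if_neg (hnot q h)]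
        exact k1 q h
      · simp only [Sq]
        rw [if_pos h]
        exact k2 q h
    · intro h
      refine ⟨fun q hq => ?_, fun q hq => ?_⟩
      · have := h q (mem_union_left _ hq)
        simp only [Sq] at this
        rwa [if_neg (hnot q hq)] at this
      · have := h q (mem_union_right _ hq)
        simp only [Sq] at this
        rwa [if_pos hq] at this
  rw [hset]
  refine g3.trans ?_
  have hQle : Q ≤ w ^ 3 * (∏ q ∈ S, q) ^ 2 := by
    rw [hQ, hPd, prod_union hdisj]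
    refine Nat.mul_le_mul ?_ ?_
    · refine le_trans (le_of_eq ?_) (Qw_le hw)
      refine prod_congr rfl fun q hq => ?_
      simp only [k]
      rw [if_neg (hnot q hq)]
    · rw [← prod_pow]
      refine le_of_eq (prod_congr rfl fun q hq => ?_)
      simp only [k]
      rw [if_pos hq]
  have hQle' : (Q : ℝ) ≤ (w : ℝ) ^ 3 * (((∏ q ∈ S, q : ℕ) : ℝ)) ^ 2 := by exact_mod_cast hQle
  have h5 : (Q : ℝ) ^ 2 ≤ (w : ℝ) ^ 6 * (((∏ q ∈ S, q : ℕ) : ℝ)) ^ 4 := by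
    calc (Q : ℝ) ^ 2 ≤ ((w : ℝ) ^ 3 * (((∏ q ∈ S, q : ℕ) : ℝ)) ^ 2) ^ 2 :=
          pow_le_pow_left₀ hQr.le hQle' 2
      _ = _ := by ring
  exact mul_le_mul_of_nonneg_right (mul_le_mul_of_nonneg_right h5 (by positivity)) hx0.le

end Pool.Agent.V7H9.AL
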