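import Pool.Agent.V7H9.AL.Wts
import Pool.Agent.TH498.AR.Fin
import Pool.Agent.Y911.AA.Main

set_option autoImplicit false

/-!
# The joint law of the repeated part and the direction of the abc triples ordered by radical
-/

namespace Pool.Agent.V7H9.AL

open Finset Filter Topology Pool.Agent.TH498.AR
open Pool.Agent.Results.MP_1ea25c_nt.AlmostAllTriples (triples rad3)

lemma Ar_zero : Ar 0 = 0 := by
  unfold Ar
  rw [intervalIntegral.integral_same, mul_zero]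

lemma Ar_mono {l l' : ℝ} (hl : 0 ≤ l) (h : l ≤ l') : Ar l ≤ Ar l' := by
  have e := intervalIntegral.integral_add_adjacent_intervals (Ar_int le_rfl hl)
    (Ar_int hl (hl.trans h))
  have h2 : 0 ≤ ∫ u in l..l', (u * (1 + u)) ^ (-(2 / 3) : ℝ) := by
    refine intervalIntegral.integral_nonneg h fun u hu => ?_
    have := hl.trans hu.1
    positivity
  unfold Ar
  linarith

lemma Ar_nonneg {l : ℝ} (hl : 0 ≤ l) : 0 ≤ Ar l := by
  rw [← Ar_zero]
  exact Ar_mono le_rfl hl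

lemma Ar_one_pos : 0 < Ar 1 := by
  unfold Ar
  have h : 0 < ∫ v in (0 : ℝ)..1, (v * (1 + v)) ^ (-(2 / 3) : ℝ) := by
    refine intervalIntegral.intervalIntegral_pos_of_pos_on (Ar_int le_rfl zero_le_one) ?_ one_pos
    intro v hv
    have := hv.1
    positivity
  linarith

lemma Nl_lim {w : ℕ} (hw : 0 < w) {l : ℝ} (hl : 0 ≤ l) (hl1 : l ≤ 1) :
    Tendsto (fun x : ℝ => ((Nl l w x).ncard : ℝ) / x ^ 2) atTop (𝓝 (Ar l * (C0 * wt w))) := by
  rcases eq_or_lt_of_le hl with h | h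
  · have : ∀ x : ℝ, Nl l w x = ∅ := by
      intro x
      rw [Set.eq_empty_iff_forall_notMem]
      rintro p ⟨a1, -, a2, -⟩
      rw [← h, zero_mul] at a2
      have : (0 : ℝ) < p.1 := by exact_mod_cast a1
      linarith
    simp only [this, Set.ncard_empty, Nat.cast_zero, zero_div]
    rw [← h, Ar_zero, zero_mul]
    exact tendsto_const_nhds
  · exact Nl_limit hw h hl1 (Dw_tendsto hw)

/-- the triples with repeated part at most `W` and direction at most `l` -/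
def SL (l : ℕ → ℝ) (W : ℕ) (X : ℝ) : Set (ℕ × ℕ) :=
  {p | 0 < p.1 ∧ p.1 ≤ p.2 ∧ Nat.Coprime p.1 p.2 ∧ (rd (p.1 * p.2 * (p.1 + p.2)) : ℝ) ≤ X ∧
    psi3 ∅ p ≤ W ∧ (p.1 : ℝ) ≤ l (psi3 ∅ p) * p.2}

/-- the triples with bounded repeated part -/
theorem SL_limit {l : ℕ → ℝ} (hl : ∀ w, 0 ≤ l w ∧ l w ≤ 1) (W : ℕ) :
    Tendsto (fun X : ℝ => ((SL l W X).ncard : ℝ) / X ^ ((2 : ℝ) / 3)) atTop
      (𝓝 (∑ w ∈ Icc 1 W, C0 * wgt w * Ar (l w))) := by
  classical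
  have hlim : Tendsto (fun X : ℝ => ∑ w ∈ Icc 1 W,
      ((Nl (l w) w (((w : ℝ) * X) ^ ((1 : ℝ) / 3))).ncard : ℝ) /
        (((w : ℝ) * X) ^ ((1 : ℝ) / 3)) ^ 2 * (w : ℝ) ^ ((2 : ℝ) / 3)) atTop
      (𝓝 (∑ w ∈ Icc 1 W, C0 * wgt w * Ar (l w))) := by
    refine tendsto_finsetSum _ fun w hw => ?_
    have hw0 : 0 < w := (mem_Icc.1 hw).1
    have e : C0 * wgt w * Ar (l w) = Ar (l w) * (C0 * wt w) * (w : ℝ) ^ ((2 : ℝ) / 3) := by
      rw [← wgt_eq hw0]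
      ring
    rw [e]
    refine Tendsto.mul_const _ ((Nl_lim hw0 (hl w).1 (hl w).2).comp ?_)
    refine (tendsto_rpow_atTop (by norm_num)).comp ?_
    exact tendsto_id.const_mul_atTop (by exact_mod_cast hw0)
  refine hlim.congr' ?_
  filter_upwards [eventually_gt_atTop 0] with X hX
  -- the union
  have hNfin : ∀ w : ℕ, (Nl (l w) w (((w : ℝ) * X) ^ ((1 : ℝ) / 3))).Finite :=
    fun w => Nl_finite _ _ _
  have hset : SL l W X = (((Icc 1 W).biUnion (fun w => (hNfin w).toFinset) : Finset (ℕ × ℕ)) :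
      Set (ℕ × ℕ)) := by
    ext p
    rw [mem_coe, mem_biUnion]
    constructor
    · rintro ⟨a1, a2, a3, a4, a5, a6⟩
      refine ⟨psi3 ∅ p, mem_Icc.2 ⟨psi3_pos a1 (by omega), a5⟩, ?_⟩
      rw [Set.Finite.mem_toFinset]
      exact ⟨a1, a2, a6, a3, rfl, (rd_le_iff a1 (by omega) a3 hX).1 a4⟩
    · rintro ⟨w, hw, hp⟩
      rw [Set.Finite.mem_toFinset] at hp
      obtain ⟨a1, a2, a2', a3, a4, a5⟩ := hp
      refine ⟨a1, a2, a3, ?_, ?_, ?_⟩
      · rw [rd_le_iff a1 (by omega) a3 hX, a4]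
        exact a5
      · rw [a4]
        exact (mem_Icc.1 hw).2
      · rw [a4]
        exact a2'
  have hcard : ((SL l W X).ncard : ℝ) =
      ∑ w ∈ Icc 1 W, ((Nl (l w) w (((w : ℝ) * X) ^ ((1 : ℝ) / 3))).ncard : ℝ) := by
    rw [hset, Set.ncard_coe_finset, card_biUnion]
    · push_cast
      refine sum_congr rfl fun w _ => ?_
      exact_mod_cast (Set.ncard_eq_toFinset_card _ (hNfin w)).symm
    · intro w _ w' _ hne
      rw [Function.onFun, disjoint_left]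
      intro p hp hp'
      rw [Set.Finite.mem_toFinset] at hp hp'
      exact hne (hp.2.2.2.2.1.symm.trans hp'.2.2.2.2.1)
  rw [hcard, sum_div]
  refine sum_congr rfl fun w hw => ?_
  have hw0 : (0 : ℝ) < w := by exact_mod_cast (mem_Icc.1 hw).1
  have e : (((w : ℝ) * X) ^ ((1 : ℝ) / 3)) ^ 2 = (w : ℝ) ^ ((2 : ℝ) / 3) * X ^ ((2 : ℝ) / 3) := by
    rw [← Real.rpow_natCast, ← Real.rpow_mul (by positivity), Real.mul_rpow hw0.le hX.le]
    norm_num
  rw [e]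
  have h1 : (w : ℝ) ^ ((2 : ℝ) / 3) ≠ 0 := by positivity
  have h2 : X ^ ((2 : ℝ) / 3) ≠ 0 := by positivity
  field_simp

lemma rad3_eq (p : ℕ × ℕ) : rad3 p = rd (p.1 * p.2 * (p.1 + p.2)) := rfl

/-- **The tail**, for all heights. -/
theorem tail_all : ∃ C ν : ℝ, 0 < C ∧ 0 < ν ∧ ∀ (W : ℕ) (X : ℝ), 1 ≤ W → 1 ≤ X →
    (({p | p ∈ triples X ∧ W < psi3 ∅ p} : Set (ℕ × ℕ)).ncard : ℝ) ≤
      C * ((W : ℝ) ^ (-(1 / 10) : ℝ) * X ^ ((2 : ℝ) / 3) + X ^ (2 / 3 - ν)) := by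
  classical
  obtain ⟨C1, hC1, htail⟩ := tail 1
  obtain ⟨ν2, C2, hν2, hν2', hC2, h2⟩ := Pool.Agent.Y911.AA.saving (ε := 2 / 3) (by norm_num)
  refine ⟨C1 + C2, min (1 / 480) ν2, by positivity, lt_min (by norm_num) hν2,
    fun W X hW hX => ?_⟩
  have hX0 : 0 < X := by linarith
  have hfin := Pool.Agent.Y911.AA.triples_finite' X
  obtain ⟨S, hS⟩ : ∃ S : Set (ℕ × ℕ), S = {p | p ∈ triples X ∧ W < psi3 ∅ p} := ⟨_, rfl⟩
  rw [← hS]
  have hSfin : S.Finite := by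
    rw [hS]
    exact hfin.subset fun p hp => hp.1
  set E : Finset (ℕ × ℕ) := hSfin.toFinset.filter (fun p => ((p.1 + p.2 : ℕ) : ℝ) ≤ X) with hE
  have hEc : (E.card : ℝ) ≤ C1 * ((W : ℝ) ^ (-(1 / 10) : ℝ) * X ^ ((2 : ℝ) / 3) +
      X ^ (2 / 3 - 1 / 480 : ℝ)) := by
    refine htail X W hX (by exact_mod_cast hW) E fun p hp => ?_
    obtain ⟨hp1, hp2⟩ := mem_filter.1 hp
    rw [Set.Finite.mem_toFinset, hS] at hp1
    obtain ⟨⟨a1, a2, a3, a4⟩, a5⟩ := hp1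
    refine ⟨a1, a2, a3, ?_, ?_, by exact_mod_cast a5.le⟩
    · rw [← rd_eq]
      exact a4
    · rw [Real.rpow_one]
      exact hp2
  have hsub : S ⊆ (E : Set (ℕ × ℕ)) ∪ Pool.Agent.Y911.AA.viol (1 / 3 + 2 / 3) X := by
    intro p hp
    by_cases h : ((p.1 + p.2 : ℕ) : ℝ) ≤ X
    · left
      rw [hE, mem_coe, mem_filter, Set.Finite.mem_toFinset]
      exact ⟨hp, h⟩
    · right
      rw [hS] at hp
      refine ⟨hp.1, ?_⟩
      push Not at h
      have h3 : (rad3 p : ℝ) ≤ X := hp.1.2.2.2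
      rw [show (1 : ℝ) / 3 + 2 / 3 = 1 by norm_num, Real.rpow_one]
      linarith
  have hvfin : (Pool.Agent.Y911.AA.viol (1 / 3 + 2 / 3) X).Finite := hfin.subset fun p hp => hp.1
  have h3 : S.ncard ≤ E.card + (Pool.Agent.Y911.AA.viol (1 / 3 + 2 / 3) X).ncard := by
    refine (Set.ncard_le_ncard hsub ((Finset.finite_toSet E).union hvfin)).trans ?_
    refine (Set.ncard_union_le _ _).trans ?_
    rw [Set.ncard_coe_finset]
  have h4 : (S.ncard : ℝ) ≤ E.card + (Pool.Agent.Y911.AA.viol (1 / 3 + 2 / 3) X).ncard := by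
    exact_mod_cast h3
  have h5 := h2 X hX
  have k1 : X ^ (2 / 3 - 1 / 480 : ℝ) ≤ X ^ (2 / 3 - min (1 / 480) ν2) :=
    Real.rpow_le_rpow_of_exponent_le hX (by linarith [min_le_left (1 / 480) ν2])
  have k2 : X ^ (2 / 3 - ν2) ≤ X ^ (2 / 3 - min (1 / 480) ν2) :=
    Real.rpow_le_rpow_of_exponent_le hX (by linarith [min_le_right (1 / 480) ν2])
  have k3 : 0 ≤ (W : ℝ) ^ (-(1 / 10) : ℝ) * X ^ ((2 : ℝ) / 3) := by positivity
  nlinarith [mul_le_mul_of_nonneg_left k1 hC1.le, mul_le_mul_of_nonneg_left k2 hC2.le,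
    mul_nonneg hC2.le k3]

/-- the number of all triples -/
noncomputable def κ : ℝ := Classical.choose Pool.Agent.Y911.AA.main

lemma κ_pos : 0 < κ := (Classical.choose_spec Pool.Agent.Y911.AA.main).1

lemma κ_lim : Tendsto (fun X : ℝ => ((triples X).ncard : ℝ) / X ^ ((2 : ℝ) / 3)) atTop (𝓝 κ) :=
  (Classical.choose_spec Pool.Agent.Y911.AA.main).2.1

lemma SL_sub (l : ℕ → ℝ) (W : ℕ) (X : ℝ) : SL l W X ⊆ triples X := by
  rintro p ⟨a1, a2, a3, a4, -, -⟩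
  exact ⟨a1, a2, a3, a4⟩

lemma wgt_summable : Summable wgt := by
  have hA := Ar_one_pos
  have hC := C0_pos
  refine summable_of_sum_range_le (c := κ / (C0 * Ar 1)) wgt_nonneg fun n => ?_
  have h1 := SL_limit (l := fun _ => 1) (fun _ => ⟨zero_le_one, le_rfl⟩) n
  have h2 : ∑ w ∈ Icc 1 n, C0 * wgt w * Ar 1 ≤ κ := by
    refine le_of_tendsto_of_tendsto h1 κ_lim ?_
    filter_upwards [eventually_gt_atTop 0] with X hX
    refine div_le_div_of_nonneg_right ?_ (by positivity)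
    exact_mod_cast Set.ncard_le_ncard (SL_sub _ _ _) (Pool.Agent.Y911.AA.triples_finite' X)
  rw [le_div_iff₀ (by positivity)]
  have h3 : ∑ i ∈ range n, wgt i ≤ ∑ w ∈ Icc 1 n, wgt w := by
    have h4 : ∑ i ∈ range n, wgt i ≤ ∑ i ∈ insert 0 (Icc 1 n), wgt i := by
      refine sum_le_sum_of_subset_of_nonneg ?_ fun i _ _ => wgt_nonneg i
      intro i hi
      rw [mem_range] at hi
      rw [mem_insert, mem_Icc]
      omega
    rw [sum_insert (by simp), wgt_zero, zero_add] at h4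
    exact h4
  have h5 : (∑ w ∈ Icc 1 n, wgt w) * (C0 * Ar 1) = ∑ w ∈ Icc 1 n, C0 * wgt w * Ar 1 := by
    rw [sum_mul]
    refine sum_congr rfl fun w _ => ?_
    ring
  rw [← h5] at h2
  exact (mul_le_mul_of_nonneg_right h3 (by positivity)).trans h2

lemma term_summable {l : ℕ → ℝ} (hl : ∀ w, 0 ≤ l w ∧ l w ≤ 1) :
    Summable (fun w => C0 * wgt w * Ar (l w)) := by
  have h : Summable (fun w => C0 * Ar 1 * wgt w) := wgt_summable.mul_left _
  refine Summable.of_nonneg_of_le (fun w => ?_) (fun w => ?_) h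
  · exact mul_nonneg (mul_nonneg C0_pos.le (wgt_nonneg w)) (Ar_nonneg (hl w).1)
  · have h1 := mul_le_mul_of_nonneg_left (Ar_mono (hl w).1 (hl w).2)
      (mul_nonneg C0_pos.le (wgt_nonneg w))
    linarith

/-- the triples with direction at most `l` -/
def TL (l : ℕ → ℝ) (X : ℝ) : Set (ℕ × ℕ) :=
  {p | p ∈ triples X ∧ (p.1 : ℝ) ≤ l (psi3 ∅ p) * p.2}

/-- **The joint law.** -/
theorem law {l : ℕ → ℝ} (hl : ∀ w, 0 ≤ l w ∧ l w ≤ 1) :
    Tendsto (fun X : ℝ => ((TL l X).ncard : ℝ) / X ^ ((2 : ℝ) / 3)) atTop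
      (𝓝 (∑' w : ℕ, C0 * wgt w * Ar (l w))) := by
  classical
  obtain ⟨S, hS⟩ : ∃ S : ℝ, S = ∑' w : ℕ, C0 * wgt w * Ar (l w) := ⟨_, rfl⟩
  rw [← hS, Metric.tendsto_nhds]
  intro ε hε
  obtain ⟨C, ν, hC, hν, htail⟩ := tail_all
  -- the choice of `W`
  obtain ⟨W, hW1, hW2, hW3⟩ : ∃ W : ℕ, 1 ≤ W ∧ C * (W : ℝ) ^ (-(1 / 10) : ℝ) ≤ ε / 5 ∧
      |∑ w ∈ Icc 1 W, C0 * wgt w * Ar (l w) - S| ≤ ε / 5 := by
    have h1 : Tendsto (fun W : ℕ => C * (W : ℝ) ^ (-(1 / 10) : ℝ)) atTop (𝓝 (C * 0)) :=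
      ((tendsto_rpow_neg_atTop (by norm_num : (0 : ℝ) < 1 / 10)).comp
        tendsto_natCast_atTop_atTop).const_mul C
    rw [mul_zero] at h1
    have h2 := h1.eventually (eventually_le_nhds (by positivity : (0 : ℝ) < ε / 5))
    have h3 : Tendsto (fun W : ℕ => ∑ w ∈ Icc 1 W, C0 * wgt w * Ar (l w)) atTop (𝓝 S) := by
      have h4 := (term_summable hl).hasSum.tendsto_sum_nat
      rw [← hS] at h4
      have h5 := h4.comp (tendsto_add_atTop_nat 1)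
      refine h5.congr fun n => ?_
      simp only [Function.comp]
      have e : range (n + 1) = insert 0 (Icc 1 n) := by
        ext i
        rw [mem_range, mem_insert, mem_Icc]
        omega
      rw [e, sum_insert (by simp), wgt_zero]
      ring
    have h6 := Metric.tendsto_nhds.1 h3 (ε / 5) (by positivity)
    obtain ⟨W, hW⟩ := (h2.and ((eventually_ge_atTop 1).and h6)).exists
    refine ⟨W, hW.2.1, hW.1, ?_⟩
    have := hW.2.2
    rw [Real.dist_eq] at this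
    exact this.le
  have h3 : Tendsto (fun X : ℝ => C * X ^ (-ν)) atTop (𝓝 (C * 0)) :=
    (tendsto_rpow_neg_atTop hν).const_mul C
  rw [mul_zero] at h3
  have h4 := h3.eventually (eventually_le_nhds (by positivity : (0 : ℝ) < ε / 5))
  have h5 := (Metric.tendsto_nhds.1 (SL_limit hl W)) (ε / 5) (by positivity)
  filter_upwards [h4, h5, eventually_ge_atTop 1] with X hX4 hX5 hX
  have hX0 : 0 < X := by linarith
  have hXp : 0 < X ^ ((2 : ℝ) / 3) := by positivity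
  have hfin := Pool.Agent.Y911.AA.triples_finite' X
  have hTfin : (TL l X).Finite := hfin.subset fun p hp => hp.1
  have hsub : SL l W X ⊆ TL l X := by
    rintro p ⟨a1, a2, a3, a4, a5, a6⟩
    exact ⟨⟨a1, a2, a3, a4⟩, a6⟩
  have hd : TL l X \ SL l W X ⊆ {p | p ∈ triples X ∧ W < psi3 ∅ p} := by
    rintro p ⟨⟨h1, h2⟩, h3⟩
    refine ⟨h1, ?_⟩
    by_contra hcon
    push Not at hcon
    exact h3 ⟨h1.1, h1.2.1, h1.2.2.1, h1.2.2.2, hcon, h2⟩
  have hdc : ((TL l X \ SL l W X).ncard : ℝ) ≤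
      C * ((W : ℝ) ^ (-(1 / 10) : ℝ) * X ^ ((2 : ℝ) / 3) + X ^ (2 / 3 - ν)) := by
    refine le_trans ?_ (htail W X hW1 hX)
    exact_mod_cast Set.ncard_le_ncard hd (hfin.subset fun p hp => hp.1)
  have hcount : ((TL l X).ncard : ℝ) = (SL l W X).ncard + (TL l X \ SL l W X).ncard := by
    have h7 := Set.ncard_sdiff_add_ncard_of_subset hsub hTfin
    have : (TL l X).ncard = (SL l W X).ncard + (TL l X \ SL l W X).ncard := by omega
    exact_mod_cast this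
  rw [Real.dist_eq] at hX5 ⊢
  have e1 : ((TL l X).ncard : ℝ) / X ^ ((2 : ℝ) / 3) - S =
      (((SL l W X).ncard : ℝ) / X ^ ((2 : ℝ) / 3) - ∑ w ∈ Icc 1 W, C0 * wgt w * Ar (l w)) +
        (∑ w ∈ Icc 1 W, C0 * wgt w * Ar (l w) - S) +
        ((TL l X \ SL l W X).ncard : ℝ) / X ^ ((2 : ℝ) / 3) := by
    rw [hcount]
    ring
  have e2 : ((TL l X \ SL l W X).ncard : ℝ) / X ^ ((2 : ℝ) / 3) ≤ ε / 5 + ε / 5 := by
    rw [div_le_iff₀ hXp]
    have e3 : X ^ (2 / 3 - ν) = X ^ (-ν) * X ^ ((2 : ℝ) / 3) := by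
      rw [← Real.rpow_add hX0]
      congr 1
      ring
    rw [e3] at hdc
    calc ((TL l X \ SL l W X).ncard : ℝ) ≤ C * ((W : ℝ) ^ (-(1 / 10) : ℝ) * X ^ ((2 : ℝ) / 3) +
          X ^ (-ν) * X ^ ((2 : ℝ) / 3)) := hdc
      _ = (C * (W : ℝ) ^ (-(1 / 10) : ℝ) + C * X ^ (-ν)) * X ^ ((2 : ℝ) / 3) := by ring
      _ ≤ (ε / 5 + ε / 5) * X ^ ((2 : ℝ) / 3) :=
          mul_le_mul_of_nonneg_right (add_le_add hW2 hX4) hXp.le
  have e4 : 0 ≤ ((TL l X \ SL l W X).ncard : ℝ) / X ^ ((2 : ℝ) / 3) := by positivity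
  rw [e1]
  have b1 := abs_add_le ((((SL l W X).ncard : ℝ) / X ^ ((2 : ℝ) / 3) -
    ∑ w ∈ Icc 1 W, C0 * wgt w * Ar (l w)) + (∑ w ∈ Icc 1 W, C0 * wgt w * Ar (l w) - S))
    (((TL l X \ SL l W X).ncard : ℝ) / X ^ ((2 : ℝ) / 3))
  have b2 := abs_add_le (((SL l W X).ncard : ℝ) / X ^ ((2 : ℝ) / 3) -
    ∑ w ∈ Icc 1 W, C0 * wgt w * Ar (l w)) (∑ w ∈ Icc 1 W, C0 * wgt w * Ar (l w) - S)
  rw [abs_of_nonneg e4] at b1
  linarith

end Pool.Agent.V7H9.AL
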