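import Pool.Agent.V7H9.AL.Eff
import Pool.Agent.V7H9.AL.Law

set_option autoImplicit false

/-!
# The effective count
-/

namespace Pool.Agent.V7H9.AL

open Finset Filter Topology Pool.Agent.TH498.AR

/-- the interchange of the sums -/
lemma swap_sum (WF : Finset (ℕ × ℕ)) (P : Finset ℕ) (B : ℕ × ℕ → Finset ℕ) (hB : ∀ p, B p ⊆ P)
    (c : Finset ℕ → Prop) [DecidablePred c] (f : Finset ℕ → ℝ) :
    ∑ p ∈ WF, ∑ S ∈ (B p).powerset with c S, f S =
      ∑ S ∈ P.powerset with c S, f S * ((WF.filter (fun p => S ⊆ B p)).card : ℝ) := by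
  classical
  have h1 : ∀ p ∈ WF, ∑ S ∈ (B p).powerset with c S, f S =
      ∑ S ∈ P.powerset with c S, if S ⊆ B p then f S else 0 := by
    intro p _
    rw [← sum_filter]
    refine sum_congr ?_ fun _ _ => rfl
    ext S
    rw [mem_filter, mem_powerset, mem_filter, mem_filter, mem_powerset]
    constructor
    · rintro ⟨h1, h2⟩
      exact ⟨⟨h1.trans (hB p), h2⟩, h1⟩
    · rintro ⟨⟨-, h2⟩, h3⟩
      exact ⟨h3, h2⟩
  rw [sum_congr rfl h1, sum_comm]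
  refine sum_congr rfl fun S _ => ?_
  rw [← sum_filter, sum_const, nsmul_eq_mul, mul_comm]

/-- **The effective count.** -/
theorem eff_count : ∃ C1 : ℝ, 0 < C1 ∧ ∀ (w D : ℕ) (l η x : ℝ), 0 < w → w + 1 ≤ D → 0 < l →
    l ≤ 1 → 0 < η → η ≤ 1 → 1 ≤ x →
    |((Nl l w x).ncard : ℝ) - J l η * (C0 * wt w) * x ^ 2| ≤
      (2 * Real.sqrt η + 5 / (η * D) + 2 * (C1 * |J l η| * (D : ℝ) ^ (-(1 / 2) : ℝ))) * x ^ 2 +
        2 * ((D : ℝ) ^ 16 * (8 + 4 * Ph l η) * x) := by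
  classical
  obtain ⟨C1, hC1, hR, hTS⟩ := TS0_approx
  refine ⟨C1, hC1, fun w D l η x hw hwD hl hl1 hη hη1 hx => ?_⟩
  have hD1 : 1 ≤ D := by omega
  have hDr : (1 : ℝ) ≤ D := by exact_mod_cast hD1
  have hDr0 : (0 : ℝ) < D := by linarith
  have hwr0 : (0 : ℝ) < w := by exact_mod_cast hw
  have hwDr : (w : ℝ) ≤ D := by exact_mod_cast (by omega : w ≤ D)
  have hx0 : 0 < x := by linarith
  have hPh := Ph_nonneg l η
  obtain ⟨E, hE⟩ : ∃ E : ℝ, E = (8 + 4 * Ph l η) * x := ⟨_, rfl⟩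
  have hE0 : 0 ≤ E := by rw [hE]; positivity
  obtain ⟨Rf, hRf⟩ : ∃ Rf : Finset (ℕ × ℕ), ∀ p, p ∈ Rf ↔ p ∈ Rg l η x :=
    ⟨(Rg_finite hl1).toFinset, fun p => Set.Finite.mem_toFinset _⟩
  have hNfin := Nl_finite l w x
  set NF : Finset (ℕ × ℕ) := hNfin.toFinset with hNF
  set UF : Finset (ℕ × ℕ) := Rf.filter (fun p => Ls w (PP D) p) with hUF
  set WF : Finset (ℕ × ℕ) :=
    Rf.filter (fun p => ∀ q ∈ w.primeFactors, Lc q (w.factorization q) p) with hWF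
  have hNc : ((Nl l w x).ncard : ℝ) = (NF.card : ℝ) := by
    rw [hNF, Set.ncard_eq_toFinset_card _ hNfin]
  -- the two differences
  have hd1 : ((NF \ UF).card : ℝ) ≤ 2 * Real.sqrt η * x ^ 2 := by
    refine cusp_count hη hx _ fun p hp => ?_
    obtain ⟨hpN, hpU⟩ := Finset.mem_sdiff.1 hp
    rw [hNF, Set.Finite.mem_toFinset] at hpN
    obtain ⟨a1, a2, a2', a3, a4, a5⟩ := hpN
    refine ⟨⟨a1, a2, a5⟩, ?_⟩
    by_contra hcon
    push Not at hcon
    apply hpU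
    rw [hUF, mem_filter, hRf]
    exact ⟨⟨a1, a2', hcon, a5⟩, (Ls_iff hw D p).2 (Rloc_of hw a1 (by omega) a3 a4)⟩
  have hd2 : ((UF \ NF).card : ℝ) ≤ 5 * x ^ 2 / (η * D) := by
    refine bad_count hη hx (by omega) _ fun p hp => ?_
    obtain ⟨hpU, hpN⟩ := Finset.mem_sdiff.1 hp
    rw [hUF, mem_filter, hRf] at hpU
    obtain ⟨⟨a1, a2, a3, a4⟩, a5⟩ := hpU
    have a2' : p.1 ≤ p.2 := by
      have h0 : (0 : ℝ) ≤ p.2 := Nat.cast_nonneg _
      have : (p.1 : ℝ) ≤ p.2 := by nlinarith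
      exact_mod_cast this
    refine ⟨⟨a1, a2', a4⟩, a3, ?_⟩
    by_contra hcon
    push Not at hcon
    apply hpN
    rw [hNF, Set.Finite.mem_toFinset]
    have hR : Rloc w D p := (Ls_iff hw D p).1 a5
    obtain ⟨b1, b2⟩ := of_Rloc hw (by omega) a1 (by omega) hR (by
      intro q hq hqP
      obtain ⟨c1, c2⟩ := hcon q hq hqP
      exact ⟨fun h => c1 h.1 h.2, c2⟩)
    exact ⟨a1, a2', a2, b1, b2, a4⟩
  have hd3 : |(NF.card : ℝ) - UF.card| ≤ (NF \ UF).card + (UF \ NF).card := by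
    have e1 : (NF.card : ℝ) ≤ UF.card + (NF \ UF).card := by
      have : NF.card ≤ UF.card + (NF \ UF).card := by
        have := card_le_card_sdiff_add_card (s := NF) (t := UF)
        omega
      exact_mod_cast this
    have e2 : (UF.card : ℝ) ≤ NF.card + (UF \ NF).card := by
      have : UF.card ≤ NF.card + (UF \ NF).card := by
        have := card_le_card_sdiff_add_card (s := UF) (t := NF)
        omega
      exact_mod_cast this
    have n1 : (0 : ℝ) ≤ ((NF \ UF).card : ℝ) := Nat.cast_nonneg _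
    have n2 : (0 : ℝ) ≤ ((UF \ NF).card : ℝ) := Nat.cast_nonneg _
    rw [abs_le]
    constructor <;> linarith
  -- the sieve
  let B : ℕ × ℕ → Finset ℕ := fun p => (PPw w D).filter (fun q => Bd q p)
  have hB : ∀ p, B p ⊆ PPw w D := fun p => filter_subset _ _
  have hUc : (UF.card : ℝ) = ∑ p ∈ WF, (if B p = ∅ then (1 : ℝ) else 0) := by
    rw [← sum_filter, sum_const, nsmul_eq_mul, mul_one]
    congr 2
    ext p
    rw [hUF, hWF, mem_filter, mem_filter, mem_filter, and_assoc]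
    refine and_congr_right fun _ => ?_
    constructor
    · intro h
      refine ⟨fun q hq => h q ?_, ?_⟩
      · obtain ⟨h1, h2⟩ := PP_split hw (show w ≤ D by omega)
        rw [h2]
        exact mem_union_left _ hq
      · rw [Finset.eq_empty_iff_forall_notMem]
        intro q hq
        obtain ⟨h1, h2⟩ := mem_filter.1 hq
        have h3 := h q (PPw_sub w D h1)
        rw [Nat.factorization_eq_zero_of_not_dvd (mem_PPw.1 h1).2] at h3
        exact h2 h3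
    · rintro ⟨h1, h2⟩ q hq
      obtain ⟨h3, h4⟩ := PP_split hw (show w ≤ D by omega)
      rw [h4, mem_union] at hq
      rcases hq with hq | hq
      · exact h1 q hq
      · rw [Nat.factorization_eq_zero_of_not_dvd (mem_PPw.1 hq).2]
        by_contra hcon
        have : q ∈ B p := mem_filter.2 ⟨hq, hcon⟩
        rw [h2] at this
        exact absurd this (Finset.notMem_empty q)
  have hT : ∀ S ⊆ PPw w D, ((WF.filter (fun p => S ⊆ B p)).card : ℝ) =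
      (({p | p ∈ Rg l η x ∧ Tw w S p} : Set (ℕ × ℕ)).ncard : ℝ) := by
    intro S hS
    have : ({p | p ∈ Rg l η x ∧ Tw w S p} : Set (ℕ × ℕ)) =
        ((WF.filter (fun p => S ⊆ B p) : Finset (ℕ × ℕ)) : Set (ℕ × ℕ)) := by
      ext p
      rw [mem_coe, mem_filter, hWF, mem_filter, hRf, Set.mem_ofPred_eq]
      unfold Tw
      constructor
      · rintro ⟨h1, h2, h3⟩
        exact ⟨⟨h1, h2⟩, fun q hq => mem_filter.2 ⟨hS hq, h3 q hq⟩⟩
      · rintro ⟨⟨h1, h2⟩, h3⟩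
        exact ⟨h1, h2, fun q hq => (mem_filter.1 (h3 hq)).2⟩
    rw [this, Set.ncard_coe_finset]
  have hTc : ∀ S ⊆ PPw w D, |((WF.filter (fun p => S ⊆ B p)).card : ℝ) -
      J l η * (Aw w * ∏ q ∈ S, bet q) * x ^ 2| ≤
      (w : ℝ) ^ 6 * (((∏ q ∈ S, q : ℕ) : ℝ)) ^ 4 * E := by
    intro S hS
    rw [hT S hS, hE]
    have := Tw_count hw hl hl1 hη hη1 hS hx
    rwa [mul_assoc _ (8 + 4 * Ph l η) x] at this
  obtain ⟨M1, hM1⟩ : ∃ M1 : ℝ, M1 = ∑ S ∈ (PPw w D).powerset with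
      ((∏ q ∈ S, q : ℕ) : ℝ) ≤ D, (-1 : ℝ) ^ S.card *
        ((WF.filter (fun p => S ⊆ B p)).card : ℝ) := ⟨_, rfl⟩
  obtain ⟨M2, hM2⟩ : ∃ M2 : ℝ, M2 = ∑ S ∈ (PPw w D).powerset with
      (D : ℝ) < ((∏ q ∈ S, q : ℕ) : ℝ) ∧ ((∏ q ∈ S, q : ℕ) : ℝ) ≤ (D : ℝ) * D,
        1 * ((WF.filter (fun p => S ⊆ B p)).card : ℝ) := ⟨_, rfl⟩
  have hUM : |(UF.card : ℝ) - M1| ≤ M2 := by
    rw [hM1, hM2, hUc, ← swap_sum WF (PPw w D) B hB, ← swap_sum WF (PPw w D) B hB,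
      ← sum_sub_distrib]
    refine (abs_sum_le_sum_abs _ _).trans (sum_le_sum fun p _ => ?_)
    rw [sum_const, nsmul_eq_mul, mul_one]
    refine trunc hDr (B p) fun q hq => ?_
    obtain ⟨⟨h1, h2⟩, -⟩ := mem_PPw.1 (hB p hq)
    exact ⟨h2.one_le, by exact_mod_cast h1⟩
  have hM1' : |M1 - J l η * (Aw w * TS0 w D) * x ^ 2| ≤ (D : ℝ) ^ 16 * E := by
    have e : J l η * (Aw w * TS0 w D) * x ^ 2 = ∑ S ∈ (PPw w D).powerset with
        ((∏ q ∈ S, q : ℕ) : ℝ) ≤ D, (-1 : ℝ) ^ S.card *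
          (J l η * (Aw w * ∏ q ∈ S, bet q) * x ^ 2) := by
      unfold TS0
      rw [mul_sum, mul_sum, sum_mul]
      refine sum_congr rfl fun S _ => by ring
    rw [e, hM1, ← sum_sub_distrib]
    refine (abs_sum_le_sum_abs _ _).trans ?_
    have h1 : ∀ S ∈ (PPw w D).powerset.filter (fun S => ((∏ q ∈ S, q : ℕ) : ℝ) ≤ D),
        |(-1 : ℝ) ^ S.card * ((WF.filter (fun p => S ⊆ B p)).card : ℝ) -
          (-1 : ℝ) ^ S.card * (J l η * (Aw w * ∏ q ∈ S, bet q) * x ^ 2)| ≤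
          (D : ℝ) ^ 10 * E := by
      intro S hS
      obtain ⟨hS1, hS2⟩ := mem_filter.1 hS
      rw [← mul_sub, abs_mul, abs_pow, abs_neg, abs_one, one_pow, one_mul]
      refine (hTc S (mem_powerset.1 hS1)).trans (mul_le_mul_of_nonneg_right ?_ hE0)
      calc (w : ℝ) ^ 6 * (((∏ q ∈ S, q : ℕ) : ℝ)) ^ 4 ≤ (D : ℝ) ^ 6 * (D : ℝ) ^ 4 :=
            mul_le_mul (pow_le_pow_left₀ hwr0.le hwDr 6)
              (pow_le_pow_left₀ (Nat.cast_nonneg _) hS2 4) (by positivity) (by positivity)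
        _ = (D : ℝ) ^ 10 := by ring
    refine (sum_le_sum h1).trans ?_
    rw [sum_const, nsmul_eq_mul]
    have h2 := card_sets (w := w) (N := D) (M := D)
    calc (((PPw w D).powerset.filter (fun S => ((∏ q ∈ S, q : ℕ) : ℝ) ≤ D)).card : ℝ) *
          ((D : ℝ) ^ 10 * E) ≤ D * ((D : ℝ) ^ 10 * E) :=
          mul_le_mul_of_nonneg_right h2 (by positivity)
      _ = (D : ℝ) ^ 11 * E := by ring
      _ ≤ (D : ℝ) ^ 16 * E :=
          mul_le_mul_of_nonneg_right (pow_le_pow_right₀ hDr (by norm_num)) hE0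
  have hM2' : M2 ≤ C1 * |J l η| * (D : ℝ) ^ (-(1 / 2) : ℝ) * x ^ 2 + (D : ℝ) ^ 16 * E := by
    have h1 : ∀ S ∈ (PPw w D).powerset.filter (fun S => (D : ℝ) < ((∏ q ∈ S, q : ℕ) : ℝ) ∧
        ((∏ q ∈ S, q : ℕ) : ℝ) ≤ (D : ℝ) * D),
        1 * ((WF.filter (fun p => S ⊆ B p)).card : ℝ) ≤
          |J l η| * x ^ 2 * (∏ q ∈ S, bet q) + (D : ℝ) ^ 14 * E := by
      intro S hS
      obtain ⟨hS1, hS2, hS3⟩ := mem_filter.1 hS
      rw [mem_powerset] at hS1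
      have h2 := (abs_le.1 (hTc S hS1)).2
      have h3 : (w : ℝ) ^ 6 * (((∏ q ∈ S, q : ℕ) : ℝ)) ^ 4 * E ≤ (D : ℝ) ^ 14 * E := by
        refine mul_le_mul_of_nonneg_right ?_ hE0
        calc (w : ℝ) ^ 6 * (((∏ q ∈ S, q : ℕ) : ℝ)) ^ 4 ≤ (D : ℝ) ^ 6 * ((D : ℝ) * D) ^ 4 :=
              mul_le_mul (pow_le_pow_left₀ hwr0.le hwDr 6)
                (pow_le_pow_left₀ (Nat.cast_nonneg _) hS3 4) (by positivity) (by positivity)
          _ = (D : ℝ) ^ 14 := by ring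
      have h4 : 0 ≤ ∏ q ∈ S, bet q := prod_nonneg fun q hq => bet_nonneg (mem_PPw.1 (hS1 hq)).1.2
      have h5 : J l η * (Aw w * ∏ q ∈ S, bet q) * x ^ 2 ≤ |J l η| * x ^ 2 * (∏ q ∈ S, bet q) := by
        have k1 : J l η * (Aw w * ∏ q ∈ S, bet q) ≤ |J l η| * (1 * ∏ q ∈ S, bet q) := by
          refine mul_le_mul (le_abs_self _)
            (mul_le_mul_of_nonneg_right (Aw_le_one w) h4) (mul_nonneg (Aw_nonneg w) h4)
            (abs_nonneg _)
        have k2 := mul_le_mul_of_nonneg_right k1 (sq_nonneg x)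
        refine k2.trans (le_of_eq (by ring))
      linarith
    rw [hM2]
    refine (sum_le_sum h1).trans ?_
    rw [sum_add_distrib, ← mul_sum, sum_const, nsmul_eq_mul]
    have h2 : ∑ S ∈ (PPw w D).powerset with (D : ℝ) < ((∏ q ∈ S, q : ℕ) : ℝ) ∧
        ((∏ q ∈ S, q : ℕ) : ℝ) ≤ (D : ℝ) * D, ∏ q ∈ S, bet q ≤
        C1 * (D : ℝ) ^ (-(1 / 2) : ℝ) := by
      refine le_trans ?_ (hR D D hDr)
      refine sum_le_sum_of_subset_of_nonneg ?_ fun S hS _ => ?_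
      · intro S hS
        obtain ⟨h3, h4, -⟩ := mem_filter.1 hS
        exact mem_filter.2 ⟨mem_powerset.2 ((mem_powerset.1 h3).trans (PPw_sub w D)), h4⟩
      · have h3 := mem_powerset.1 (mem_filter.1 hS).1
        exact prod_nonneg fun q hq => bet_nonneg (PP_prime D q (h3 hq))
    have h3 : (((PPw w D).powerset.filter (fun S => (D : ℝ) < ((∏ q ∈ S, q : ℕ) : ℝ) ∧
        ((∏ q ∈ S, q : ℕ) : ℝ) ≤ (D : ℝ) * D)).card : ℝ) ≤ (D : ℝ) * D := by
      have h4 := card_sets (w := w) (N := D) (M := D * D)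
      have h5 : ((D * D : ℕ) : ℝ) = (D : ℝ) * D := by push_cast; ring
      rw [← h5]
      refine le_trans ?_ h4
      have : ((PPw w D).powerset.filter (fun S => (D : ℝ) < ((∏ q ∈ S, q : ℕ) : ℝ) ∧
        ((∏ q ∈ S, q : ℕ) : ℝ) ≤ ((D * D : ℕ) : ℝ))).card ≤
        ((PPw w D).powerset.filter
          (fun S => ((∏ q ∈ S, q : ℕ) : ℝ) ≤ ((D * D : ℕ) : ℝ))).card := by
        refine card_le_card fun S hS => ?_
        rw [mem_filter] at hS ⊢
        exact ⟨hS.1, hS.2.2⟩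
      exact_mod_cast this
    have h4 := mul_le_mul_of_nonneg_left h2 (by positivity : 0 ≤ |J l η| * x ^ 2)
    have h5 : (((PPw w D).powerset.filter (fun S => (D : ℝ) < ((∏ q ∈ S, q : ℕ) : ℝ) ∧
        ((∏ q ∈ S, q : ℕ) : ℝ) ≤ (D : ℝ) * D)).card : ℝ) * ((D : ℝ) ^ 14 * E) ≤
        (D : ℝ) ^ 16 * E := by
      refine (mul_le_mul_of_nonneg_right h3 (by positivity)).trans (le_of_eq (by ring))
    linarith
  have hM3 : |J l η * (Aw w * TS0 w D) * x ^ 2 - J l η * (C0 * wt w) * x ^ 2| ≤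
      C1 * |J l η| * (D : ℝ) ^ (-(1 / 2) : ℝ) * x ^ 2 := by
    have e : J l η * (Aw w * TS0 w D) * x ^ 2 - J l η * (C0 * wt w) * x ^ 2 =
        J l η * (Aw w * TS0 w D - C0 * wt w) * x ^ 2 := by ring
    rw [e, abs_mul, abs_mul, abs_of_nonneg (sq_nonneg x)]
    have h1 := mul_le_mul_of_nonneg_left (hTS w D hw hD1) (abs_nonneg (J l η))
    have h2 := mul_le_mul_of_nonneg_right h1 (sq_nonneg x)
    refine h2.trans (le_of_eq (by ring))
  rw [hNc]
  have e : (NF.card : ℝ) - J l η * (C0 * wt w) * x ^ 2 =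
      (NF.card - UF.card) + (UF.card - M1) + (M1 - J l η * (Aw w * TS0 w D) * x ^ 2) +
        (J l η * (Aw w * TS0 w D) * x ^ 2 - J l η * (C0 * wt w) * x ^ 2) := by ring
  rw [e]
  refine (abs_add_le _ _).trans ?_
  have t1 := abs_add_le ((NF.card : ℝ) - UF.card + (UF.card - M1))
    (M1 - J l η * (Aw w * TS0 w D) * x ^ 2)
  have t2 := abs_add_le ((NF.card : ℝ) - UF.card) (UF.card - M1)
  have h5 : 5 * x ^ 2 / (η * D) = 5 / (η * D) * x ^ 2 := by ring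
  have h6 : (D : ℝ) ^ 16 * (8 + 4 * Ph l η) * x = (D : ℝ) ^ 16 * E := by rw [hE]; ring
  rw [h5] at hd2
  rw [h6]
  linarith

end Pool.Agent.V7H9.AL
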