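import Pool.Agent.V7H9.AL.Eff2
import Pool.Agent.V7H9.AL.Bd

set_option autoImplicit false

/-!
# The effective count, with the parameters chosen
-/

namespace Pool.Agent.V7H9.AL

open Finset Filter Topology Pool.Agent.TH498.AR

lemma wt_nonneg (w : ℕ) : 0 ≤ wt w := by
  unfold wt
  refine div_nonneg (prod_nonneg fun q hq => ?_) (Nat.cast_nonneg _)
  exact (rr_pos (Nat.prime_of_mem_primeFactors hq)).le

lemma C0wt_le {w : ℕ} (hw : 0 < w) : C0 * wt w ≤ 1 :=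
  le_of_tendsto (Dw_tendsto hw) (Eventually.of_forall fun P0 => Dw_le_one w P0)

lemma Sf_ge {v : ℝ} (hv : 0 < v) (hv1 : v ≤ 1) : v ^ (2 / 3 : ℝ) / 2 ≤ Sf v := by
  have h1 := Sf_cube hv
  have h2 := Sf_pos hv
  have h3 : (v ^ (2 / 3 : ℝ) / 2) ^ 3 ≤ Sf v ^ 3 := by
    have h4 : (v ^ (2 / 3 : ℝ)) ^ 3 = v ^ 2 := by
      rw [← Real.rpow_natCast, ← Real.rpow_mul hv.le]
      norm_num
    rw [div_pow, h4, ← h1]
    have h5 : 0 < Sf v ^ 3 := by positivity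
    rw [div_le_iff₀ (by norm_num)]
    nlinarith
  exact le_of_pow_le_pow_left₀ (by norm_num) h2.le h3

lemma Ph_Sf_le {l v : ℝ} (hl : 0 < l) (hv : 0 < v) : Ph l (Sf v) ≤ v ^ (-(1 / 3) : ℝ) := by
  have h1 : Tf v ≤ v ^ (-(1 / 3) : ℝ) := by
    unfold Tf
    refine Real.rpow_le_rpow_of_nonpos hv ?_ (by norm_num)
    nlinarith
  have h2 : 0 ≤ v ^ (-(1 / 3) : ℝ) := by positivity
  unfold Ph
  rw [gg_Sf hv]
  refine max_le h2 ?_
  have h3 : 0 ≤ Sf v / l := div_nonneg (Sf_pos hv).le hl.le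
  linarith

lemma Nl_mono {l l' : ℝ} (h : l ≤ l') (w : ℕ) (x : ℝ) : Nl l w x ⊆ Nl l' w x := by
  rintro p ⟨a1, a2, a3, a4, a5, a6⟩
  refine ⟨a1, a2, a3.trans ?_, a4, a5, a6⟩
  exact mul_le_mul_of_nonneg_right h (Nat.cast_nonneg _)

/-- the count for directions that are not too small -/
theorem Nl_eff0 : ∃ C : ℝ, 0 < C ∧ ∀ (w : ℕ) (l y : ℝ), 0 < w → y ^ (-(3 / 4) : ℝ) ≤ l → l ≤ 1 →
    1 ≤ y → (w : ℝ) ≤ y →
    |((Nl l w (y ^ 20)).ncard : ℝ) - Ar l * (C0 * wt w) * (y ^ 20) ^ 2| ≤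
      C * (y ^ (-(1 / 4) : ℝ) * (y ^ 20) ^ 2) := by
  obtain ⟨C1, hC1, hE⟩ := eff_count
  refine ⟨14 + 8 * C1 + 1572864, by positivity, fun w l y hw hvl hl1 hy hwy => ?_⟩
  have hy0 : 0 < y := by linarith
  obtain ⟨v, hv⟩ : ∃ v : ℝ, v = y ^ (-(3 / 4) : ℝ) := ⟨_, rfl⟩
  rw [← hv] at hvl
  have hv0 : 0 < v := by rw [hv]; positivity
  have hv1 : v ≤ 1 := by
    rw [hv]
    exact Real.rpow_le_one_of_one_le_of_nonpos hy (by norm_num)
  have hl : 0 < l := lt_of_lt_of_le hv0 hvl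
  obtain ⟨D, hD⟩ : ∃ D : ℕ, D = ⌊y⌋₊ + 1 := ⟨_, rfl⟩
  have hwD : w + 1 ≤ D := by
    rw [hD]
    have := Nat.le_floor hwy
    omega
  have hDy : y ≤ D := by
    rw [hD]
    push_cast
    exact (Nat.lt_floor_add_one y).le
  have hD2 : (D : ℝ) ≤ 2 * y := by
    rw [hD]
    push_cast
    have := Nat.floor_le hy0.le
    linarith
  have hD0 : (0 : ℝ) < D := by linarith
  have hx : (1 : ℝ) ≤ y ^ 20 := one_le_pow₀ hy
  have hx0 : (0 : ℝ) < y ^ 20 := by positivity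
  have h1 := hE w D l (Sf v) (y ^ 20) hw hwD hl hl1 (Sf_pos hv0) (Sf_le hv0 hv1) hx
  have hJ := J_approx hl hl1 hv0 hvl
  -- the powers
  obtain ⟨t, ht⟩ : ∃ t : ℝ, t = y ^ (-(1 / 4) : ℝ) := ⟨_, rfl⟩
  have ht0 : 0 < t := by rw [ht]; positivity
  have ht1 : t ≤ 1 := by
    rw [ht]
    exact Real.rpow_le_one_of_one_le_of_nonpos hy (by norm_num)
  have e1 : v ^ (1 / 3 : ℝ) = t := by
    rw [hv, ht, ← Real.rpow_mul hy0.le]
    norm_num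
  have e2 : v ^ (-(1 / 3) : ℝ) = y ^ ((1 : ℝ) / 4) := by
    rw [hv, ← Real.rpow_mul hy0.le]
    norm_num
  rw [← ht]
  have k1 : Real.sqrt (Sf v) ≤ t := by
    rw [← e1]
    refine Real.sqrt_le_iff.2 ⟨by positivity, ?_⟩
    refine (Sf_le_rpow hv0).trans (le_of_eq ?_)
    rw [← Real.rpow_natCast, ← Real.rpow_mul hv0.le]
    norm_num
  have k2 : 5 / (Sf v * D) ≤ 10 * t := by
    rw [div_le_iff₀ (mul_pos (Sf_pos hv0) hD0)]
    have h2 := Sf_ge hv0 hv1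
    have h3 : v ^ (2 / 3 : ℝ) = y ^ (-(1 / 2) : ℝ) := by
      rw [hv, ← Real.rpow_mul hy0.le]
      norm_num
    have h4 : y ^ (-(1 / 2) : ℝ) / 2 * y ≤ Sf v * D := by
      rw [← h3]
      exact mul_le_mul h2 hDy hy0.le (Sf_pos hv0).le
    have h5 : t * (y ^ (-(1 / 2) : ℝ) * y) = y ^ ((1 : ℝ) / 4) := by
      have h6 : y ^ (-(1 / 2) : ℝ) * y = y ^ ((1 : ℝ) / 2) := by
        rw [← Real.rpow_add_one hy0.ne']
        norm_num
      rw [h6, ht, ← Real.rpow_add hy0]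
      norm_num
    have h6 : (1 : ℝ) ≤ y ^ ((1 : ℝ) / 4) := Real.one_le_rpow hy (by norm_num)
    have h7 := mul_le_mul_of_nonneg_left h4 ht0.le
    nlinarith
  have k3 : |J l (Sf v)| ≤ 4 := by
    obtain ⟨h2, h3⟩ := abs_le.1 hJ
    rw [e1] at h2 h3
    have h4 := Ar_nonneg hl.le
    have h5 := Ar_mono hl.le hl1
    have h6 := (Ar_small one_pos).2
    rw [Real.one_rpow] at h6
    rw [abs_le]
    constructor <;> linarith
  have k4 : (D : ℝ) ^ (-(1 / 2) : ℝ) ≤ t := by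
    calc (D : ℝ) ^ (-(1 / 2) : ℝ) ≤ y ^ (-(1 / 2) : ℝ) :=
          Real.rpow_le_rpow_of_nonpos hy0 hDy (by norm_num)
      _ ≤ y ^ (-(1 / 4) : ℝ) := Real.rpow_le_rpow_of_exponent_le hy (by norm_num)
      _ = t := ht.symm
  have k5 : (D : ℝ) ^ 16 * (8 + 4 * Ph l (Sf v)) * y ^ 20 ≤ 786432 * (t * (y ^ 20) ^ 2) := by
    have h2 : (D : ℝ) ^ 16 ≤ 65536 * y ^ 16 := by
      refine (pow_le_pow_left₀ hD0.le hD2 16).trans (le_of_eq ?_)
      ring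
    have h3 := Ph_Sf_le hl hv0
    rw [e2] at h3
    have h6 : (1 : ℝ) ≤ y ^ ((1 : ℝ) / 4) := Real.one_le_rpow hy (by norm_num)
    have h7 : 8 + 4 * Ph l (Sf v) ≤ 12 * y ^ ((1 : ℝ) / 4) := by linarith
    have h8 : (D : ℝ) ^ 16 * (8 + 4 * Ph l (Sf v)) ≤ 65536 * y ^ 16 * (12 * y ^ ((1 : ℝ) / 4)) :=
      mul_le_mul h2 h7 (by have := Ph_nonneg l (Sf v); positivity) (by positivity)
    have h9 : y ^ ((1 : ℝ) / 4) * y ^ ((1 : ℝ) / 4) ≤ y := by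
      rw [← Real.rpow_add hy0]
      calc y ^ ((1 : ℝ) / 4 + 1 / 4) ≤ y ^ (1 : ℝ) :=
            Real.rpow_le_rpow_of_exponent_le hy (by norm_num)
        _ = y := Real.rpow_one y
    have h10 : t * y ^ ((1 : ℝ) / 4) = 1 := by
      rw [ht, ← Real.rpow_add hy0]
      norm_num
    have h11 : y ^ ((1 : ℝ) / 4) ≤ t * y := by
      have := mul_le_mul_of_nonneg_left h9 ht0.le
      rw [← mul_assoc, h10, one_mul] at this
      exact this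
    calc (D : ℝ) ^ 16 * (8 + 4 * Ph l (Sf v)) * y ^ 20 ≤
          65536 * y ^ 16 * (12 * y ^ ((1 : ℝ) / 4)) * y ^ 20 :=
          mul_le_mul_of_nonneg_right h8 hx0.le
      _ = 786432 * (y ^ ((1 : ℝ) / 4) * (y ^ 16 * y ^ 20)) := by ring
      _ ≤ 786432 * (t * y * (y ^ 16 * y ^ 20)) := by
          refine mul_le_mul_of_nonneg_left ?_ (by norm_num)
          exact mul_le_mul_of_nonneg_right h11 (by positivity)
      _ = 786432 * (t * (y ^ 37)) := by ring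
      _ ≤ 786432 * (t * (y ^ 20) ^ 2) := by
          refine mul_le_mul_of_nonneg_left ?_ (by norm_num)
          refine mul_le_mul_of_nonneg_left ?_ ht0.le
          rw [← pow_mul]
          exact pow_le_pow_right₀ hy (by norm_num)
  have k6 : |J l (Sf v) * (C0 * wt w) * (y ^ 20) ^ 2 - Ar l * (C0 * wt w) * (y ^ 20) ^ 2| ≤
      2 * t * (y ^ 20) ^ 2 := by
    have e : J l (Sf v) * (C0 * wt w) * (y ^ 20) ^ 2 - Ar l * (C0 * wt w) * (y ^ 20) ^ 2 =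
        (J l (Sf v) - Ar l) * (C0 * wt w) * (y ^ 20) ^ 2 := by ring
    rw [e, abs_mul, abs_mul, abs_of_nonneg (sq_nonneg (y ^ 20)),
      abs_of_nonneg (mul_nonneg C0_pos.le (wt_nonneg w))]
    refine mul_le_mul_of_nonneg_right ?_ (sq_nonneg _)
    rw [e1] at hJ
    have := mul_le_mul hJ (C0wt_le hw) (mul_nonneg C0_pos.le (wt_nonneg w)) (by positivity)
    linarith
  have h2 : (2 * Real.sqrt (Sf v) + 5 / (Sf v * D) +
      2 * (C1 * |J l (Sf v)| * (D : ℝ) ^ (-(1 / 2) : ℝ))) * (y ^ 20) ^ 2 ≤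
      (12 + 8 * C1) * (t * (y ^ 20) ^ 2) := by
    have h3 : C1 * |J l (Sf v)| * (D : ℝ) ^ (-(1 / 2) : ℝ) ≤ C1 * 4 * t :=
      mul_le_mul (mul_le_mul_of_nonneg_left k3 hC1.le) k4 (by positivity) (by positivity)
    rw [← mul_assoc (12 + 8 * C1) t]
    refine mul_le_mul_of_nonneg_right ?_ (sq_nonneg _)
    linarith
  have e : ((Nl l w (y ^ 20)).ncard : ℝ) - Ar l * (C0 * wt w) * (y ^ 20) ^ 2 =
      (((Nl l w (y ^ 20)).ncard : ℝ) - J l (Sf v) * (C0 * wt w) * (y ^ 20) ^ 2) +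
      (J l (Sf v) * (C0 * wt w) * (y ^ 20) ^ 2 - Ar l * (C0 * wt w) * (y ^ 20) ^ 2) := by ring
  rw [e]
  refine (abs_add_le _ _).trans ?_
  have h7 : (14 + 8 * C1 + 1572864) * (t * (y ^ 20) ^ 2) = (12 + 8 * C1) * (t * (y ^ 20) ^ 2) +
      2 * (786432 * (t * (y ^ 20) ^ 2)) + 2 * t * (y ^ 20) ^ 2 := by ring
  rw [h7]
  linarith

/-- the count for all directions -/
theorem Nl_eff1 : ∃ C : ℝ, 0 < C ∧ ∀ (w : ℕ) (l y : ℝ), 0 < w → 0 ≤ l → l ≤ 1 →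
    1 ≤ y → (w : ℝ) ≤ y →
    |((Nl l w (y ^ 20)).ncard : ℝ) - Ar l * (C0 * wt w) * (y ^ 20) ^ 2| ≤
      C * (y ^ (-(1 / 4) : ℝ) * (y ^ 20) ^ 2) := by
  obtain ⟨C, hC, h⟩ := Nl_eff0
  refine ⟨C + 2, by positivity, fun w l y hw hl hl1 hy hwy => ?_⟩
  have hy0 : 0 < y := by linarith
  obtain ⟨v, hv⟩ : ∃ v : ℝ, v = y ^ (-(3 / 4) : ℝ) := ⟨_, rfl⟩
  have hv0 : 0 < v := by rw [hv]; positivity
  have hv1 : v ≤ 1 := by
    rw [hv]
    exact Real.rpow_le_one_of_one_le_of_nonpos hy (by norm_num)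
  have ht0 : 0 < y ^ (-(1 / 4) : ℝ) * (y ^ 20) ^ 2 := by positivity
  rcases le_or_gt v l with hvl | hvl
  · rw [hv] at hvl
    refine (h w l y hw hvl hl1 hy hwy).trans ?_
    exact mul_le_mul_of_nonneg_right (by linarith) ht0.le
  · have h1 := h w v y hw hv.symm.le hv1 hy hwy
    have h2 : ((Nl l w (y ^ 20)).ncard : ℝ) ≤ (Nl v w (y ^ 20)).ncard := by
      exact_mod_cast Set.ncard_le_ncard (Nl_mono hvl.le w _) (Nl_finite _ _ _)
    have h3 := (Ar_small hv0).2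
    have e1 : v ^ (1 / 3 : ℝ) = y ^ (-(1 / 4) : ℝ) := by
      rw [hv, ← Real.rpow_mul hy0.le]
      norm_num
    rw [e1] at h3
    have h4 : Ar v * (C0 * wt w) * (y ^ 20) ^ 2 ≤
        3 / 2 * (y ^ (-(1 / 4) : ℝ) * (y ^ 20) ^ 2) := by
      rw [← mul_assoc (3 / 2)]
      refine mul_le_mul_of_nonneg_right ?_ (sq_nonneg (y ^ 20))
      have := mul_le_mul h3 (C0wt_le hw) (mul_nonneg C0_pos.le (wt_nonneg w)) (by positivity)
      linarith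
    have h5 : Ar l * (C0 * wt w) * (y ^ 20) ^ 2 ≤ Ar v * (C0 * wt w) * (y ^ 20) ^ 2 := by
      refine mul_le_mul_of_nonneg_right ?_ (sq_nonneg (y ^ 20))
      exact mul_le_mul_of_nonneg_right (Ar_mono hl hvl.le) (mul_nonneg C0_pos.le (wt_nonneg w))
    have h6 : 0 ≤ Ar l * (C0 * wt w) * (y ^ 20) ^ 2 :=
      mul_nonneg (mul_nonneg (Ar_nonneg hl) (mul_nonneg C0_pos.le (wt_nonneg w))) (sq_nonneg _)
    have h7 : (0 : ℝ) ≤ (Nl l w (y ^ 20)).ncard := Nat.cast_nonneg _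
    obtain ⟨h8, h9⟩ := abs_le.1 h1
    have h10 : (C + 2) * (y ^ (-(1 / 4) : ℝ) * (y ^ 20) ^ 2) =
        C * (y ^ (-(1 / 4) : ℝ) * (y ^ 20) ^ 2) + 2 * (y ^ (-(1 / 4) : ℝ) * (y ^ 20) ^ 2) := by ring
    rw [h10, abs_le]
    have h11 : 0 ≤ C * (y ^ (-(1 / 4) : ℝ) * (y ^ 20) ^ 2) := by positivity
    constructor <;> linarith

/-- **The effective count of the triples with a given repeated part.** -/
theorem Nl_eff : ∃ C : ℝ, 0 < C ∧ ∀ (w : ℕ) (l x : ℝ), 0 < w → 0 ≤ l → l ≤ 1 →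
    1 ≤ x → (w : ℝ) ≤ x ^ ((1 : ℝ) / 20) →
    |((Nl l w x).ncard : ℝ) - Ar l * (C0 * wt w) * x ^ 2| ≤ C * x ^ (2 - 1 / 80 : ℝ) := by
  obtain ⟨C, hC, h⟩ := Nl_eff1
  refine ⟨C, hC, fun w l x hw hl hl1 hx hwx => ?_⟩
  have hx0 : 0 < x := by linarith
  have h1 := h w l (x ^ ((1 : ℝ) / 20)) hw hl hl1 (Real.one_le_rpow hx (by norm_num)) hwx
  have e1 : (x ^ ((1 : ℝ) / 20)) ^ 20 = x := by
    rw [← Real.rpow_natCast, ← Real.rpow_mul hx0.le]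
    norm_num
  rw [e1] at h1
  refine h1.trans (le_of_eq ?_)
  congr 1
  rw [← Real.rpow_mul hx0.le, ← Real.rpow_natCast, ← Real.rpow_add hx0]
  norm_num

end Pool.Agent.V7H9.AL
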