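import Pool.Agent.V7H9.AL.Law
import Pool.Agent.V7H9.AL.Beta
import Pool.Agent.Y911.RD.Main

set_option autoImplicit false

/-!
# The law of `c / rad (abc) ^ (1/3)`
-/

namespace Pool.Agent.V7H9.AL

open Finset Filter Topology Pool.Agent.TH498.AR
open Pool.Agent.Results.MP_1ea25c_nt.AlmostAllTriples (triples rad3)

/-- the triples with `a ≤ s c` -/
def TS (s : ℕ → ℝ) (X : ℝ) : Set (ℕ × ℕ) :=
  {p | p ∈ triples X ∧ (p.1 : ℝ) ≤ s (psi3 ∅ p) * ((p.1 + p.2 : ℕ) : ℝ)}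

/-- the joint law in terms of `a / c` -/
theorem law_t {s : ℕ → ℝ} (hs : ∀ w, 0 ≤ s w ∧ s w ≤ 1 / 2) :
    Tendsto (fun X : ℝ => ((TS s X).ncard : ℝ) / X ^ ((2 : ℝ) / 3)) atTop
      (𝓝 (∑' w : ℕ, C0 * wgt w * Hf (s w))) := by
  have h1 : ∀ w, 0 < 1 - s w := fun w => by linarith [(hs w).2]
  have hl : ∀ w, 0 ≤ s w / (1 - s w) ∧ s w / (1 - s w) ≤ 1 := by
    intro w
    refine ⟨div_nonneg (hs w).1 (h1 w).le, ?_⟩
    rw [div_le_one (h1 w)]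
    linarith [(hs w).2]
  have h2 := law hl
  have e1 : ∀ X, TL (fun w => s w / (1 - s w)) X = TS s X := by
    intro X
    ext p
    unfold TL TS
    rw [Set.mem_ofPred_eq, Set.mem_ofPred_eq]
    have h3 := h1 (psi3 ∅ p)
    constructor
    · rintro ⟨a1, a2⟩
      refine ⟨a1, ?_⟩
      rw [div_mul_eq_mul_div, le_div_iff₀ h3] at a2
      push_cast
      linarith
    · rintro ⟨a1, a2⟩
      refine ⟨a1, ?_⟩
      rw [div_mul_eq_mul_div, le_div_iff₀ h3]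
      push_cast at a2
      linarith
  have e2 : ∀ w, Ar (s w / (1 - s w)) = Hf (s w) := by
    intro w
    rw [← Hf_eq (hl w).1]
    congr 1
    have h3 := (h1 w).ne'
    field_simp
    ring
  simp only [e1, e2] at h2
  exact h2

/-- a family of sets of triples on which the repeated part is injective is small -/
theorem small_of_inj {S : ℝ → Set (ℕ × ℕ)} (h1 : ∀ X, S X ⊆ triples X)
    (h2 : ∀ X, Set.InjOn (psi3 ∅) (S X)) :
    Tendsto (fun X : ℝ => ((S X).ncard : ℝ) / X ^ ((2 : ℝ) / 3)) atTop (𝓝 0) := by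
  classical
  rw [Metric.tendsto_nhds]
  intro ε hε
  obtain ⟨C, ν, hC, hν, htail⟩ := tail_all
  obtain ⟨W, hW1, hW2⟩ : ∃ W : ℕ, 1 ≤ W ∧ C * (W : ℝ) ^ (-(1 / 10) : ℝ) ≤ ε / 5 := by
    have h1 : Tendsto (fun W : ℕ => C * (W : ℝ) ^ (-(1 / 10) : ℝ)) atTop (𝓝 (C * 0)) :=
      ((tendsto_rpow_neg_atTop (by norm_num : (0 : ℝ) < 1 / 10)).comp
        tendsto_natCast_atTop_atTop).const_mul C
    rw [mul_zero] at h1
    have h2 := h1.eventually (eventually_le_nhds (by positivity : (0 : ℝ) < ε / 5))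
    obtain ⟨W, hW⟩ := (h2.and (eventually_ge_atTop 1)).exists
    exact ⟨W, hW.2, hW.1⟩
  have h3 : Tendsto (fun X : ℝ => C * X ^ (-ν)) atTop (𝓝 (C * 0)) :=
    (tendsto_rpow_neg_atTop hν).const_mul C
  rw [mul_zero] at h3
  have h4 := h3.eventually (eventually_le_nhds (by positivity : (0 : ℝ) < ε / 5))
  have h5 : Tendsto (fun X : ℝ => ((W : ℝ) + 1) * X ^ (-(2 / 3) : ℝ)) atTop
      (𝓝 (((W : ℝ) + 1) * 0)) :=
    (tendsto_rpow_neg_atTop (by norm_num : (0 : ℝ) < 2 / 3)).const_mul _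
  rw [mul_zero] at h5
  have h6 := h5.eventually (eventually_le_nhds (by positivity : (0 : ℝ) < ε / 5))
  filter_upwards [h4, h6, eventually_ge_atTop 1] with X hX4 hX5 hX
  have hX0 : 0 < X := by linarith
  have hXp : 0 < X ^ ((2 : ℝ) / 3) := by positivity
  have hfin := Pool.Agent.Y911.AA.triples_finite' X
  have hSfin : (S X).Finite := hfin.subset (h1 X)
  have hsub : S X ⊆ {p | p ∈ S X ∧ psi3 ∅ p ≤ W} ∪ {p | p ∈ triples X ∧ W < psi3 ∅ p} := by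
    intro p hp
    rcases le_or_gt (psi3 ∅ p) W with h | h
    · exact Or.inl ⟨hp, h⟩
    · exact Or.inr ⟨h1 X hp, h⟩
  have hc1 : ({p | p ∈ S X ∧ psi3 ∅ p ≤ W} : Set (ℕ × ℕ)).ncard ≤ W + 1 := by
    have : ({p | p ∈ S X ∧ psi3 ∅ p ≤ W} : Set (ℕ × ℕ)).ncard ≤
        ((range (W + 1) : Finset ℕ) : Set ℕ).ncard := by
      refine Set.ncard_le_ncard_of_injOn (psi3 ∅) ?_ ?_ (Finset.finite_toSet _)
      · rintro p ⟨-, hp⟩
        rw [mem_coe, mem_range]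
        omega
      · intro p hp q hq hpq
        exact h2 X hp.1 hq.1 hpq
    rwa [Set.ncard_coe_finset, card_range] at this
  have hfin2 : ({p | p ∈ S X ∧ psi3 ∅ p ≤ W} ∪ {p | p ∈ triples X ∧ W < psi3 ∅ p} :
      Set (ℕ × ℕ)).Finite := (hSfin.subset fun p hp => hp.1).union (hfin.subset fun p hp => hp.1)
  have hc2 := (Set.ncard_le_ncard hsub hfin2).trans (Set.ncard_union_le _ _)
  have hc3 : ((S X).ncard : ℝ) ≤ ((W : ℝ) + 1) +
      ({p | p ∈ triples X ∧ W < psi3 ∅ p} : Set (ℕ × ℕ)).ncard := by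
    have : (S X).ncard ≤ (W + 1) + ({p | p ∈ triples X ∧ W < psi3 ∅ p} : Set (ℕ × ℕ)).ncard := by
      omega
    exact_mod_cast this
  have hc4 := htail W X hW1 hX
  rw [Real.dist_eq, sub_zero, abs_of_nonneg (by positivity), div_lt_iff₀ hXp]
  have e3 : X ^ (2 / 3 - ν) = X ^ (-ν) * X ^ ((2 : ℝ) / 3) := by
    rw [← Real.rpow_add hX0]
    congr 1
    ring
  have e4 : (W : ℝ) + 1 = ((W : ℝ) + 1) * X ^ (-(2 / 3) : ℝ) * X ^ ((2 : ℝ) / 3) := by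
    rw [mul_assoc, ← Real.rpow_add hX0]
    norm_num
  rw [e3] at hc4
  have k1 := mul_le_mul_of_nonneg_right hW2 hXp.le
  have k2 := mul_le_mul_of_nonneg_right hX4 hXp.le
  have k3 := mul_le_mul_of_nonneg_right hX5 hXp.le
  rw [← e4] at k3
  have k4 : ε / 5 * X ^ ((2 : ℝ) / 3) + ε / 5 * X ^ ((2 : ℝ) / 3) + ε / 5 * X ^ ((2 : ℝ) / 3) <
      ε * X ^ ((2 : ℝ) / 3) := by nlinarith
  linarith

/-- the root -/
noncomputable def tz (z : ℝ) (w : ℕ) : ℝ := (1 - Real.sqrt (1 - 4 * w / z ^ 3)) / 2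

lemma tz_bd {z : ℝ} (hz : 0 < z) (w : ℕ) : 0 ≤ tz z w ∧ tz z w ≤ 1 / 2 := by
  have h1 := Real.sqrt_nonneg (1 - 4 * w / z ^ 3)
  have h2 : Real.sqrt (1 - 4 * w / z ^ 3) ≤ 1 := by
    rw [Real.sqrt_le_one]
    have : 0 ≤ 4 * (w : ℝ) / z ^ 3 := by positivity
    linarith
  unfold tz
  constructor <;> linarith

/-- the triples with `c > z rad ^ (1/3)` -/
def Ex (z X : ℝ) : Set (ℕ × ℕ) :=
  {p | p ∈ triples X ∧ z * (rad3 p : ℝ) ^ ((1 : ℝ) / 3) < ((p.1 + p.2 : ℕ) : ℝ)}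

/-- the condition in terms of `t = a / c` -/
lemma ex_iff {z X : ℝ} (hz : 0 < z) {p : ℕ × ℕ} (hp : p ∈ triples X) :
    z * (rad3 p : ℝ) ^ ((1 : ℝ) / 3) < ((p.1 + p.2 : ℕ) : ℝ) ↔
      (p.1 : ℝ) / ((p.1 + p.2 : ℕ) : ℝ) * (1 - (p.1 : ℝ) / ((p.1 + p.2 : ℕ) : ℝ)) <
        (psi3 ∅ p : ℝ) / z ^ 3 := by
  obtain ⟨a1, a2, a3, a4⟩ := hp
  have b1 : (0 : ℝ) < p.1 := by exact_mod_cast a1
  have b2 : (0 : ℝ) < p.2 := by exact_mod_cast (by omega : 0 < p.2)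
  have hr0 : (0 : ℝ) < rad3 p := lt_of_lt_of_le one_pos Pool.Agent.Y911.AA.rad3_one
  have h := coprime3 (P := ∅) a3
  rw [← rd_eq] at h
  have h' : (psi3 ∅ p : ℝ) * rad3 p = (p.1 : ℝ) * p.2 * (p.1 + p.2) := by exact_mod_cast h
  obtain ⟨c, hc⟩ : ∃ c : ℝ, c = ((p.1 + p.2 : ℕ) : ℝ) := ⟨_, rfl⟩
  have hc' : c = (p.1 : ℝ) + p.2 := by rw [hc]; push_cast; rfl
  have hc0 : 0 < c := by rw [hc']; positivity
  rw [← hc]
  have e1 : (p.1 : ℝ) / c * (1 - (p.1 : ℝ) / c) = (p.1 : ℝ) * p.2 / c ^ 2 := by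
    rw [hc']
    field_simp
    ring
  rw [e1, div_lt_div_iff₀ (by positivity) (by positivity)]
  have e2 : (z * (rad3 p : ℝ) ^ ((1 : ℝ) / 3)) ^ 3 = z ^ 3 * rad3 p := by
    rw [mul_pow]
    congr 1
    rw [← Real.rpow_natCast, ← Real.rpow_mul hr0.le]
    norm_num
  have e3 : z * (rad3 p : ℝ) ^ ((1 : ℝ) / 3) < c ↔ z ^ 3 * rad3 p < c ^ 3 := by
    rw [← e2]
    constructor
    · intro h
      exact pow_lt_pow_left₀ h (by positivity) (by norm_num)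
    · intro h
      exact lt_of_pow_lt_pow_left₀ 3 hc0.le h
  rw [e3]
  rw [← hc'] at h'
  have e4 : z ^ 3 * rad3 p * (psi3 ∅ p : ℝ) = (p.1 : ℝ) * p.2 * z ^ 3 * c := by
    calc z ^ 3 * rad3 p * (psi3 ∅ p : ℝ) = z ^ 3 * ((psi3 ∅ p : ℝ) * rad3 p) := by ring
      _ = _ := by rw [h']; ring
  have hpsi : (0 : ℝ) < psi3 ∅ p := by exact_mod_cast psi3_pos a1 (by omega)
  have e5 : c ^ 3 * (psi3 ∅ p : ℝ) = (psi3 ∅ p : ℝ) * c ^ 2 * c := by ring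
  rw [← mul_lt_mul_iff_left₀ hpsi, e4, e5, mul_lt_mul_iff_left₀ hc0]

/-- **The law of `c / rad ^ (1/3)`.** -/
theorem ex_law {z : ℝ} (hz : 0 < z) :
    Tendsto (fun X : ℝ => ((Ex z X).ncard : ℝ) / X ^ ((2 : ℝ) / 3)) atTop
      (𝓝 (∑' w : ℕ, C0 * wgt w * Hf (tz z w))) := by
  have h1 := law_t (s := tz z) (fun w => tz_bd hz w)
  have hz3 : 0 < z ^ 3 := by positivity
  have key : ∀ X, ∀ p ∈ triples X, 0 < (p.1 : ℝ) / ((p.1 + p.2 : ℕ) : ℝ) ∧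
      (p.1 : ℝ) / ((p.1 + p.2 : ℕ) : ℝ) ≤ 1 / 2 := by
    intro X p hp
    obtain ⟨a1, a2, a3, a4⟩ := hp
    have b1 : (0 : ℝ) < p.1 := by exact_mod_cast a1
    have b2 : (p.1 : ℝ) ≤ p.2 := by exact_mod_cast a2
    push_cast
    refine ⟨by positivity, ?_⟩
    rw [div_le_div_iff₀ (by linarith) (by norm_num)]
    linarith
  have hcpos : ∀ X, ∀ p ∈ triples X, (0 : ℝ) < ((p.1 + p.2 : ℕ) : ℝ) := by
    intro X p hp
    have := hp.1
    exact_mod_cast (by omega : 0 < p.1 + p.2)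
  have hsub : ∀ X, Ex z X ⊆ TS (tz z) X := by
    rintro X p ⟨hp, h2⟩
    refine ⟨hp, ?_⟩
    rw [ex_iff hz hp] at h2
    obtain ⟨k1, k2⟩ := key X p hp
    rw [← div_le_iff₀ (hcpos X p hp)]
    obtain ⟨t, ht⟩ : ∃ t : ℝ, t = (p.1 : ℝ) / ((p.1 + p.2 : ℕ) : ℝ) := ⟨_, rfl⟩
    rw [← ht] at h2 k1 k2 ⊢
    unfold tz
    by_contra hcon
    push Not at hcon
    have h3 : 1 - 2 * t < Real.sqrt (1 - 4 * (psi3 ∅ p : ℝ) / z ^ 3) := by linarith
    have h4 : (1 - 2 * t) ^ 2 < 1 - 4 * (psi3 ∅ p : ℝ) / z ^ 3 :=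
      (Real.lt_sqrt (by linarith)).1 h3
    have h5 : 4 * (psi3 ∅ p : ℝ) / z ^ 3 = 4 * ((psi3 ∅ p : ℝ) / z ^ 3) := by ring
    rw [h5] at h4
    nlinarith
  have hdiff : Tendsto (fun X : ℝ => ((TS (tz z) X \ Ex z X).ncard : ℝ) / X ^ ((2 : ℝ) / 3))
      atTop (𝓝 0) := by
    have heq : ∀ X, ∀ p ∈ TS (tz z) X \ Ex z X,
        (p.1 : ℝ) / ((p.1 + p.2 : ℕ) : ℝ) = tz z (psi3 ∅ p) := by
      rintro X p ⟨⟨hp, h2⟩, h3⟩
      obtain ⟨k1, k2⟩ := key X p hp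
      have h4 : ¬ (z * (rad3 p : ℝ) ^ ((1 : ℝ) / 3) < ((p.1 + p.2 : ℕ) : ℝ)) :=
        fun h => h3 ⟨hp, h⟩
      rw [ex_iff hz hp] at h4
      rw [← div_le_iff₀ (hcpos X p hp)] at h2
      obtain ⟨t, ht⟩ : ∃ t : ℝ, t = (p.1 : ℝ) / ((p.1 + p.2 : ℕ) : ℝ) := ⟨_, rfl⟩
      rw [← ht] at h2 h4 k1 k2 ⊢
      refine le_antisymm h2 ?_
      unfold tz
      have h5 : 4 * (psi3 ∅ p : ℝ) / z ^ 3 = 4 * ((psi3 ∅ p : ℝ) / z ^ 3) := by ring
      have h6 : 1 - 2 * t ≤ Real.sqrt (1 - 4 * (psi3 ∅ p : ℝ) / z ^ 3) := by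
        refine Real.le_sqrt_of_sq_le ?_
        rw [h5]
        nlinarith
      linarith
    refine small_of_inj (fun X => Set.sdiff_subset.trans fun p hp => hp.1) fun X p hp q hq hpq => ?_
    have e1 := heq X p hp
    have e2 := heq X q hq
    rw [← hpq] at e2
    have hp1 := hp.1.1
    have hq1 := hq.1.1
    have e3 : (p.1 : ℝ) / ((p.1 + p.2 : ℕ) : ℝ) = (q.1 : ℝ) / ((q.1 + q.2 : ℕ) : ℝ) :=
      e1.trans e2.symm
    rw [div_eq_div_iff (hcpos X p hp1).ne' (hcpos X q hq1).ne'] at e3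
    have e4 : p.1 * (q.1 + q.2) = q.1 * (p.1 + p.2) := by exact_mod_cast e3
    have e5 : p.1 * q.2 = q.1 * p.2 := by
      rw [mul_add, mul_add, mul_comm q.1 p.1] at e4
      omega
    have c1 : Nat.Coprime p.1 p.2 := hp1.2.2.1
    have c2 : Nat.Coprime q.1 q.2 := hq1.2.2.1
    have d1 : p.1 ∣ q.1 := c1.dvd_of_dvd_mul_right ⟨q.2, e5.symm⟩
    have d2 : q.1 ∣ p.1 := c2.dvd_of_dvd_mul_right ⟨p.2, e5⟩
    have d3 : p.1 = q.1 := Nat.dvd_antisymm d1 d2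
    have hq0 : 0 < q.1 := hq1.1
    rw [d3] at e5
    have d4 : q.2 = p.2 := Nat.eq_of_mul_eq_mul_left hq0 e5
    exact Prod.ext d3 d4.symm
  have h2 := h1.sub hdiff
  rw [sub_zero] at h2
  refine h2.congr fun X => ?_
  rw [← sub_div]
  congr 1
  have hfin : (TS (tz z) X).Finite :=
    (Pool.Agent.Y911.AA.triples_finite' X).subset fun p hp => hp.1
  have h7 := Set.ncard_sdiff_add_ncard_of_subset (hsub X) hfin
  have : ((TS (tz z) X).ncard : ℝ) = (TS (tz z) X \ Ex z X).ncard + (Ex z X).ncard := by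
    exact_mod_cast h7.symm
  linarith

/-- the image under the radical of a family of sets of triples -/
theorem image_law {S : ℝ → Set (ℕ × ℕ)} (h1 : ∀ X, S X ⊆ triples X) {g : ℝ}
    (h2 : Tendsto (fun X : ℝ => ((S X).ncard : ℝ) / X ^ ((2 : ℝ) / 3)) atTop (𝓝 g)) :
    Tendsto (fun X : ℝ => ((rad3 '' S X).ncard : ℝ) / X ^ ((2 : ℝ) / 3)) atTop (𝓝 g) := by
  obtain ⟨ν, C, hν0, -, hC, hs⟩ := Pool.Agent.Y911.RD.shared_le
  have h3 : Tendsto (fun X : ℝ => C * X ^ (-ν)) atTop (𝓝 0) := by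
    have := (tendsto_rpow_neg_atTop hν0).const_mul C
    rwa [mul_zero] at this
  have h4 : Tendsto (fun X : ℝ => ((S X).ncard : ℝ) / X ^ ((2 : ℝ) / 3) - C * X ^ (-ν)) atTop
      (𝓝 g) := by
    have := h2.sub h3
    rwa [sub_zero] at this
  refine tendsto_of_tendsto_of_tendsto_of_le_of_le' h4 h2 ?_ ?_
  · filter_upwards [eventually_ge_atTop 1] with X hX
    have hX0 : 0 < X := by linarith
    have hXp : 0 < X ^ ((2 : ℝ) / 3) := by positivity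
    have hfin := Pool.Agent.Y911.AA.triples_finite' X
    have hSfin : (S X).Finite := hfin.subset (h1 X)
    have h5 : (S X \ Pool.Agent.Y911.RD.shared X).ncard ≤ (rad3 '' S X).ncard := by
      refine Set.ncard_le_ncard_of_injOn rad3 (fun p hp => ⟨p, hp.1, rfl⟩) ?_ (hSfin.image _)
      intro p hp q hq hpq
      by_contra hne
      exact hp.2 ⟨h1 X hp.1, q, h1 X hq.1, fun h => hne h.symm, hpq.symm⟩
    have h6 : (S X).ncard ≤ (S X \ Pool.Agent.Y911.RD.shared X).ncard +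
        (Pool.Agent.Y911.RD.shared X).ncard :=
      Set.ncard_le_ncard_sdiff_add_ncard _ _ (hfin.subset fun p hp => hp.1)
    have h7 : ((S X).ncard : ℝ) ≤ (rad3 '' S X).ncard + (Pool.Agent.Y911.RD.shared X).ncard := by
      have : (S X).ncard ≤ (rad3 '' S X).ncard + (Pool.Agent.Y911.RD.shared X).ncard := by omega
      exact_mod_cast this
    have h8 := hs X hX
    have e3 : X ^ (2 / 3 - ν) = X ^ (-ν) * X ^ ((2 : ℝ) / 3) := by
      rw [← Real.rpow_add hX0]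
      congr 1
      ring
    rw [e3] at h8
    rw [sub_le_iff_le_add, div_le_iff₀ hXp, add_mul, div_mul_cancel₀ _ hXp.ne']
    linarith
  · filter_upwards [eventually_gt_atTop 0] with X hX
    refine div_le_div_of_nonneg_right ?_ (by positivity)
    exact_mod_cast Set.ncard_image_le ((Pool.Agent.Y911.AA.triples_finite' X).subset (h1 X))

end Pool.Agent.V7H9.AL
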