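import Pool.Agent.V7H9.AL.Eff3
import Pool.Agent.V7H9.AL.Exc

set_option autoImplicit false

/-!
# The effective law
-/

namespace Pool.Agent.V7H9.AL

open Finset Filter Topology Pool.Agent.TH498.AR
open Pool.Agent.Results.MP_1ea25c_nt.AlmostAllTriples (triples rad3)

lemma SL_card (l : ℕ → ℝ) (W : ℕ) {X : ℝ} (hX : 0 < X) : ((SL l W X).ncard : ℝ) =
    ∑ w ∈ Icc 1 W, ((Nl (l w) w (((w : ℝ) * X) ^ ((1 : ℝ) / 3))).ncard : ℝ) := by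
  classical
  have hNfin : ∀ w : ℕ, (Nl (l w) w (((w : ℝ) * X) ^ ((1 : ℝ) / 3))).Finite :=
    fun w => Nl_finite _ _ _
  have hset : SL l W X = (((Icc 1 W).biUnion (fun w => (hNfin w).toFinset) : Finset (ℕ × ℕ)) :
      Set (ℕ × ℕ)) := by
    ext p
    rw [mem_coe, mem_biUnion]
    constructor
    · rintro ⟨a1, a2, a3, a4, a5, a6⟩
      refine ⟨psi3 ∅ p, mem_Icc.2 ⟨psi3_pos a1 (by omega), a5⟩, ?_⟩
      rw [Set.Finite.mem_toFinset]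
      exact ⟨a1, a2, a6, a3, rfl, (rd_le_iff a1 (by omega) a3 hX).1 a4⟩
    · rintro ⟨w, hw, hp⟩
      rw [Set.Finite.mem_toFinset] at hp
      obtain ⟨a1, a2, a2', a3, a4, a5⟩ := hp
      refine ⟨a1, a2, a3, ?_, ?_, ?_⟩
      · rw [rd_le_iff a1 (by omega) a3 hX, a4]
        exact a5
      · rw [a4]
        exact (mem_Icc.1 hw).2
      · rw [a4]
        exact a2'
  rw [hset, Set.ncard_coe_finset, card_biUnion]
  · push_cast
    refine sum_congr rfl fun w _ => ?_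
    exact_mod_cast (Set.ncard_eq_toFinset_card _ (hNfin w)).symm
  · intro w _ w' _ hne
    rw [Function.onFun, disjoint_left]
    intro p hp hp'
    rw [Set.Finite.mem_toFinset] at hp hp'
    exact hne (hp.2.2.2.2.1.symm.trans hp'.2.2.2.2.1)

/-- the triples with small repeated part, with an error term -/
theorem SL_eff : ∃ C : ℝ, 0 < C ∧ ∀ (l : ℕ → ℝ), (∀ w, 0 ≤ l w ∧ l w ≤ 1) → ∀ (W : ℕ) (X : ℝ),
    1 ≤ X → (W : ℝ) ≤ X ^ ((1 : ℝ) / 60) →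
    |((SL l W X).ncard : ℝ) - X ^ ((2 : ℝ) / 3) * ∑ w ∈ Icc 1 W, C0 * wgt w * Ar (l w)| ≤
      C * ((W : ℝ) ^ 2 * X ^ (2 / 3 - 1 / 240 : ℝ)) := by
  obtain ⟨C, hC, h⟩ := Nl_eff
  refine ⟨C, hC, fun l hl W X hX hW => ?_⟩
  have hX0 : 0 < X := by linarith
  rw [SL_card l W hX0, mul_sum, ← sum_sub_distrib]
  refine (abs_sum_le_sum_abs _ _).trans ?_
  have hterm : ∀ w ∈ Icc 1 W, |((Nl (l w) w (((w : ℝ) * X) ^ ((1 : ℝ) / 3))).ncard : ℝ) -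
      X ^ ((2 : ℝ) / 3) * (C0 * wgt w * Ar (l w))| ≤ C * (W * X ^ (2 / 3 - 1 / 240 : ℝ)) := by
    intro w hw
    obtain ⟨hw1, hwW⟩ := mem_Icc.1 hw
    have hw0 : 0 < w := hw1
    have hwr : (1 : ℝ) ≤ w := by exact_mod_cast hw1
    have hwr0 : (0 : ℝ) < w := by linarith
    have hwWr : (w : ℝ) ≤ W := by exact_mod_cast hwW
    have hwX : 1 ≤ (w : ℝ) * X := by nlinarith
    have hwX0 : 0 < (w : ℝ) * X := by linarith
    have h1 : (1 : ℝ) ≤ ((w : ℝ) * X) ^ ((1 : ℝ) / 3) := Real.one_le_rpow hwX (by norm_num)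
    have h2 : (w : ℝ) ≤ (((w : ℝ) * X) ^ ((1 : ℝ) / 3)) ^ ((1 : ℝ) / 20) := by
      rw [← Real.rpow_mul hwX0.le]
      calc (w : ℝ) ≤ X ^ ((1 : ℝ) / 60) := hwWr.trans hW
        _ ≤ ((w : ℝ) * X) ^ ((1 : ℝ) / 60) :=
            Real.rpow_le_rpow hX0.le (by nlinarith) (by norm_num)
        _ = _ := by norm_num
    have h3 := h w (l w) _ hw0 (hl w).1 (hl w).2 h1 h2
    have e1 : (((w : ℝ) * X) ^ ((1 : ℝ) / 3)) ^ 2 = (w : ℝ) ^ ((2 : ℝ) / 3) * X ^ ((2 : ℝ) / 3) := by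
      rw [← Real.rpow_natCast, ← Real.rpow_mul (by positivity), Real.mul_rpow hwr0.le hX0.le]
      norm_num
    have e2 : (((w : ℝ) * X) ^ ((1 : ℝ) / 3)) ^ (2 - 1 / 80 : ℝ) =
        (w : ℝ) ^ (2 / 3 - 1 / 240 : ℝ) * X ^ (2 / 3 - 1 / 240 : ℝ) := by
      rw [← Real.rpow_mul hwX0.le, Real.mul_rpow hwr0.le hX0.le]
      norm_num
    have e3 : Ar (l w) * (C0 * wt w) * (((w : ℝ) * X) ^ ((1 : ℝ) / 3)) ^ 2 =
        X ^ ((2 : ℝ) / 3) * (C0 * wgt w * Ar (l w)) := by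
      rw [e1, ← wgt_eq hw0]
      ring
    rw [e3, e2] at h3
    refine h3.trans (mul_le_mul_of_nonneg_left ?_ hC.le)
    refine mul_le_mul_of_nonneg_right ?_ (by positivity)
    calc (w : ℝ) ^ (2 / 3 - 1 / 240 : ℝ) ≤ (w : ℝ) ^ (1 : ℝ) :=
          Real.rpow_le_rpow_of_exponent_le hwr (by norm_num)
      _ = w := Real.rpow_one _
      _ ≤ W := hwWr
  refine (sum_le_sum hterm).trans (le_of_eq ?_)
  rw [sum_const, Nat.card_Icc, nsmul_eq_mul]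
  push_cast
  ring

/-- the tail of the series -/
lemma series_tail : ∃ C : ℝ, 0 < C ∧ ∀ (l : ℕ → ℝ), (∀ w, 0 ≤ l w ∧ l w ≤ 1) → ∀ W : ℕ, 1 ≤ W →
    |∑ w ∈ Icc 1 W, C0 * wgt w * Ar (l w) - ∑' w, C0 * wgt w * Ar (l w)| ≤
      C * (W : ℝ) ^ (-(1 / 6) : ℝ) := by
  obtain ⟨Z, hZ⟩ : ∃ Z : ℝ, Z = ∑' w, fr (1 / 6) w := ⟨_, rfl⟩
  have hs := fr_summable (τ := 1 / 6) (by norm_num)
  have hZ0 : 0 ≤ Z := by rw [hZ]; exact tsum_nonneg fun w => fr_nonneg _ _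
  have hC0 := C0_pos
  refine ⟨C0 * (3 / 2) * Z + 1, by positivity, fun l hl W hW => ?_⟩
  have hWr : (1 : ℝ) ≤ W := by exact_mod_cast hW
  have hW0 : (0 : ℝ) < W := by linarith
  have hsm := term_summable hl
  have hnn : ∀ w, 0 ≤ C0 * wgt w * Ar (l w) := fun w =>
    mul_nonneg (mul_nonneg C0_pos.le (wgt_nonneg w)) (Ar_nonneg (hl w).1)
  have h1 : ∑ w ∈ Icc 1 W, C0 * wgt w * Ar (l w) ≤ ∑' w, C0 * wgt w * Ar (l w) :=
    hsm.sum_le_tsum _ fun w _ => hnn w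
  have h2 : ∑' w, C0 * wgt w * Ar (l w) ≤ ∑ w ∈ Icc 1 W, C0 * wgt w * Ar (l w) +
      C0 * (3 / 2) * (W : ℝ) ^ (-(1 / 6) : ℝ) * Z := by
    have g1 : HasSum (fun w => if w ∈ Icc 1 W then C0 * wgt w * Ar (l w) else 0)
        (∑ w ∈ Icc 1 W, C0 * wgt w * Ar (l w)) := by
      have h5 := hasSum_sum_of_ne_finset_zero (L := SummationFilter.unconditional ℕ)
        (f := fun w => if w ∈ Icc 1 W then C0 * wgt w * Ar (l w) else 0) (s := Icc 1 W)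
        (fun b hb => if_neg hb)
      have h6 : ∑ w ∈ Icc 1 W, (if w ∈ Icc 1 W then C0 * wgt w * Ar (l w) else 0) =
          ∑ w ∈ Icc 1 W, C0 * wgt w * Ar (l w) := sum_congr rfl fun w hw => if_pos hw
      rwa [h6] at h5
    have g2 : HasSum (fun w => C0 * (3 / 2) * (W : ℝ) ^ (-(1 / 6) : ℝ) * fr (1 / 6) w)
        (C0 * (3 / 2) * (W : ℝ) ^ (-(1 / 6) : ℝ) * Z) := by
      rw [hZ]
      exact hs.hasSum.mul_left _
    refine hasSum_le (fun w => ?_) hsm.hasSum (g1.add g2)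
    have hf0 : 0 ≤ C0 * (3 / 2) * (W : ℝ) ^ (-(1 / 6) : ℝ) * fr (1 / 6) w :=
      mul_nonneg (by positivity) (fr_nonneg _ _)
    by_cases hw : w ∈ Icc 1 W
    · rw [if_pos hw]
      linarith
    · rw [if_neg hw, zero_add]
      rcases Nat.eq_zero_or_pos w with h0 | h0
      · subst h0
        rw [wgt_zero, mul_zero, zero_mul]
        exact hf0
      · have hWw : W < w := by
          rw [mem_Icc] at hw
          omega
        have hwr : (W : ℝ) ≤ w := by exact_mod_cast hWw.le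
        have hw0 : (0 : ℝ) < w := by exact_mod_cast h0
        have e1 : wgt w = (w : ℝ) ^ (-(1 / 6) : ℝ) * fr (1 / 6) w := by
          unfold wgt fr
          rw [← mul_assoc, ← Real.rpow_add hw0]
          norm_num
        have e2 : (w : ℝ) ^ (-(1 / 6) : ℝ) ≤ (W : ℝ) ^ (-(1 / 6) : ℝ) :=
          Real.rpow_le_rpow_of_nonpos hW0 hwr (by norm_num)
        have e3 : Ar (l w) ≤ 3 / 2 := by
          refine (Ar_mono (hl w).1 (hl w).2).trans ((Ar_small one_pos).2.trans ?_)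
          rw [Real.one_rpow]
          norm_num
        have e4 : wgt w ≤ (W : ℝ) ^ (-(1 / 6) : ℝ) * fr (1 / 6) w := by
          rw [e1]
          exact mul_le_mul_of_nonneg_right e2 (fr_nonneg _ _)
        calc C0 * wgt w * Ar (l w) ≤ C0 * ((W : ℝ) ^ (-(1 / 6) : ℝ) * fr (1 / 6) w) * (3 / 2) :=
              mul_le_mul (mul_le_mul_of_nonneg_left e4 hC0.le) e3 (Ar_nonneg (hl w).1)
                (mul_nonneg hC0.le (mul_nonneg (by positivity) (fr_nonneg _ _)))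
          _ = _ := by ring
  have h3 : 0 ≤ (W : ℝ) ^ (-(1 / 6) : ℝ) := by positivity
  have h4 : C0 * (3 / 2) * (W : ℝ) ^ (-(1 / 6) : ℝ) * Z =
    C0 * (3 / 2) * Z * (W : ℝ) ^ (-(1 / 6) : ℝ) := by ring
  rw [h4] at h2
  rw [abs_le]
  constructor <;> nlinarith

/-- the choice of the cut -/
lemma cut : ∃ C ν : ℝ, 0 < C ∧ 0 < ν ∧ ν ≤ 1 / 9600 ∧ ∀ X : ℝ, 1 ≤ X → ∃ W : ℕ, 1 ≤ W ∧
    (W : ℝ) ≤ X ^ ((1 : ℝ) / 960) ∧ (W : ℝ) ^ (-(1 / 6) : ℝ) ≤ 2 * X ^ (-ν) ∧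
    (({p | p ∈ triples X ∧ W < psi3 ∅ p} : Set (ℕ × ℕ)).ncard : ℝ) ≤ C * X ^ (2 / 3 - ν) := by
  obtain ⟨C, ν0, hC, hν0, h⟩ := tail_all
  refine ⟨3 * C, min (1 / 9600) ν0, by positivity, lt_min (by norm_num) hν0, min_le_left _ _,
    fun X hX => ?_⟩
  have hX0 : 0 < X := by linarith
  obtain ⟨ν, hν⟩ : ∃ ν : ℝ, ν = min (1 / 9600) ν0 := ⟨_, rfl⟩
  have hν1 : ν ≤ 1 / 9600 := by rw [hν]; exact min_le_left _ _
  have hν2 : ν ≤ ν0 := by rw [hν]; exact min_le_right _ _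
  rw [← hν]
  obtain ⟨Y, hY⟩ : ∃ Y : ℝ, Y = X ^ ((1 : ℝ) / 960) := ⟨_, rfl⟩
  have hY1 : 1 ≤ Y := by rw [hY]; exact Real.one_le_rpow hX (by norm_num)
  have hW1 : 1 ≤ ⌊Y⌋₊ := Nat.le_floor (by exact_mod_cast hY1)
  have hWY : ((⌊Y⌋₊ : ℕ) : ℝ) ≤ Y := Nat.floor_le (by linarith)
  have hWr : (1 : ℝ) ≤ ((⌊Y⌋₊ : ℕ) : ℝ) := by exact_mod_cast hW1
  have hYW : Y / 2 ≤ ((⌊Y⌋₊ : ℕ) : ℝ) := by
    have := Nat.lt_floor_add_one Y
    linarith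
  have hY2 : 0 < Y / 2 := by linarith
  have key : ∀ s : ℝ, 1 / 10 ≤ s → s ≤ 1 → ((⌊Y⌋₊ : ℕ) : ℝ) ^ (-s) ≤ 2 * X ^ (-ν) := by
    intro s hs hs1
    calc ((⌊Y⌋₊ : ℕ) : ℝ) ^ (-s) ≤ (Y / 2) ^ (-s) :=
          Real.rpow_le_rpow_of_nonpos hY2 hYW (by linarith)
      _ = Y ^ (-s) * 2 ^ s := by
          rw [Real.div_rpow (by linarith) (by norm_num), Real.rpow_neg (by norm_num : (0:ℝ) ≤ 2),
            div_inv_eq_mul]
      _ ≤ X ^ (-ν) * 2 := by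
          refine mul_le_mul ?_ ?_ (by positivity) (by positivity)
          · rw [hY, ← Real.rpow_mul hX0.le]
            refine Real.rpow_le_rpow_of_exponent_le hX ?_
            nlinarith
          · calc (2 : ℝ) ^ s ≤ 2 ^ (1 : ℝ) := Real.rpow_le_rpow_of_exponent_le (by norm_num) hs1
              _ = 2 := Real.rpow_one _
      _ = _ := by ring
  refine ⟨⌊Y⌋₊, hW1, by rw [← hY]; exact hWY, key (1 / 6) (by norm_num) (by norm_num), ?_⟩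
  refine (h ⌊Y⌋₊ X hW1 hX).trans ?_
  have h1 := key (1 / 10) le_rfl (by norm_num)
  have h2 : X ^ (2 / 3 - ν0) ≤ X ^ (2 / 3 - ν) :=
    Real.rpow_le_rpow_of_exponent_le hX (by linarith)
  have h3 : X ^ (2 / 3 - ν) = X ^ (-ν) * X ^ ((2 : ℝ) / 3) := by
    rw [← Real.rpow_add hX0]
    congr 1
    ring
  have h4 := mul_le_mul_of_nonneg_right h1 (by positivity : 0 ≤ X ^ ((2 : ℝ) / 3))
  rw [mul_assoc, ← h3] at h4
  have h5 : ((⌊Y⌋₊ : ℕ) : ℝ) ^ (-(1 / 10) : ℝ) * X ^ ((2 : ℝ) / 3) + X ^ (2 / 3 - ν0) ≤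
      3 * X ^ (2 / 3 - ν) := by linarith
  calc C * (((⌊Y⌋₊ : ℕ) : ℝ) ^ (-(1 / 10) : ℝ) * X ^ ((2 : ℝ) / 3) + X ^ (2 / 3 - ν0)) ≤
        C * (3 * X ^ (2 / 3 - ν)) := mul_le_mul_of_nonneg_left h5 hC.le
    _ = _ := by ring

/-- **The effective law.** -/
theorem law_eff : ∃ C ν : ℝ, 0 < C ∧ 0 < ν ∧ ∀ (l : ℕ → ℝ), (∀ w, 0 ≤ l w ∧ l w ≤ 1) →
    ∀ X : ℝ, 1 ≤ X →
    |((TL l X).ncard : ℝ) - X ^ ((2 : ℝ) / 3) * ∑' w : ℕ, C0 * wgt w * Ar (l w)| ≤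
      C * X ^ (2 / 3 - ν) := by
  obtain ⟨C1, hC1, h1⟩ := SL_eff
  obtain ⟨C2, hC2, h2⟩ := series_tail
  obtain ⟨C3, ν, hC3, hν, hν1, h3⟩ := cut
  refine ⟨C1 + 2 * C2 + C3, ν, by positivity, hν, fun l hl X hX => ?_⟩
  have hX0 : 0 < X := by linarith
  obtain ⟨W, hW1, hWX, hW6, hWt⟩ := h3 X hX
  have hWr : (1 : ℝ) ≤ W := by exact_mod_cast hW1
  have hW60 : (W : ℝ) ≤ X ^ ((1 : ℝ) / 60) :=
    hWX.trans (Real.rpow_le_rpow_of_exponent_le hX (by norm_num))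
  have g1 := h1 l hl W X hX hW60
  have g2 := h2 l hl W hW1
  have hXe : X ^ (2 / 3 - ν) = X ^ ((2 : ℝ) / 3) * X ^ (-ν) := by
    rw [← Real.rpow_add hX0]
    congr 1
  have g1' : C1 * ((W : ℝ) ^ 2 * X ^ (2 / 3 - 1 / 240 : ℝ)) ≤ C1 * X ^ (2 / 3 - ν) := by
    refine mul_le_mul_of_nonneg_left ?_ hC1.le
    calc (W : ℝ) ^ 2 * X ^ (2 / 3 - 1 / 240 : ℝ) ≤
          (X ^ ((1 : ℝ) / 960)) ^ 2 * X ^ (2 / 3 - 1 / 240 : ℝ) :=
          mul_le_mul_of_nonneg_right (pow_le_pow_left₀ (by linarith) hWX 2) (by positivity)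
      _ = X ^ (1 / 480 + (2 / 3 - 1 / 240) : ℝ) := by
          rw [← Real.rpow_natCast, ← Real.rpow_mul hX0.le, ← Real.rpow_add hX0]
          norm_num
      _ ≤ X ^ (2 / 3 - ν) := Real.rpow_le_rpow_of_exponent_le hX (by linarith)
  have g2' : |X ^ ((2 : ℝ) / 3) * ∑ w ∈ Icc 1 W, C0 * wgt w * Ar (l w) -
      X ^ ((2 : ℝ) / 3) * ∑' w, C0 * wgt w * Ar (l w)| ≤ 2 * C2 * X ^ (2 / 3 - ν) := by
    rw [← mul_sub, abs_mul, abs_of_nonneg (by positivity : 0 ≤ X ^ ((2 : ℝ) / 3))]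
    calc X ^ ((2 : ℝ) / 3) * |∑ w ∈ Icc 1 W, C0 * wgt w * Ar (l w) -
          ∑' w, C0 * wgt w * Ar (l w)| ≤ X ^ ((2 : ℝ) / 3) * (C2 * (2 * X ^ (-ν))) := by
          refine mul_le_mul_of_nonneg_left (g2.trans ?_) (by positivity)
          exact mul_le_mul_of_nonneg_left hW6 hC2.le
      _ = 2 * C2 * (X ^ ((2 : ℝ) / 3) * X ^ (-ν)) := by ring
      _ = _ := by rw [hXe]
  have hfin := Pool.Agent.Y911.AA.triples_finite' X
  have hTfin : (TL l X).Finite := hfin.subset fun p hp => hp.1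
  have hsub : SL l W X ⊆ TL l X := by
    rintro p ⟨a1, a2, a3, a4, a5, a6⟩
    exact ⟨⟨a1, a2, a3, a4⟩, a6⟩
  have hd : TL l X \ SL l W X ⊆ {p | p ∈ triples X ∧ W < psi3 ∅ p} := by
    rintro p ⟨⟨h1, h2⟩, h3⟩
    refine ⟨h1, ?_⟩
    by_contra hcon
    push Not at hcon
    exact h3 ⟨h1.1, h1.2.1, h1.2.2.1, h1.2.2.2, hcon, h2⟩
  have hdc : ((TL l X \ SL l W X).ncard : ℝ) ≤ C3 * X ^ (2 / 3 - ν) := by
    refine le_trans ?_ hWt
    exact_mod_cast Set.ncard_le_ncard hd (hfin.subset fun p hp => hp.1)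
  have hcount : ((TL l X).ncard : ℝ) = (SL l W X).ncard + (TL l X \ SL l W X).ncard := by
    have h7 := Set.ncard_sdiff_add_ncard_of_subset hsub hTfin
    have : (TL l X).ncard = (SL l W X).ncard + (TL l X \ SL l W X).ncard := by omega
    exact_mod_cast this
  have hn : (0 : ℝ) ≤ ((TL l X \ SL l W X).ncard : ℝ) := Nat.cast_nonneg _
  obtain ⟨b1, b2⟩ := abs_le.1 (g1.trans g1')
  obtain ⟨b3, b4⟩ := abs_le.1 g2'
  have hP : 0 ≤ C3 * X ^ (2 / 3 - ν) := by positivity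
  have e : (C1 + 2 * C2 + C3) * X ^ (2 / 3 - ν) = C1 * X ^ (2 / 3 - ν) +
      2 * C2 * X ^ (2 / 3 - ν) + C3 * X ^ (2 / 3 - ν) := by ring
  rw [hcount, e, abs_le]
  constructor <;> linarith

/-- sets of triples on which the repeated part is injective are small -/
theorem inj_eff : ∃ C ν : ℝ, 0 < C ∧ 0 < ν ∧ ∀ (X : ℝ) (S : Set (ℕ × ℕ)), 1 ≤ X →
    S ⊆ triples X → Set.InjOn (psi3 ∅) S → (S.ncard : ℝ) ≤ C * X ^ (2 / 3 - ν) := by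
  classical
  obtain ⟨C3, ν, hC3, hν, hν1, h3⟩ := cut
  refine ⟨2 + C3, ν, by positivity, hν, fun X S hX h1 h2 => ?_⟩
  have hX0 : 0 < X := by linarith
  obtain ⟨W, hW1, hWX, hW6, hWt⟩ := h3 X hX
  have hWr : (1 : ℝ) ≤ W := by exact_mod_cast hW1
  have hfin := Pool.Agent.Y911.AA.triples_finite' X
  have hSfin : S.Finite := hfin.subset h1
  have hsub : S ⊆ {p | p ∈ S ∧ psi3 ∅ p ≤ W} ∪ {p | p ∈ triples X ∧ W < psi3 ∅ p} := by
    intro p hp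
    rcases le_or_gt (psi3 ∅ p) W with h | h
    · exact Or.inl ⟨hp, h⟩
    · exact Or.inr ⟨h1 hp, h⟩
  have hc1 : ({p | p ∈ S ∧ psi3 ∅ p ≤ W} : Set (ℕ × ℕ)).ncard ≤ W + 1 := by
    have : ({p | p ∈ S ∧ psi3 ∅ p ≤ W} : Set (ℕ × ℕ)).ncard ≤
        ((range (W + 1) : Finset ℕ) : Set ℕ).ncard := by
      refine Set.ncard_le_ncard_of_injOn (psi3 ∅) ?_ ?_ (Finset.finite_toSet _)
      · rintro p ⟨-, hp⟩
        rw [mem_coe, mem_range]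
        omega
      · intro p hp q hq hpq
        exact h2 hp.1 hq.1 hpq
    rwa [Set.ncard_coe_finset, card_range] at this
  have hfin2 : ({p | p ∈ S ∧ psi3 ∅ p ≤ W} ∪ {p | p ∈ triples X ∧ W < psi3 ∅ p} :
      Set (ℕ × ℕ)).Finite := (hSfin.subset fun p hp => hp.1).union (hfin.subset fun p hp => hp.1)
  have hc2 := (Set.ncard_le_ncard hsub hfin2).trans (Set.ncard_union_le _ _)
  have hc3 : (S.ncard : ℝ) ≤ ((W : ℝ) + 1) +
      ({p | p ∈ triples X ∧ W < psi3 ∅ p} : Set (ℕ × ℕ)).ncard := by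
    have : S.ncard ≤ (W + 1) + ({p | p ∈ triples X ∧ W < psi3 ∅ p} : Set (ℕ × ℕ)).ncard := by
      omega
    exact_mod_cast this
  have hc4 : (W : ℝ) + 1 ≤ 2 * X ^ (2 / 3 - ν) := by
    have h5 : (W : ℝ) ≤ X ^ (2 / 3 - ν) :=
      hWX.trans (Real.rpow_le_rpow_of_exponent_le hX (by linarith))
    linarith
  linarith

end Pool.Agent.V7H9.AL
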