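import Pool.Agent.V7H9.AL.Bd

set_option autoImplicit false

/-!
# The constant, and slowly growing bounds
-/

namespace Pool.Agent.V7H9.AL

open Finset Filter Topology Pool.Agent.TH498.AR
open Pool.Agent.Results.MP_1ea25c_nt.AlmostAllTriples (triples rad3)

/-- the explicit constant -/
noncomputable def kap : ℝ := Real.Gamma (1 / 3) ^ 2 / (4 * Real.Gamma (2 / 3)) *
  ∏' q : Nat.Primes, (1 - 4 / ((q : ℕ) : ℝ) ^ 2 + 3 / ((q : ℕ) : ℝ) ^ 3 +
      3 * (((q : ℕ) : ℝ) - 1) ^ 2 / (((q : ℕ) : ℝ) ^ 3 *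
        (((q : ℕ) : ℝ) ^ ((1 : ℝ) / 3) - 1)))

lemma kap_eq : ∑' w : ℕ, C0 * wgt w * Hf (1 / 2) = kap := by
  unfold kap
  rw [← const_eq wgt_summable, ← Hf_half, tsum_mul_right, tsum_mul_left]
  ring

theorem total : Tendsto (fun X : ℝ => ((triples X).ncard : ℝ) / X ^ ((2 : ℝ) / 3)) atTop
    (𝓝 kap) := by
  have h := law_t (s := fun _ => 1 / 2) (fun _ => ⟨by norm_num, le_rfl⟩)
  rw [kap_eq] at h
  refine h.congr fun X => ?_
  congr 3
  ext p
  unfold TS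
  rw [Set.mem_ofPred_eq]
  refine ⟨fun h => h.1, fun h => ⟨h, ?_⟩⟩
  have h2 : (p.1 : ℝ) ≤ p.2 := by exact_mod_cast h.2.1
  push_cast
  linarith

lemma kap_pos : 0 < kap := by
  have := tendsto_nhds_unique total κ_lim
  rw [this]
  exact κ_pos

lemma Gz_eq {z : ℝ} (hz : 0 < z) (h : z ^ 3 ≤ 4) : Gz z = kap := by
  rw [← kap_eq]
  unfold Gz
  refine tsum_congr fun w => ?_
  rcases Nat.eq_zero_or_pos w with h0 | h0
  · rw [h0, wgt_zero]
    ring
  · have hw : (1 : ℝ) ≤ w := by exact_mod_cast h0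
    have hz3 : 0 < z ^ 3 := by positivity
    have : tz z w = 1 / 2 := by
      unfold tz
      have h1 : 1 - 4 * (w : ℝ) / z ^ 3 ≤ 0 := by
        have : 1 ≤ 4 * (w : ℝ) / z ^ 3 := by
          rw [le_div_iff₀ hz3]
          linarith
        linarith
      rw [Real.sqrt_eq_zero_of_nonpos h1]
      norm_num
    rw [this]

lemma Hf_lt {s : ℝ} (hs : 0 ≤ s) (hs1 : s < 1 / 2) : Hf s < Hf (1 / 2) := by
  have e := intervalIntegral.integral_add_adjacent_intervals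
    (bf_int le_rfl (by norm_num) hs hs1.le) (bf_int hs hs1.le (by norm_num) le_rfl)
  have h2 : 0 < ∫ u in s..(1 / 2), (u * (1 - u)) ^ (-(2 / 3) : ℝ) := by
    refine intervalIntegral.intervalIntegral_pos_of_pos_on
      (bf_int hs hs1.le (by norm_num) le_rfl) ?_ hs1
    intro u hu
    have h3 : 0 < u := lt_of_le_of_lt hs hu.1
    have h4 : 0 < 1 - u := by linarith [hu.2]
    positivity
  unfold Hf
  linarith

lemma Hf_mono {s : ℝ} (hs : 0 ≤ s) (hs1 : s ≤ 1 / 2) : Hf s ≤ Hf (1 / 2) := by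
  rcases eq_or_lt_of_le hs1 with h | h
  · rw [h]
  · exact (Hf_lt hs h).le

lemma Gz_lt {z : ℝ} (hz : 0 < z) (h : 4 < z ^ 3) : Gz z < kap := by
  rw [← kap_eq]
  unfold Gz
  have hsum : Summable (fun w => C0 * wgt w * Hf (1 / 2)) := by
    have : Summable (fun w => C0 * Hf (1 / 2) * wgt w) := wgt_summable.mul_left _
    refine this.congr fun w => ?_
    ring
  refine (Gz_summable hz).tsum_lt_tsum (i := 1) ?_ ?_ hsum
  · intro w
    exact mul_le_mul_of_nonneg_left (Hf_mono (tz_bd hz w).1 (tz_bd hz w).2)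
      (mul_nonneg C0_pos.le (wgt_nonneg w))
  · rw [wgt_one, mul_one]
    refine mul_lt_mul_of_pos_left (Hf_lt (tz_bd hz 1).1 ?_) C0_pos
    unfold tz
    have hz3 : 0 < z ^ 3 := by positivity
    have h1 : 0 < 1 - 4 * ((1 : ℕ) : ℝ) / z ^ 3 := by
      have : 4 * ((1 : ℕ) : ℝ) / z ^ 3 < 1 := by
        rw [div_lt_one hz3]
        push_cast
        linarith
      linarith
    have := Real.sqrt_pos.2 h1
    linarith

lemma Gz_nonneg {z : ℝ} (hz : 0 < z) : 0 ≤ Gz z :=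
  tsum_nonneg fun w =>
    mul_nonneg (mul_nonneg C0_pos.le (wgt_nonneg w)) (Hf_nonneg (tz_bd hz w).1 (tz_bd hz w).2)

/-- the triples of a bounded radical are few -/
lemma few_small (R0 : ℕ) : Tendsto (fun X : ℝ => (({p | p ∈ triples X ∧ rad3 p < R0} :
    Set (ℕ × ℕ)).ncard : ℝ) / X ^ ((2 : ℝ) / 3)) atTop (𝓝 0) := by
  have h5 : Tendsto (fun X : ℝ => ((triples (R0 : ℝ)).ncard : ℝ) * X ^ (-(2 / 3) : ℝ)) atTop
      (𝓝 (((triples (R0 : ℝ)).ncard : ℝ) * 0)) :=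
    (tendsto_rpow_neg_atTop (by norm_num : (0 : ℝ) < 2 / 3)).const_mul _
  rw [mul_zero] at h5
  refine squeeze_zero' ?_ ?_ h5
  · filter_upwards [eventually_gt_atTop 0] with X hX
    positivity
  · filter_upwards [eventually_gt_atTop 0] with X hX
    rw [Real.rpow_neg hX.le, ← div_eq_mul_inv]
    refine div_le_div_of_nonneg_right ?_ (by positivity)
    have : ({p | p ∈ triples X ∧ rad3 p < R0} : Set (ℕ × ℕ)) ⊆ triples (R0 : ℝ) := by
      rintro p ⟨⟨a1, a2, a3, -⟩, a5⟩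
      refine ⟨a1, a2, a3, ?_⟩
      exact_mod_cast a5.le
    exact_mod_cast Set.ncard_le_ncard this (Pool.Agent.Y911.AA.triples_finite' _)

/-- **Slowly growing bounds.** -/
theorem slow {φ : ℕ → ℝ} (hφ : Tendsto φ atTop atTop) :
    Tendsto (fun X : ℝ => (({p | p ∈ triples X ∧ φ (rad3 p) * (rad3 p : ℝ) ^ ((1 : ℝ) / 3) <
      ((p.1 + p.2 : ℕ) : ℝ)} : Set (ℕ × ℕ)).ncard : ℝ) / X ^ ((2 : ℝ) / 3)) atTop (𝓝 0) := by
  rw [Metric.tendsto_nhds]
  intro ε hε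
  -- the choice of `z`
  obtain ⟨C, hC, hG⟩ := Gz_le (ε := 1 / 2) (by norm_num) (by norm_num)
  obtain ⟨z, hz0, hz1⟩ : ∃ z : ℝ, 0 < z ∧ Gz z < ε / 3 := by
    have h1 : Tendsto (fun z : ℝ => C * z ^ (-(1 / 2) : ℝ)) atTop (𝓝 (C * 0)) :=
      (tendsto_rpow_neg_atTop (by norm_num : (0 : ℝ) < 1 / 2)).const_mul C
    rw [mul_zero] at h1
    obtain ⟨z, h2, h3⟩ := ((h1.eventually (eventually_lt_nhds (by positivity :
      (0 : ℝ) < ε / 3))).and (eventually_gt_atTop 0)).exists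
    refine ⟨z, h3, lt_of_le_of_lt (hG z h3) ?_⟩
    have e : (-(1 - 1 / 2) : ℝ) = -(1 / 2) := by norm_num
    rw [e]
    exact h2
  obtain ⟨R0, hR0⟩ := (tendsto_atTop.1 hφ z).exists_forall_of_atTop
  have h1 := ((ex_law hz0).eventually (eventually_lt_nhds (by
    show Gz z < ε / 3
    exact hz1)))
  have h2 := (few_small R0).eventually (eventually_lt_nhds (by positivity : (0 : ℝ) < ε / 3))
  filter_upwards [h1, h2, eventually_gt_atTop 0] with X hX1 hX2 hX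
  have hXp : 0 < X ^ ((2 : ℝ) / 3) := by positivity
  have hfin := Pool.Agent.Y911.AA.triples_finite' X
  rw [Real.dist_eq, sub_zero, abs_of_nonneg (by positivity)]
  have hsub : ({p | p ∈ triples X ∧ φ (rad3 p) * (rad3 p : ℝ) ^ ((1 : ℝ) / 3) <
      ((p.1 + p.2 : ℕ) : ℝ)} : Set (ℕ × ℕ)) ⊆ Ex z X ∪ {p | p ∈ triples X ∧ rad3 p < R0} := by
    rintro p ⟨hp, h3⟩
    rcases lt_or_ge (rad3 p) R0 with h | h
    · exact Or.inr ⟨hp, h⟩
    · left
      refine ⟨hp, lt_of_le_of_lt ?_ h3⟩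
      exact mul_le_mul_of_nonneg_right (hR0 _ h) (by positivity)
  have hfin2 : (Ex z X ∪ {p | p ∈ triples X ∧ rad3 p < R0}).Finite :=
    (hfin.subset fun p hp => hp.1).union (hfin.subset fun p hp => hp.1)
  have h4 := (Set.ncard_le_ncard hsub hfin2).trans (Set.ncard_union_le _ _)
  have h5 : (({p | p ∈ triples X ∧ φ (rad3 p) * (rad3 p : ℝ) ^ ((1 : ℝ) / 3) <
      ((p.1 + p.2 : ℕ) : ℝ)} : Set (ℕ × ℕ)).ncard : ℝ) ≤ ((Ex z X).ncard : ℝ) +
        (({p | p ∈ triples X ∧ rad3 p < R0} : Set (ℕ × ℕ)).ncard : ℝ) := by exact_mod_cast h4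
  have h6 := div_le_div_of_nonneg_right h5 hXp.le
  rw [add_div] at h6
  linarith

end Pool.Agent.V7H9.AL
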