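import Pool.Agent.V7H9.AL.Eff4
import Pool.Agent.V7H9.AL.Fin

set_option autoImplicit false

/-!
# The effective law of `c / rad (abc) ^ (1/3)`
-/

namespace Pool.Agent.V7H9.AL

open Finset Filter Topology Pool.Agent.TH498.AR
open Pool.Agent.Results.MP_1ea25c_nt.AlmostAllTriples (triples rad3)

/-- the effective joint law in terms of `a / c` -/
theorem law_t_eff : ∃ C ν : ℝ, 0 < C ∧ 0 < ν ∧ ∀ (s : ℕ → ℝ), (∀ w, 0 ≤ s w ∧ s w ≤ 1 / 2) →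
    ∀ X : ℝ, 1 ≤ X →
    |((TS s X).ncard : ℝ) - X ^ ((2 : ℝ) / 3) * ∑' w : ℕ, C0 * wgt w * Hf (s w)| ≤
      C * X ^ (2 / 3 - ν) := by
  obtain ⟨C, ν, hC, hν, h⟩ := law_eff
  refine ⟨C, ν, hC, hν, fun s hs X hX => ?_⟩
  have h1 : ∀ w, 0 < 1 - s w := fun w => by linarith [(hs w).2]
  have hl : ∀ w, 0 ≤ s w / (1 - s w) ∧ s w / (1 - s w) ≤ 1 := by
    intro w
    refine ⟨div_nonneg (hs w).1 (h1 w).le, ?_⟩
    rw [div_le_one (h1 w)]
    linarith [(hs w).2]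
  have h2 := h _ hl X hX
  have e1 : TL (fun w => s w / (1 - s w)) X = TS s X := by
    ext p
    unfold TL TS
    rw [Set.mem_ofPred_eq, Set.mem_ofPred_eq]
    have h3 := h1 (psi3 ∅ p)
    constructor
    · rintro ⟨a1, a2⟩
      refine ⟨a1, ?_⟩
      rw [div_mul_eq_mul_div, le_div_iff₀ h3] at a2
      push_cast
      linarith
    · rintro ⟨a1, a2⟩
      refine ⟨a1, ?_⟩
      rw [div_mul_eq_mul_div, le_div_iff₀ h3]
      push_cast at a2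
      linarith
  have e2 : ∀ w, Ar (s w / (1 - s w)) = Hf (s w) := by
    intro w
    rw [← Hf_eq (hl w).1]
    congr 1
    have h3 := (h1 w).ne'
    field_simp
    ring
  simp only [e2] at h2
  rw [e1] at h2
  exact h2

/-- **The effective law of `c / rad ^ (1/3)`**, uniformly in `z`. -/
theorem Ex_eff : ∃ C ν : ℝ, 0 < C ∧ 0 < ν ∧ ν ≤ 1 / 3 ∧ ∀ z : ℝ, 0 < z → ∀ X : ℝ, 1 ≤ X →
    |((Ex z X).ncard : ℝ) - X ^ ((2 : ℝ) / 3) * Gz z| ≤ C * X ^ (2 / 3 - ν) := by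
  obtain ⟨C1, ν1, hC1, hν1, hL⟩ := law_t_eff
  obtain ⟨C2, ν2, hC2, hν2, hI⟩ := inj_eff
  refine ⟨C1 + C2, min (1 / 3) (min ν1 ν2), by positivity,
    lt_min (by norm_num) (lt_min hν1 hν2), min_le_left _ _, fun z hz X hX => ?_⟩
  obtain ⟨ν, hν⟩ : ∃ ν : ℝ, ν = min (1 / 3) (min ν1 ν2) := ⟨_, rfl⟩
  have hn1 : ν ≤ ν1 := by rw [hν]; exact (min_le_right _ _).trans (min_le_left _ _)
  have hn2 : ν ≤ ν2 := by rw [hν]; exact (min_le_right _ _).trans (min_le_right _ _)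
  rw [← hν]
  have h1 := hL (tz z) (fun w => tz_bd hz w) X hX
  have hz3 : 0 < z ^ 3 := by positivity
  have key : ∀ p ∈ triples X, 0 < (p.1 : ℝ) / ((p.1 + p.2 : ℕ) : ℝ) ∧
      (p.1 : ℝ) / ((p.1 + p.2 : ℕ) : ℝ) ≤ 1 / 2 := by
    intro p hp
    obtain ⟨a1, a2, a3, a4⟩ := hp
    have b1 : (0 : ℝ) < p.1 := by exact_mod_cast a1
    have b2 : (p.1 : ℝ) ≤ p.2 := by exact_mod_cast a2
    push_cast
    refine ⟨by positivity, ?_⟩
    rw [div_le_div_iff₀ (by linarith) (by norm_num)]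
    linarith
  have hcpos : ∀ p ∈ triples X, (0 : ℝ) < ((p.1 + p.2 : ℕ) : ℝ) := by
    intro p hp
    have := hp.1
    exact_mod_cast (by omega : 0 < p.1 + p.2)
  have hsub : Ex z X ⊆ TS (tz z) X := by
    rintro p ⟨hp, h2⟩
    refine ⟨hp, ?_⟩
    rw [ex_iff hz hp] at h2
    obtain ⟨k1, k2⟩ := key p hp
    rw [← div_le_iff₀ (hcpos p hp)]
    obtain ⟨t, ht⟩ : ∃ t : ℝ, t = (p.1 : ℝ) / ((p.1 + p.2 : ℕ) : ℝ) := ⟨_, rfl⟩
    rw [← ht] at h2 k1 k2 ⊢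
    unfold tz
    by_contra hcon
    push Not at hcon
    have h3 : 1 - 2 * t < Real.sqrt (1 - 4 * (psi3 ∅ p : ℝ) / z ^ 3) := by linarith
    have h4 : (1 - 2 * t) ^ 2 < 1 - 4 * (psi3 ∅ p : ℝ) / z ^ 3 :=
      (Real.lt_sqrt (by linarith)).1 h3
    have h5 : 4 * (psi3 ∅ p : ℝ) / z ^ 3 = 4 * ((psi3 ∅ p : ℝ) / z ^ 3) := by ring
    rw [h5] at h4
    nlinarith
  have heq : ∀ p ∈ TS (tz z) X \ Ex z X,
      (p.1 : ℝ) / ((p.1 + p.2 : ℕ) : ℝ) = tz z (psi3 ∅ p) := by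
    rintro p ⟨⟨hp, h2⟩, h3⟩
    obtain ⟨k1, k2⟩ := key p hp
    have h4 : ¬ (z * (rad3 p : ℝ) ^ ((1 : ℝ) / 3) < ((p.1 + p.2 : ℕ) : ℝ)) :=
      fun h => h3 ⟨hp, h⟩
    rw [ex_iff hz hp] at h4
    rw [← div_le_iff₀ (hcpos p hp)] at h2
    obtain ⟨t, ht⟩ : ∃ t : ℝ, t = (p.1 : ℝ) / ((p.1 + p.2 : ℕ) : ℝ) := ⟨_, rfl⟩
    rw [← ht] at h2 h4 k1 k2 ⊢
    refine le_antisymm h2 ?_
    unfold tz
    have h5 : 4 * (psi3 ∅ p : ℝ) / z ^ 3 = 4 * ((psi3 ∅ p : ℝ) / z ^ 3) := by ring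
    have h6 : 1 - 2 * t ≤ Real.sqrt (1 - 4 * (psi3 ∅ p : ℝ) / z ^ 3) := by
      refine Real.le_sqrt_of_sq_le ?_
      rw [h5]
      nlinarith
    linarith
  have hdiff : ((TS (tz z) X \ Ex z X).ncard : ℝ) ≤ C2 * X ^ (2 / 3 - ν2) := by
    refine hI X _ hX (Set.sdiff_subset.trans fun p hp => hp.1) fun p hp q hq hpq => ?_
    have e1 := heq p hp
    have e2 := heq q hq
    rw [← hpq] at e2
    have hp1 := hp.1.1
    have hq1 := hq.1.1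
    have e3 : (p.1 : ℝ) / ((p.1 + p.2 : ℕ) : ℝ) = (q.1 : ℝ) / ((q.1 + q.2 : ℕ) : ℝ) :=
      e1.trans e2.symm
    rw [div_eq_div_iff (hcpos p hp1).ne' (hcpos q hq1).ne'] at e3
    have e4 : p.1 * (q.1 + q.2) = q.1 * (p.1 + p.2) := by exact_mod_cast e3
    have e5 : p.1 * q.2 = q.1 * p.2 := by
      rw [mul_add, mul_add, mul_comm q.1 p.1] at e4
      omega
    have c1 : Nat.Coprime p.1 p.2 := hp1.2.2.1
    have c2 : Nat.Coprime q.1 q.2 := hq1.2.2.1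
    have d1 : p.1 ∣ q.1 := c1.dvd_of_dvd_mul_right ⟨q.2, e5.symm⟩
    have d2 : q.1 ∣ p.1 := c2.dvd_of_dvd_mul_right ⟨p.2, e5⟩
    have d3 : p.1 = q.1 := Nat.dvd_antisymm d1 d2
    have hq0 : 0 < q.1 := hq1.1
    rw [d3] at e5
    have d4 : q.2 = p.2 := Nat.eq_of_mul_eq_mul_left hq0 e5
    exact Prod.ext d3 d4.symm
  have hfin : (TS (tz z) X).Finite :=
    (Pool.Agent.Y911.AA.triples_finite' X).subset fun p hp => hp.1
  have h7 := Set.ncard_sdiff_add_ncard_of_subset hsub hfin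
  have h8 : ((TS (tz z) X).ncard : ℝ) = (TS (tz z) X \ Ex z X).ncard + (Ex z X).ncard := by
    exact_mod_cast h7.symm
  have k1 : X ^ (2 / 3 - ν1) ≤ X ^ (2 / 3 - ν) :=
    Real.rpow_le_rpow_of_exponent_le hX (by linarith)
  have k2 : X ^ (2 / 3 - ν2) ≤ X ^ (2 / 3 - ν) :=
    Real.rpow_le_rpow_of_exponent_le hX (by linarith)
  have k3 := mul_le_mul_of_nonneg_left k1 hC1.le
  have k4 := mul_le_mul_of_nonneg_left k2 hC2.le
  have hn : (0 : ℝ) ≤ ((TS (tz z) X \ Ex z X).ncard : ℝ) := Nat.cast_nonneg _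
  have h9 : Gz z = ∑' w : ℕ, C0 * wgt w * Hf (tz z w) := rfl
  rw [← h9] at h1
  obtain ⟨b1, b2⟩ := abs_le.1 h1
  rw [add_mul, abs_le]
  constructor <;> linarith

/-- the image under the radical -/
theorem image_eff : ∃ C ν : ℝ, 0 < C ∧ 0 < ν ∧ ν ≤ 1 / 3 ∧ ∀ (X : ℝ) (S : Set (ℕ × ℕ)),
    1 ≤ X → S ⊆ triples X →
    |((rad3 '' S).ncard : ℝ) - S.ncard| ≤ C * X ^ (2 / 3 - ν) := by
  obtain ⟨ν, C, hν0, hν1, hC, hs⟩ := Pool.Agent.Y911.RD.shared_le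
  refine ⟨C, ν, hC, hν0, by linarith, fun X S hX h1 => ?_⟩
  have hfin := Pool.Agent.Y911.AA.triples_finite' X
  have hSfin : S.Finite := hfin.subset h1
  have h5 : (S \ Pool.Agent.Y911.RD.shared X).ncard ≤ (rad3 '' S).ncard := by
    refine Set.ncard_le_ncard_of_injOn rad3 (fun p hp => ⟨p, hp.1, rfl⟩) ?_ (hSfin.image _)
    intro p hp q hq hpq
    by_contra hne
    exact hp.2 ⟨h1 hp.1, q, h1 hq.1, fun h => hne h.symm, hpq.symm⟩
  have h6 : S.ncard ≤ (S \ Pool.Agent.Y911.RD.shared X).ncard +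
      (Pool.Agent.Y911.RD.shared X).ncard :=
    Set.ncard_le_ncard_sdiff_add_ncard _ _ (hfin.subset fun p hp => hp.1)
  have h7 : (S.ncard : ℝ) ≤ (rad3 '' S).ncard + (Pool.Agent.Y911.RD.shared X).ncard := by
    have : S.ncard ≤ (rad3 '' S).ncard + (Pool.Agent.Y911.RD.shared X).ncard := by omega
    exact_mod_cast this
  have h8 := hs X hX
  have h9 : ((rad3 '' S).ncard : ℝ) ≤ S.ncard := by exact_mod_cast Set.ncard_image_le hSfin
  have h10 : 0 ≤ C * X ^ (2 / 3 - ν) := by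
    have : 0 < X := by linarith
    positivity
  rw [abs_le]
  constructor <;> linarith

/-- monotonicity of the root -/
lemma tz_anti {z z' : ℝ} (hz : 0 < z) (h : z ≤ z') (w : ℕ) : tz z' w ≤ tz z w := by
  unfold tz
  have h1 : 4 * (w : ℝ) / z' ^ 3 ≤ 4 * (w : ℝ) / z ^ 3 :=
    div_le_div_of_nonneg_left (by positivity) (by positivity) (pow_le_pow_left₀ hz.le h 3)
  have h2 := Real.sqrt_le_sqrt (by linarith : 1 - 4 * (w : ℝ) / z ^ 3 ≤ 1 - 4 * (w : ℝ) / z' ^ 3)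
  linarith

/-- monotonicity of `Hf` -/
lemma Hf_mono' {s s' : ℝ} (hs : 0 ≤ s) (h : s ≤ s') (hs1 : s' ≤ 1 / 2) : Hf s ≤ Hf s' := by
  unfold Hf
  have h1 := bf_int (a := 0) (b := s) le_rfl (by norm_num) hs (h.trans hs1)
  have h2 := bf_int (a := s) (b := s') hs (h.trans hs1) (hs.trans h) hs1
  have h3 := intervalIntegral.integral_add_adjacent_intervals h1 h2
  rw [← h3]
  have h4 : 0 ≤ ∫ t in s..s', (t * (1 - t)) ^ (-(2 / 3) : ℝ) := by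
    refine intervalIntegral.integral_nonneg h fun t ht => ?_
    refine Real.rpow_nonneg ?_ _
    exact mul_nonneg (hs.trans ht.1) (by linarith [ht.2])
  linarith

/-- monotonicity of `Gz` -/
lemma Gz_anti {z z' : ℝ} (hz : 0 < z) (h : z ≤ z') : Gz z' ≤ Gz z := by
  have hz' : 0 < z' := lt_of_lt_of_le hz h
  refine (Gz_summable hz').tsum_le_tsum (fun w => ?_) (Gz_summable hz)
  exact mul_le_mul_of_nonneg_left (Hf_mono' (tz_bd hz' w).1 (tz_anti hz h w) (tz_bd hz w).2)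
    (mul_nonneg C0_pos.le (wgt_nonneg w))

lemma Gz_le_kap {z : ℝ} (hz : 0 < z) : Gz z ≤ kap := by
  rcases le_or_gt (z ^ 3) 4 with h | h
  · exact (Gz_eq hz h).le
  · exact (Gz_lt hz h).le

end Pool.Agent.V7H9.AL
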