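import Pool.Agent.V7H9.AL.Eff5

set_option autoImplicit false

/-!
# The number of the triples with `c ≥ φ (rad (abc)) rad (abc) ^ (1/3)`
-/

namespace Pool.Agent.V7H9.AL

open Finset Filter Topology Pool.Agent.TH498.AR MeasureTheory
open Pool.Agent.Results.MP_1ea25c_nt.AlmostAllTriples (triples rad3)

/-- the triples with `c ≥ z rad ^ (1/3)` -/
def Ez (z X : ℝ) : Set (ℕ × ℕ) :=
  {p | p ∈ triples X ∧ z * (rad3 p : ℝ) ^ ((1 : ℝ) / 3) ≤ ((p.1 + p.2 : ℕ) : ℝ)}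

/-- the triples with `c ≥ φ (rad) rad ^ (1/3)` -/
def Hi (φ : ℝ → ℝ) (X : ℝ) : Set (ℕ × ℕ) :=
  {p | p ∈ triples X ∧
    φ (rad3 p : ℝ) * (rad3 p : ℝ) ^ ((1 : ℝ) / 3) ≤ ((p.1 + p.2 : ℕ) : ℝ)}

lemma rad3_pos (p : ℕ × ℕ) : (0 : ℝ) < rad3 p :=
  lt_of_lt_of_le one_pos Pool.Agent.Y911.AA.rad3_one

lemma triples_empty {Y : ℝ} (hY : Y < 1) : triples Y = ∅ := by
  rw [Set.eq_empty_iff_forall_notMem]
  rintro p ⟨-, -, -, h⟩
  have h1 : (1 : ℝ) ≤ rad3 p := Pool.Agent.Y911.AA.rad3_one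
  linarith

lemma Ez_finite (z X : ℝ) : (Ez z X).Finite :=
  (Pool.Agent.Y911.AA.triples_finite' X).subset fun _ hp => hp.1

lemma Hi_finite (φ : ℝ → ℝ) (X : ℝ) : (Hi φ X).Finite :=
  (Pool.Agent.Y911.AA.triples_finite' X).subset fun _ hp => hp.1

lemma triples_mono {X Y : ℝ} (h : X ≤ Y) : triples X ⊆ triples Y := by
  rintro p ⟨a1, a2, a3, a4⟩
  exact ⟨a1, a2, a3, a4.trans h⟩

lemma Ez_sub_TS {z : ℝ} (hz : 0 < z) (X : ℝ) : Ez z X ⊆ TS (tz z) X := by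
  rintro p ⟨hp, h2⟩
  refine ⟨hp, ?_⟩
  -- the reverse inequality of `ex_iff`
  by_contra hcon
  push Not at hcon
  obtain ⟨a1, a2, a3, a4⟩ := id hp
  have b1 : (0 : ℝ) < p.1 := by exact_mod_cast a1
  have b2 : (0 : ℝ) < p.2 := by exact_mod_cast (by omega : 0 < p.2)
  have b3 : (p.1 : ℝ) ≤ p.2 := by exact_mod_cast a2
  have hc0 : (0 : ℝ) < ((p.1 + p.2 : ℕ) : ℝ) := by push_cast; linarith
  have hr0 := rad3_pos p
  have h := coprime3 (P := ∅) a3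
  rw [← rd_eq] at h
  have h' : (psi3 ∅ p : ℝ) * rad3 p = (p.1 : ℝ) * p.2 * (p.1 + p.2) := by exact_mod_cast h
  obtain ⟨c, hc⟩ : ∃ c : ℝ, c = ((p.1 + p.2 : ℕ) : ℝ) := ⟨_, rfl⟩
  have hc' : c = (p.1 : ℝ) + p.2 := by rw [hc]; push_cast; rfl
  rw [← hc] at hc0 h2 hcon
  rw [← hc'] at h'
  have hz3 : 0 < z ^ 3 := by positivity
  -- `z ^ 3 R ≤ c ^ 3`
  have e1 : z ^ 3 * rad3 p ≤ c ^ 3 := by
    have e2 : (z * (rad3 p : ℝ) ^ ((1 : ℝ) / 3)) ^ 3 = z ^ 3 * rad3 p := by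
      rw [mul_pow]
      congr 1
      rw [← Real.rpow_natCast, ← Real.rpow_mul hr0.le]
      norm_num
    rw [← e2]
    exact pow_le_pow_left₀ (by positivity) h2 3
  -- `a b z ^ 3 ≤ w c ^ 2`
  have e3 : (p.1 : ℝ) * p.2 * z ^ 3 ≤ (psi3 ∅ p : ℝ) * c ^ 2 := by
    have hpsi : (0 : ℝ) ≤ psi3 ∅ p := Nat.cast_nonneg _
    have k1 := mul_le_mul_of_nonneg_left e1 hpsi
    have k2 : (psi3 ∅ p : ℝ) * (z ^ 3 * rad3 p) = (p.1 : ℝ) * p.2 * z ^ 3 * c := by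
      calc (psi3 ∅ p : ℝ) * (z ^ 3 * rad3 p) = z ^ 3 * ((psi3 ∅ p : ℝ) * rad3 p) := by ring
        _ = _ := by rw [h']; ring
    have k3 : (psi3 ∅ p : ℝ) * c ^ 3 = (psi3 ∅ p : ℝ) * c ^ 2 * c := by ring
    rw [k2, k3] at k1
    exact le_of_mul_le_mul_right k1 hc0
  obtain ⟨t, ht⟩ : ∃ t : ℝ, t = (p.1 : ℝ) / c := ⟨_, rfl⟩
  have ht1 : (p.1 : ℝ) = t * c := by rw [ht]; field_simp
  have ht2 : (p.2 : ℝ) = (1 - t) * c := by
    have : (p.2 : ℝ) = c - p.1 := by rw [hc']; ring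
    rw [this, ht1]
    ring
  have ht3 : t ≤ 1 / 2 := by
    rw [ht, div_le_div_iff₀ hc0 (by norm_num)]
    linarith
  have e4 : t * (1 - t) ≤ (psi3 ∅ p : ℝ) / z ^ 3 := by
    rw [le_div_iff₀ hz3]
    have k1 : (p.1 : ℝ) * p.2 * z ^ 3 = t * (1 - t) * z ^ 3 * c ^ 2 := by
      rw [ht1, ht2]
      ring
    rw [k1] at e3
    exact le_of_mul_le_mul_right e3 (by positivity)
  have e5 : tz z (psi3 ∅ p) < t := by
    rw [ht, lt_div_iff₀ hc0]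
    exact hcon
  unfold tz at e5
  have h3 : 1 - 2 * t < Real.sqrt (1 - 4 * (psi3 ∅ p : ℝ) / z ^ 3) := by linarith
  have h4 : (1 - 2 * t) ^ 2 < 1 - 4 * (psi3 ∅ p : ℝ) / z ^ 3 :=
    (Real.lt_sqrt (by linarith)).1 h3
  have h5 : 4 * (psi3 ∅ p : ℝ) / z ^ 3 = 4 * ((psi3 ∅ p : ℝ) / z ^ 3) := by ring
  rw [h5] at h4
  nlinarith

/-- the law up to all heights below `X` -/
theorem Ez_eff : ∃ C ν : ℝ, 0 < C ∧ 0 < ν ∧ ν ≤ 1 / 3 ∧ ∀ z : ℝ, 0 < z → ∀ X Y : ℝ, 1 ≤ X →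
    0 ≤ Y → Y ≤ X → |((Ez z Y).ncard : ℝ) - Y ^ ((2 : ℝ) / 3) * Gz z| ≤ C * X ^ (2 / 3 - ν) := by
  obtain ⟨C1, ν1, hC1, hν1, hν1', h1⟩ := Ex_eff
  obtain ⟨C2, ν2, hC2, hν2, h2⟩ := law_t_eff
  have hk := kap_pos
  refine ⟨C1 + C2 + kap, min ν1 ν2, by positivity, lt_min hν1 hν2,
    (min_le_left _ _).trans hν1', fun z hz X Y hX hY0 hYX => ?_⟩
  obtain ⟨ν, hν⟩ : ∃ ν : ℝ, ν = min ν1 ν2 := ⟨_, rfl⟩
  have hn1 : ν ≤ ν1 := by rw [hν]; exact min_le_left _ _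
  have hn2 : ν ≤ ν2 := by rw [hν]; exact min_le_right _ _
  rw [← hν]
  have hX0 : 0 < X := by linarith
  have h1X : 1 ≤ X ^ (2 / 3 - ν) := Real.one_le_rpow hX (by linarith)
  have g0 : 0 ≤ C1 * X ^ (2 / 3 - ν) := by positivity
  have g1 : 0 ≤ C2 * X ^ (2 / 3 - ν) := by positivity
  have g2 : 0 ≤ kap * X ^ (2 / 3 - ν) := by positivity
  rcases le_or_gt 1 Y with hY | hY
  · have k1 := h1 z hz Y hY
    have k2 := h2 (tz z) (fun w => tz_bd hz w) Y hY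
    have h9 : Gz z = ∑' w : ℕ, C0 * wgt w * Hf (tz z w) := rfl
    rw [← h9] at k2
    have m1 : ((Ex z Y).ncard : ℝ) ≤ (Ez z Y).ncard := by
      have : Ex z Y ⊆ Ez z Y := fun p hp => ⟨hp.1, hp.2.le⟩
      exact_mod_cast Set.ncard_le_ncard this (Ez_finite z Y)
    have m2 : ((Ez z Y).ncard : ℝ) ≤ (TS (tz z) Y).ncard := by
      exact_mod_cast Set.ncard_le_ncard (Ez_sub_TS hz Y)
        ((Pool.Agent.Y911.AA.triples_finite' Y).subset fun _ hp => hp.1)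
    have q1 : Y ^ (2 / 3 - ν1) ≤ X ^ (2 / 3 - ν) :=
      (Real.rpow_le_rpow_of_exponent_le hY (by linarith)).trans
        (Real.rpow_le_rpow hY0 hYX (by linarith))
    have q2 : Y ^ (2 / 3 - ν2) ≤ X ^ (2 / 3 - ν) :=
      (Real.rpow_le_rpow_of_exponent_le hY (by linarith)).trans
        (Real.rpow_le_rpow hY0 hYX (by linarith))
    have q3 := mul_le_mul_of_nonneg_left q1 hC1.le
    have q4 := mul_le_mul_of_nonneg_left q2 hC2.le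
    obtain ⟨a1, a2⟩ := abs_le.1 k1
    obtain ⟨a3, a4⟩ := abs_le.1 k2
    rw [add_mul, add_mul, abs_le]
    constructor <;> linarith
  · have h1 : Ez z Y = ∅ := by
      unfold Ez
      rw [triples_empty hY]
      simp
    rw [h1, Set.ncard_empty, Nat.cast_zero, zero_sub, abs_neg,
      abs_of_nonneg (mul_nonneg (by positivity) (Gz_nonneg hz))]
    have h2 : Y ^ ((2 : ℝ) / 3) ≤ 1 := Real.rpow_le_one hY0 hY.le (by norm_num)
    have h3 : Y ^ ((2 : ℝ) / 3) * Gz z ≤ 1 * kap :=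
      mul_le_mul h2 (Gz_le_kap hz) (Gz_nonneg hz) zero_le_one
    have h4 : kap * 1 ≤ kap * X ^ (2 / 3 - ν) := mul_le_mul_of_nonneg_left h1X hk.le
    rw [add_mul, add_mul]
    linarith

/-- the blocks, above and below -/
lemma block {φ : ℝ → ℝ} (hφ : Monotone φ) {Y Z : ℝ} (hYZ : Y ≤ Z) :
    ((Hi φ Z).ncard : ℝ) - (Hi φ Y).ncard ≤ ((Ez (φ Y) Z).ncard : ℝ) - (Ez (φ Y) Y).ncard ∧
    ((Ez (φ Z) Z).ncard : ℝ) - (Ez (φ Z) Y).ncard ≤ ((Hi φ Z).ncard : ℝ) - (Hi φ Y).ncard := by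
  have hdiff : ∀ {A B : Set (ℕ × ℕ)}, B ⊆ A → A.Finite →
      ((A \ B).ncard : ℝ) = A.ncard - B.ncard := by
    intro A B h hA
    have h7 := Set.ncard_sdiff_add_ncard_of_subset h hA
    have : (A.ncard : ℝ) = (A \ B).ncard + B.ncard := by exact_mod_cast h7.symm
    linarith
  have hHi : Hi φ Y ⊆ Hi φ Z := fun p hp => ⟨triples_mono hYZ hp.1, hp.2⟩
  have hEz : ∀ z, Ez z Y ⊆ Ez z Z := fun z p hp => ⟨triples_mono hYZ hp.1, hp.2⟩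
  constructor
  · rw [← hdiff hHi (Hi_finite _ _), ← hdiff (hEz _) (Ez_finite _ _)]
    have : Hi φ Z \ Hi φ Y ⊆ Ez (φ Y) Z \ Ez (φ Y) Y := by
      rintro p ⟨⟨h1, h2⟩, h3⟩
      have h4 : Y < rad3 p := by
        by_contra hcon
        push Not at hcon
        exact h3 ⟨⟨h1.1, h1.2.1, h1.2.2.1, hcon⟩, h2⟩
      refine ⟨⟨h1, ?_⟩, fun h5 => absurd h5.1.2.2.2 (not_le.2 h4)⟩
      have h6 := rad3_pos p
      exact (mul_le_mul_of_nonneg_right (hφ h4.le) (by positivity)).trans h2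
    exact_mod_cast Set.ncard_le_ncard this ((Ez_finite _ _).subset Set.sdiff_subset)
  · rw [← hdiff hHi (Hi_finite _ _), ← hdiff (hEz _) (Ez_finite _ _)]
    have : Ez (φ Z) Z \ Ez (φ Z) Y ⊆ Hi φ Z \ Hi φ Y := by
      rintro p ⟨⟨h1, h2⟩, h3⟩
      have h4 : Y < rad3 p := by
        by_contra hcon
        push Not at hcon
        exact h3 ⟨⟨h1.1, h1.2.1, h1.2.2.1, hcon⟩, h2⟩
      refine ⟨⟨h1, ?_⟩, fun h5 => absurd h5.1.2.2.2 (not_le.2 h4)⟩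
      have h6 := rad3_pos p
      exact (mul_le_mul_of_nonneg_right (hφ h1.2.2.2) (by positivity)).trans h2
    exact_mod_cast Set.ncard_le_ncard this ((Hi_finite _ _).subset Set.sdiff_subset)

/-- the density -/
noncomputable def Phi (φ : ℝ → ℝ) (u : ℝ) : ℝ := Gz (φ ((max u 0) ^ ((3 : ℝ) / 2)))

lemma Phi_anti {φ : ℝ → ℝ} (hφ : Monotone φ) (hφ0 : ∀ t, 0 < φ t) : Antitone (Phi φ) := by
  intro u v h
  refine Gz_anti (hφ0 _) (hφ ?_)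
  exact Real.rpow_le_rpow (le_max_right _ _) (max_le_max h le_rfl) (by norm_num)

lemma Phi_nonneg {φ : ℝ → ℝ} (hφ0 : ∀ t, 0 < φ t) (u : ℝ) : 0 ≤ Phi φ u := Gz_nonneg (hφ0 _)

lemma Phi_le {φ : ℝ → ℝ} (hφ0 : ∀ t, 0 < φ t) (u : ℝ) : Phi φ u ≤ kap := Gz_le_kap (hφ0 _)

/-- **The number of the triples with large height.** -/
theorem Hi_formula : ∃ C ν : ℝ, 0 < C ∧ 0 < ν ∧ ν ≤ 1 / 3 ∧ ∀ φ : ℝ → ℝ, Monotone φ →
    (∀ t, 0 < φ t) → ∀ X : ℝ, 1 ≤ X →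
    |((Hi φ X).ncard : ℝ) - ∫ u in (0 : ℝ)..(X ^ ((2 : ℝ) / 3)), Phi φ u| ≤
      C * X ^ (2 / 3 - ν) := by
  obtain ⟨C, ν, hC, hν, hν1, h⟩ := Ez_eff
  have hk := kap_pos
  refine ⟨kap + 4 * C, ν / 2, by positivity, by positivity, by linarith,
    fun φ hφ hφ0 X hX => ?_⟩
  have hX0 : 0 < X := by linarith
  obtain ⟨J, hJ⟩ : ∃ J : ℕ, J = ⌈X ^ (ν / 2)⌉₊ := ⟨_, rfl⟩
  have hJ1 : X ^ (ν / 2) ≤ J := by rw [hJ]; exact Nat.le_ceil _
  have h1X : 1 ≤ X ^ (ν / 2) := Real.one_le_rpow hX (by positivity)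
  have hJ2 : (J : ℝ) ≤ 2 * X ^ (ν / 2) := by
    rw [hJ]
    have := Nat.ceil_lt_add_one (by positivity : 0 ≤ X ^ (ν / 2))
    linarith
  have hJ0 : (0 : ℝ) < J := by linarith
  obtain ⟨U, hU⟩ : ∃ U : ℝ, U = X ^ ((2 : ℝ) / 3) := ⟨_, rfl⟩
  have hU0 : 0 < U := by rw [hU]; positivity
  have hUX : U ^ ((3 : ℝ) / 2) = X := by
    rw [hU, ← Real.rpow_mul hX0.le]
    norm_num
  rw [← hU]
  obtain ⟨d, hd⟩ : ∃ d : ℝ, d = U / J := ⟨_, rfl⟩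
  have hd0 : 0 < d := by rw [hd]; positivity
  have hJd : (J : ℝ) * d = U := by rw [hd]; field_simp
  obtain ⟨E, hE⟩ : ∃ E : ℝ, E = C * X ^ (2 / 3 - ν) := ⟨_, rfl⟩
  -- the blocks
  have hblock : ∀ j ∈ range J,
      ((Hi φ ((((j + 1 : ℕ) : ℝ) * d) ^ ((3 : ℝ) / 2))).ncard : ℝ) -
        (Hi φ (((j : ℝ) * d) ^ ((3 : ℝ) / 2))).ncard ≤ d * Phi φ ((j : ℝ) * d) + 2 * E ∧
      d * Phi φ (((j + 1 : ℕ) : ℝ) * d) - 2 * E ≤
        ((Hi φ ((((j + 1 : ℕ) : ℝ) * d) ^ ((3 : ℝ) / 2))).ncard : ℝ) -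
          (Hi φ (((j : ℝ) * d) ^ ((3 : ℝ) / 2))).ncard := by
    intro j hj
    rw [mem_range] at hj
    obtain ⟨u, hu⟩ : ∃ u : ℝ, u = (j : ℝ) * d := ⟨_, rfl⟩
    obtain ⟨v, hv⟩ : ∃ v : ℝ, v = ((j + 1 : ℕ) : ℝ) * d := ⟨_, rfl⟩
    rw [← hu, ← hv]
    have hu0 : 0 ≤ u := by rw [hu]; positivity
    have hvu : v - u = d := by rw [hu, hv]; push_cast; ring
    have huv : u ≤ v := by linarith
    have hv0 : 0 ≤ v := by linarith
    have hvU : v ≤ U := by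
      rw [hv, ← hJd]
      refine mul_le_mul_of_nonneg_right ?_ hd0.le
      exact_mod_cast hj
    have hvX : v ^ ((3 : ℝ) / 2) ≤ X := by
      rw [← hUX]
      exact Real.rpow_le_rpow hv0 hvU (by norm_num)
    have hle : u ^ ((3 : ℝ) / 2) ≤ v ^ ((3 : ℝ) / 2) := Real.rpow_le_rpow hu0 huv (by norm_num)
    have huX : u ^ ((3 : ℝ) / 2) ≤ X := hle.trans hvX
    have e23 : ∀ t : ℝ, 0 ≤ t → (t ^ ((3 : ℝ) / 2)) ^ ((2 : ℝ) / 3) = t := by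
      intro t ht
      rw [← Real.rpow_mul ht]
      norm_num
    have hP : ∀ t : ℝ, 0 ≤ t → Phi φ t = Gz (φ (t ^ ((3 : ℝ) / 2))) := by
      intro t ht
      unfold Phi
      rw [max_eq_left ht]
    obtain ⟨g1, g2⟩ := block hφ hle
    have k1 := h (φ (u ^ ((3 : ℝ) / 2))) (hφ0 _) X (u ^ ((3 : ℝ) / 2)) hX (by positivity) huX
    have k2 := h (φ (u ^ ((3 : ℝ) / 2))) (hφ0 _) X (v ^ ((3 : ℝ) / 2)) hX (by positivity) hvX
    have k3 := h (φ (v ^ ((3 : ℝ) / 2))) (hφ0 _) X (u ^ ((3 : ℝ) / 2)) hX (by positivity) huX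
    have k4 := h (φ (v ^ ((3 : ℝ) / 2))) (hφ0 _) X (v ^ ((3 : ℝ) / 2)) hX (by positivity) hvX
    rw [e23 u hu0, ← hP u hu0, ← hE] at k1
    rw [e23 v hv0, ← hP u hu0, ← hE] at k2
    rw [e23 u hu0, ← hP v hv0, ← hE] at k3
    rw [e23 v hv0, ← hP v hv0, ← hE] at k4
    have e1 : d * Phi φ u = v * Phi φ u - u * Phi φ u := by rw [← hvu]; ring
    have e2 : d * Phi φ v = v * Phi φ v - u * Phi φ v := by rw [← hvu]; ring
    rw [e1, e2]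
    obtain ⟨a1, a2⟩ := abs_le.1 k1
    obtain ⟨a3, a4⟩ := abs_le.1 k2
    obtain ⟨a5, a6⟩ := abs_le.1 k3
    obtain ⟨a7, a8⟩ := abs_le.1 k4
    constructor <;> linarith
  -- the telescoping
  have htel := sum_range_sub (fun j : ℕ =>
    ((Hi φ (((j : ℝ) * d) ^ ((3 : ℝ) / 2))).ncard : ℝ)) J
  have hzero : ((Hi φ ((((0 : ℕ) : ℝ) * d) ^ ((3 : ℝ) / 2))).ncard : ℝ) = 0 := by
    rw [Nat.cast_zero, zero_mul, Real.zero_rpow (by norm_num)]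
    have : Hi φ 0 = ∅ := by
      unfold Hi
      rw [triples_empty one_pos]
      simp
    rw [this, Set.ncard_empty, Nat.cast_zero]
  rw [hzero, sub_zero, hJd, hUX] at htel
  have hup := sum_le_sum fun j hj => (hblock j hj).1
  have hlo := sum_le_sum fun j hj => (hblock j hj).2
  rw [htel, sum_add_distrib, sum_const, card_range, nsmul_eq_mul, ← mul_sum] at hup
  rw [htel, sum_sub_distrib, sum_const, card_range, nsmul_eq_mul, ← mul_sum] at hlo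
  -- the integral
  have hganti : Antitone (fun t : ℝ => Phi φ (t * d)) := by
    intro t t' ht
    exact Phi_anti hφ hφ0 (mul_le_mul_of_nonneg_right ht hd0.le)
  have i1 := AntitoneOn.integral_le_sum (x₀ := 0) (a := J) (f := fun t : ℝ => Phi φ (t * d))
    (hganti.antitoneOn _)
  have i2 := AntitoneOn.sum_le_integral (x₀ := 0) (a := J) (f := fun t : ℝ => Phi φ (t * d))
    (hganti.antitoneOn _)
  simp only [zero_add] at i1 i2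
  have hint : ∫ t in (0 : ℝ)..J, Phi φ (t * d) = d⁻¹ * ∫ u in (0 : ℝ)..U, Phi φ u := by
    rw [intervalIntegral.integral_comp_mul_right (Phi φ) hd0.ne', zero_mul, hJd, smul_eq_mul]
  rw [hint] at i1 i2
  have e := Finset.sum_range_succ' (fun i : ℕ => Phi φ ((i : ℝ) * d)) J
  have e' := Finset.sum_range_succ (fun i : ℕ => Phi φ ((i : ℝ) * d)) J
  have n1 := Phi_nonneg hφ0 ((J : ℝ) * d)
  have n2 := Phi_le hφ0 (((0 : ℕ) : ℝ) * d)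
  have hS : ∑ i ∈ range J, Phi φ ((i : ℝ) * d) ≤
      kap + ∑ i ∈ range J, Phi φ (((i + 1 : ℕ) : ℝ) * d) := by linarith
  have hI : ∫ u in (0 : ℝ)..U, Phi φ u = d * (d⁻¹ * ∫ u in (0 : ℝ)..U, Phi φ u) := by
    rw [← mul_assoc, mul_inv_cancel₀ hd0.ne', one_mul]
  have j1 := mul_le_mul_of_nonneg_left i1 hd0.le
  have j2 := mul_le_mul_of_nonneg_left i2 hd0.le
  have j3 := mul_le_mul_of_nonneg_left hS hd0.le
  rw [← hI] at j1 j2
  rw [mul_add] at j3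
  -- the errors
  have hdle : d * kap ≤ kap * X ^ (2 / 3 - ν / 2) := by
    rw [mul_comm]
    refine mul_le_mul_of_nonneg_left ?_ hk.le
    rw [hd, div_le_iff₀ hJ0, hU]
    calc X ^ ((2 : ℝ) / 3) = X ^ (2 / 3 - ν / 2) * X ^ (ν / 2) := by
          rw [← Real.rpow_add hX0]
          congr 1
          ring
      _ ≤ X ^ (2 / 3 - ν / 2) * J := mul_le_mul_of_nonneg_left hJ1 (by positivity)
  have hJE : (J : ℝ) * (2 * E) ≤ 4 * C * X ^ (2 / 3 - ν / 2) := by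
    calc (J : ℝ) * (2 * E) ≤ (2 * X ^ (ν / 2)) * (2 * E) :=
          mul_le_mul_of_nonneg_right hJ2 (by rw [hE]; positivity)
      _ = 4 * C * (X ^ (2 / 3 - ν) * X ^ (ν / 2)) := by rw [hE]; ring
      _ = 4 * C * X ^ (2 / 3 - ν / 2) := by
          rw [← Real.rpow_add hX0]
          congr 2
          ring
  rw [add_mul, abs_le]
  constructor <;> linarith

end Pool.Agent.V7H9.AL
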