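import Pool.Agent.V7H9.AL.Eff6

set_option autoImplicit false

/-!
# The final forms
-/

namespace Pool.Agent.V7H9.AL

open Finset Filter Topology Pool.Agent.TH498.AR MeasureTheory
open Pool.Agent.Results.MP_1ea25c_nt.AlmostAllTriples (triples rad3)

/-- **The number of the triples with large height**, for functions on `[1, ∞)`. -/
theorem Hi_final : ∃ C ν : ℝ, 0 < C ∧ 0 < ν ∧ ν ≤ 1 / 3 ∧ ∀ φ : ℝ → ℝ,
    MonotoneOn φ (Set.Ici 1) → (∀ t : ℝ, 1 ≤ t → 0 < φ t) → ∀ X : ℝ, 1 ≤ X →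
    |((Hi φ X).ncard : ℝ) -
      ∫ u in (1 : ℝ)..(X ^ ((2 : ℝ) / 3)), Gz (φ (u ^ ((3 : ℝ) / 2)))| ≤ C * X ^ (2 / 3 - ν) := by
  obtain ⟨C, ν, hC, hν, hν1, h⟩ := Hi_formula
  have hk := kap_pos
  refine ⟨C + kap, ν, by positivity, hν, hν1, fun φ hφ hφ0 X hX => ?_⟩
  have hX0 : 0 < X := by linarith
  obtain ⟨ψ, hψ⟩ : ∃ ψ : ℝ → ℝ, ∀ t, ψ t = φ (max t 1) := ⟨fun t => φ (max t 1), fun _ => rfl⟩
  have hψm : Monotone ψ := by
    intro t t' ht
    rw [hψ, hψ]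
    exact hφ (Set.mem_Ici.2 (le_max_right t 1)) (Set.mem_Ici.2 (le_max_right t' 1))
      (max_le_max ht le_rfl)
  have hψ0 : ∀ t, 0 < ψ t := fun t => by rw [hψ]; exact hφ0 _ (le_max_right _ _)
  have h1 := h ψ hψm hψ0 X hX
  have hHi : Hi ψ X = Hi φ X := by
    ext p
    unfold Hi
    rw [Set.mem_ofPred_eq, Set.mem_ofPred_eq]
    have h2 : (1 : ℝ) ≤ rad3 p := Pool.Agent.Y911.AA.rad3_one
    rw [hψ, max_eq_left h2]
  rw [hHi] at h1
  have hU1 : 1 ≤ X ^ ((2 : ℝ) / 3) := Real.one_le_rpow hX (by norm_num)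
  have hi : ∀ a b : ℝ, IntervalIntegrable (Phi ψ) volume a b :=
    fun a b => (Phi_anti hψm hψ0).intervalIntegrable
  have hsplit := intervalIntegral.integral_add_adjacent_intervals (hi 0 1)
    (hi 1 (X ^ ((2 : ℝ) / 3)))
  have hcongr : ∫ u in (1 : ℝ)..(X ^ ((2 : ℝ) / 3)), Phi ψ u =
      ∫ u in (1 : ℝ)..(X ^ ((2 : ℝ) / 3)), Gz (φ (u ^ ((3 : ℝ) / 2))) := by
    refine intervalIntegral.integral_congr fun u hu => ?_
    rw [Set.uIcc_of_le hU1] at hu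
    have hu1 : 1 ≤ u := hu.1
    simp only [Phi]
    rw [max_eq_left (by linarith : (0 : ℝ) ≤ u), hψ,
      max_eq_left (Real.one_le_rpow hu1 (by norm_num))]
  have hsmall : |∫ u in (0 : ℝ)..1, Phi ψ u| ≤ kap := by
    rw [abs_of_nonneg (intervalIntegral.integral_nonneg zero_le_one fun u _ => Phi_nonneg hψ0 u)]
    have h3 : ∫ u in (0 : ℝ)..1, Phi ψ u ≤ ∫ _u in (0 : ℝ)..1, kap :=
      intervalIntegral.integral_mono_on zero_le_one (hi 0 1) intervalIntegrable_const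
        fun u _ => Phi_le hψ0 u
    rw [intervalIntegral.integral_const, sub_zero, one_smul] at h3
    exact h3
  rw [← hcongr]
  rw [← hsplit] at h1
  have h1X : 1 ≤ X ^ (2 / 3 - ν) := Real.one_le_rpow hX (by linarith)
  have h4 : kap * 1 ≤ kap * X ^ (2 / 3 - ν) := mul_le_mul_of_nonneg_left h1X hk.le
  obtain ⟨a1, a2⟩ := abs_le.1 h1
  obtain ⟨a3, a4⟩ := abs_le.1 hsmall
  rw [add_mul, abs_le]
  constructor <;> linarith

/-- the main term for a power is large -/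
theorem main_ge : ∃ c : ℝ, 0 < c ∧ ∀ δ : ℝ, 0 < δ → ∀ X : ℝ, 2 ≤ X →
    c * X ^ (2 / 3 - δ) ≤
      ∫ u in (1 : ℝ)..(X ^ ((2 : ℝ) / 3)), Gz ((u ^ ((3 : ℝ) / 2)) ^ δ) := by
  have hk := kap_pos
  have hC0 := C0_pos
  refine ⟨1 / 3 * min kap (3 / 2 * C0), by
    have : 0 < min kap (3 / 2 * C0) := lt_min hk (by positivity)
    positivity, fun δ hδ X hX => ?_⟩
  have hX0 : 0 < X := by linarith
  have hX1 : 1 ≤ X := by linarith
  obtain ⟨U, hU⟩ : ∃ U : ℝ, U = X ^ ((2 : ℝ) / 3) := ⟨_, rfl⟩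
  have hU0 : 0 < U := by rw [hU]; positivity
  have hU1 : 3 / 2 ≤ U := by
    have h1 : (3 / 2 : ℝ) ^ 3 ≤ U ^ 3 := by
      have : U ^ 3 = X ^ 2 := by
        rw [hU, ← Real.rpow_natCast, ← Real.rpow_mul hX0.le]
        norm_num
      rw [this]
      nlinarith
    exact le_of_pow_le_pow_left₀ (by norm_num) hU0.le h1
  have hUX : U ^ ((3 : ℝ) / 2) = X := by
    rw [hU, ← Real.rpow_mul hX0.le]
    norm_num
  rw [← hU]
  have h1 : min kap (3 / 2 * C0) * X ^ (-δ) ≤ Gz (X ^ δ) := by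
    have hz : 0 < X ^ δ := by positivity
    have hinv : X ^ (-δ) = (X ^ δ)⁻¹ := Real.rpow_neg hX0.le δ
    rcases le_or_gt ((X ^ δ) ^ 3) 4 with h | h
    · rw [Gz_eq hz h]
      have h2 : X ^ (-δ) ≤ 1 := Real.rpow_le_one_of_one_le_of_nonpos hX1 (by linarith)
      calc min kap (3 / 2 * C0) * X ^ (-δ) ≤ kap * 1 :=
            mul_le_mul (min_le_left _ _) h2 (by positivity) hk.le
        _ = kap := mul_one _
    · refine le_trans ?_ (Gz_ge hz h.le)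
      rw [hinv, ← div_eq_mul_inv]
      exact div_le_div_of_nonneg_right (min_le_right _ _) hz.le
  have hanti : AntitoneOn (fun u : ℝ => Gz ((u ^ ((3 : ℝ) / 2)) ^ δ)) (Set.uIcc 1 U) := by
    intro u hu v hv huv
    rw [Set.uIcc_of_le (by linarith)] at hu hv
    have hu0 : 0 < u := by linarith [hu.1]
    refine Gz_anti (by positivity) ?_
    exact Real.rpow_le_rpow (by positivity) (Real.rpow_le_rpow hu0.le huv (by norm_num)) hδ.le
  have h2 : ∫ _u in (1 : ℝ)..U, Gz (X ^ δ) ≤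
      ∫ u in (1 : ℝ)..U, Gz ((u ^ ((3 : ℝ) / 2)) ^ δ) := by
    refine intervalIntegral.integral_mono_on (by linarith) intervalIntegrable_const
      hanti.intervalIntegrable fun u hu => ?_
    have hu0 : 0 < u := by linarith [hu.1]
    refine Gz_anti (by positivity) ?_
    rw [← hUX]
    exact Real.rpow_le_rpow (by positivity) (Real.rpow_le_rpow hu0.le hu.2 (by norm_num)) hδ.le
  rw [intervalIntegral.integral_const, smul_eq_mul] at h2
  refine le_trans ?_ h2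
  have h0 : 0 ≤ min kap (3 / 2 * C0) * X ^ (-δ) := by
    have : 0 < min kap (3 / 2 * C0) := lt_min hk (by positivity)
    positivity
  have h3 : 1 / 3 * U * (min kap (3 / 2 * C0) * X ^ (-δ)) ≤ (U - 1) * Gz (X ^ δ) :=
    mul_le_mul (by linarith) h1 h0 (by linarith)
  refine le_trans (le_of_eq ?_) h3
  rw [hU]
  have : X ^ (2 / 3 - δ) = X ^ ((2 : ℝ) / 3) * X ^ (-δ) := by
    rw [← Real.rpow_add hX0]
    congr 1
  rw [this]
  ring

/-- **The asymptotic number of the exceptions.** -/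
theorem ratio {C ν : ℝ} (hC : 0 < C) {δ : ℝ} (hδ : 0 < δ) (hδν : δ < ν) {f : ℝ → ℝ}
    (h : ∀ X : ℝ, 1 ≤ X → |f X -
      ∫ u in (1 : ℝ)..(X ^ ((2 : ℝ) / 3)), Gz ((u ^ ((3 : ℝ) / 2)) ^ δ)| ≤
        C * X ^ (2 / 3 - ν)) :
    Tendsto (fun X : ℝ => f X /
      ∫ u in (1 : ℝ)..(X ^ ((2 : ℝ) / 3)), Gz ((u ^ ((3 : ℝ) / 2)) ^ δ)) atTop (𝓝 1) := by
  obtain ⟨c, hc, hm⟩ := main_ge
  have h1 : Tendsto (fun X : ℝ => C / c * X ^ (-(ν - δ))) atTop (𝓝 0) := by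
    have := (tendsto_rpow_neg_atTop (by linarith : 0 < ν - δ)).const_mul (C / c)
    rwa [mul_zero] at this
  rw [tendsto_iff_dist_tendsto_zero]
  refine squeeze_zero' (Eventually.of_forall fun X => dist_nonneg) ?_ h1
  filter_upwards [eventually_ge_atTop 2] with X hX
  have hX0 : 0 < X := by linarith
  have h2 := h X (by linarith)
  have h3 := hm δ hδ X hX
  obtain ⟨I, hI⟩ : ∃ I : ℝ,
    I = ∫ u in (1 : ℝ)..(X ^ ((2 : ℝ) / 3)), Gz ((u ^ ((3 : ℝ) / 2)) ^ δ) := ⟨_, rfl⟩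
  rw [← hI] at h2 h3 ⊢
  have h4 : 0 < c * X ^ (2 / 3 - δ) := by positivity
  have hI0 : 0 < I := lt_of_lt_of_le h4 h3
  have h5 : f X / I - 1 = (f X - I) / I := by
    field_simp
  rw [Real.dist_eq, h5, abs_div, abs_of_pos hI0, div_le_iff₀ hI0]
  refine h2.trans ?_
  have h6 : C / c * X ^ (-(ν - δ)) * (c * X ^ (2 / 3 - δ)) ≤ C / c * X ^ (-(ν - δ)) * I :=
    mul_le_mul_of_nonneg_left h3 (by positivity)
  refine le_trans (le_of_eq ?_) h6
  have h7 : X ^ (2 / 3 - ν) = X ^ (-(ν - δ)) * X ^ (2 / 3 - δ) := by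
    rw [← Real.rpow_add hX0]
    congr 1
    ring
  rw [h7]
  field_simp

end Pool.Agent.V7H9.AL
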