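import Pool.Agent.TH498.AR.Loc2
import Pool.Agent.V7H9.AL.Area
import Pool.Agent.V7H9.AL.Dens

set_option autoImplicit false

/-!
# The number of triples with a given repeated part and `a ≤ l b`
-/

namespace Pool.Agent.V7H9.AL

open Finset Filter Topology Pool.Agent.TH498.AR

/-- the coprime pairs with repeated part `w`, `a ≤ l b` and `a b (a + b) ≤ x ^ 3` -/
def Nl (l : ℝ) (w : ℕ) (x : ℝ) : Set (ℕ × ℕ) :=
  {p | 0 < p.1 ∧ p.1 ≤ p.2 ∧ (p.1 : ℝ) ≤ l * p.2 ∧ Nat.Coprime p.1 p.2 ∧ psi3 ∅ p = w ∧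
    (p.1 : ℝ) * p.2 * (p.1 + p.2) ≤ x ^ 3}

/-- the primes up to `P0` -/
def PP (P0 : ℕ) : Finset ℕ := (range (P0 + 1)).filter Nat.Prime

lemma mem_PP {P0 q : ℕ} : q ∈ PP P0 ↔ q ≤ P0 ∧ q.Prime := by
  unfold PP
  rw [mem_filter, mem_range, Nat.lt_succ_iff]

lemma PP_prime (P0 : ℕ) : ∀ q ∈ PP P0, q.Prime := fun _ hq => (mem_PP.1 hq).2

/-- the two forms of the local conditions -/
lemma Ls_iff {w : ℕ} (hw : 0 < w) (P0 : ℕ) (p : ℕ × ℕ) : Ls w (PP P0) p ↔ Rloc w P0 p := by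
  unfold Ls Rloc Lc
  constructor
  · intro h q hq hqP
    obtain ⟨a1, a2, a3⟩ := h q (mem_PP.2 ⟨hqP, hq⟩)
    exact ⟨a1, fun hqw => a2 (hq.factorization_pos_of_dvd hw.ne' hqw), a3⟩
  · intro h q hq
    obtain ⟨hqP, hq⟩ := mem_PP.1 hq
    obtain ⟨a1, a2, a3⟩ := h q hq hqP
    exact ⟨a1, fun he => a2 (Nat.dvd_of_factorization_pos he.ne'), a3⟩

/-- the density of the classes -/
noncomputable def Dw (w P0 : ℕ) : ℝ := ∏ q ∈ PP P0, dd q (w.factorization q)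

lemma Nl_finite (l : ℝ) (w : ℕ) (x : ℝ) : (Nl l w x).Finite :=
  (VV_finite x).subset fun _ hp => ⟨hp.1, hp.2.1, hp.2.2.2.2.2⟩

/-- **The approximation.** -/
theorem Nl_approx {w : ℕ} (hw : 0 < w) {l : ℝ} (hl : 0 < l) (hl1 : l ≤ 1) {η : ℝ} (hη : 0 < η)
    (hη1 : η ≤ 1) {P0 : ℕ} (hP0 : w + 1 ≤ P0) {x : ℝ} (hx : 1 ≤ x) :
    |((Nl l w x).ncard : ℝ) - J l η * Dw w P0 * x ^ 2| ≤
      (2 * Real.sqrt η + 5 / (η * P0)) * x ^ 2 +
        (Qs w (PP P0) : ℝ) ^ 2 * (8 + 4 * Ph l η) * x := by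
  classical
  obtain ⟨Q, hQ⟩ : ∃ Q : ℕ, Q = Qs w (PP P0) := ⟨_, rfl⟩
  have hQ0 : 0 < Q := by rw [hQ]; exact Qs_pos (PP_prime P0)
  have hQ1 : (0 : ℝ) < Q := by exact_mod_cast hQ0
  have hx0 : 0 < x := by linarith
  have hPh := Ph_nonneg l η
  set T : Finset (ℕ × ℕ) := (range Q ×ˢ range Q).filter (fun t => Ls w (PP P0) t) with hT
  have hTc : (T.card : ℝ) = Dw w P0 * (Q : ℝ) ^ 2 := by
    have := card_Ls w (PP_prime P0)
    unfold cnt at this
    rw [hT, hQ]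
    exact this
  have hTc2 : (T.card : ℝ) ≤ (Q : ℝ) ^ 2 := by
    have : T.card ≤ Q * Q := by
      refine (card_filter_le _ _).trans ?_
      rw [card_product, card_range]
    rw [sq]
    exact_mod_cast this
  have hLC := fun t : ℕ × ℕ => class_count hl hl1 hη hη1 hQ0 t.1 t.2 hx
  have hNfin := Nl_finite l w x
  set NF : Finset (ℕ × ℕ) := hNfin.toFinset with hNF
  set UF : Finset (ℕ × ℕ) := T.biUnion (fun t => (hLC t).1.toFinset) with hUF
  have hNc : ((Nl l w x).ncard : ℝ) = (NF.card : ℝ) := by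
    rw [hNF, Set.ncard_eq_toFinset_card _ hNfin]
  have hUc : (UF.card : ℝ) = ∑ t ∈ T, ((Cl l η Q t.1 t.2 x).ncard : ℝ) := by
    rw [hUF, card_biUnion]
    · push_cast
      refine sum_congr rfl fun t _ => ?_
      exact_mod_cast (Set.ncard_eq_toFinset_card _ (hLC t).1).symm
    · intro t ht t' ht' hne
      rw [Function.onFun, disjoint_left]
      intro p hp hp'
      rw [Set.Finite.mem_toFinset] at hp hp'
      apply hne
      have u1 := (mem_product.1 (mem_filter.1 ht).1)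
      have u2 := (mem_product.1 (mem_filter.1 ht').1)
      rw [mem_range, mem_range] at u1 u2
      have v1 := hp.2.2.2.2.1.symm.trans hp'.2.2.2.2.1
      have v2 := hp.2.2.2.2.2.symm.trans hp'.2.2.2.2.2
      rw [Nat.mod_eq_of_lt u1.1, Nat.mod_eq_of_lt u2.1] at v1
      rw [Nat.mod_eq_of_lt u1.2, Nat.mod_eq_of_lt u2.2] at v2
      exact Prod.ext v1 v2
  have hU : |(UF.card : ℝ) - J l η * Dw w P0 * x ^ 2| ≤
      (Q : ℝ) ^ 2 * (8 + 4 * Ph l η) * x := by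
    have e1 : J l η * Dw w P0 * x ^ 2 = ∑ t ∈ T, J l η / (Q : ℝ) ^ 2 * x ^ 2 := by
      rw [sum_const, nsmul_eq_mul, hTc]
      field_simp
    rw [hUc, e1, ← sum_sub_distrib]
    refine (abs_sum_le_sum_abs _ _).trans ((sum_le_sum fun t _ => (hLC t).2).trans ?_)
    rw [sum_const, nsmul_eq_mul, mul_assoc]
    exact mul_le_mul_of_nonneg_right hTc2 (by positivity)
  -- the two differences
  have hd1 : ((NF \ UF).card : ℝ) ≤ 2 * Real.sqrt η * x ^ 2 := by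
    refine cusp_count hη hx _ fun p hp => ?_
    obtain ⟨hpN, hpU⟩ := Finset.mem_sdiff.1 hp
    rw [hNF, Set.Finite.mem_toFinset] at hpN
    obtain ⟨a1, a2, a2', a3, a4, a5⟩ := hpN
    refine ⟨⟨a1, a2, a5⟩, ?_⟩
    by_contra hcon
    push Not at hcon
    apply hpU
    rw [hUF, mem_biUnion]
    refine ⟨(p.1 % Q, p.2 % Q), ?_, ?_⟩
    · rw [hT, mem_filter, mem_product, mem_range, mem_range]
      refine ⟨⟨Nat.mod_lt _ hQ0, Nat.mod_lt _ hQ0⟩, ?_⟩
      refine Per_Ls w (PP P0) p _ ?_ ?_ ((Ls_iff hw P0 p).2 (Rloc_of hw a1 (by omega) a3 a4))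
      · rw [← hQ, Nat.mod_mod]
      · rw [← hQ, Nat.mod_mod]
    · rw [Set.Finite.mem_toFinset]
      exact ⟨a1, a2', hcon, a5, (Nat.mod_mod _ _).symm, (Nat.mod_mod _ _).symm⟩
  have hd2 : ((UF \ NF).card : ℝ) ≤ 5 * x ^ 2 / (η * P0) := by
    refine bad_count hη hx (by omega) _ fun p hp => ?_
    obtain ⟨hpU, hpN⟩ := Finset.mem_sdiff.1 hp
    rw [hUF, mem_biUnion] at hpU
    obtain ⟨t, ht, hpt⟩ := hpU
    rw [Set.Finite.mem_toFinset] at hpt
    obtain ⟨a1, a2, a3, a4, a5, a6⟩ := hpt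
    have a2' : p.1 ≤ p.2 := by
      have h0 : (0 : ℝ) ≤ p.2 := Nat.cast_nonneg _
      have : (p.1 : ℝ) ≤ p.2 := by nlinarith
      exact_mod_cast this
    refine ⟨⟨a1, a2', a4⟩, a3, ?_⟩
    by_contra hcon
    push Not at hcon
    apply hpN
    rw [hNF, Set.Finite.mem_toFinset]
    have hR : Rloc w P0 p := by
      rw [← Ls_iff hw]
      refine Per_Ls w (PP P0) t _ ?_ ?_ (mem_filter.1 ht).2
      · rw [← hQ]; exact a5.symm
      · rw [← hQ]; exact a6.symm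
    obtain ⟨b1, b2⟩ := of_Rloc hw (by omega) a1 (by omega) hR (by
      intro q hq hqP
      obtain ⟨c1, c2⟩ := hcon q hq hqP
      exact ⟨fun h => c1 h.1 h.2, c2⟩)
    exact ⟨a1, a2', a2, b1, b2, a4⟩
  have hd3 : |(NF.card : ℝ) - UF.card| ≤ (NF \ UF).card + (UF \ NF).card := by
    have e1 : (NF.card : ℝ) ≤ UF.card + (NF \ UF).card := by
      have : NF.card ≤ UF.card + (NF \ UF).card := by
        have := card_le_card_sdiff_add_card (s := NF) (t := UF)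
        omega
      exact_mod_cast this
    have e2 : (UF.card : ℝ) ≤ NF.card + (UF \ NF).card := by
      have : UF.card ≤ NF.card + (UF \ NF).card := by
        have := card_le_card_sdiff_add_card (s := UF) (t := NF)
        omega
      exact_mod_cast this
    have n1 : (0 : ℝ) ≤ ((NF \ UF).card : ℝ) := Nat.cast_nonneg _
    have n2 : (0 : ℝ) ≤ ((UF \ NF).card : ℝ) := Nat.cast_nonneg _
    rw [abs_le]
    constructor <;> linarith
  rw [hNc, ← hQ]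
  have e : (NF.card : ℝ) - J l η * Dw w P0 * x ^ 2 =
      (NF.card - UF.card) + (UF.card - J l η * Dw w P0 * x ^ 2) := by ring
  rw [e]
  refine (abs_add_le _ _).trans ?_
  have h5 : 5 * x ^ 2 / (η * P0) = 5 / (η * P0) * x ^ 2 := by ring
  linarith

lemma dd_nonneg {q : ℕ} (hq : q.Prime) (e : ℕ) : 0 ≤ dd q e := by
  have h := card_Lc hq e
  have h0 : (0 : ℝ) < ((q ^ (e + 2) : ℕ) : ℝ) := by exact_mod_cast pow_pos hq.pos _
  by_contra hcon
  push Not at hcon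
  have h2 : dd q e * ((q ^ (e + 2) : ℕ) : ℝ) ^ 2 < 0 := mul_neg_of_neg_of_pos hcon (by positivity)
  rw [← h] at h2
  exact absurd h2 (not_lt.2 (Nat.cast_nonneg _))

lemma dd_le_one {q : ℕ} (hq : q.Prime) (e : ℕ) : dd q e ≤ 1 := by
  have h := card_Lc hq e
  have h0 : (0 : ℝ) < ((q ^ (e + 2) : ℕ) : ℝ) := by exact_mod_cast pow_pos hq.pos _
  have h1 : (((range (q ^ (e + 2)) ×ˢ range (q ^ (e + 2))).filter (Lc q e)).card : ℝ) ≤
      ((q ^ (e + 2) : ℕ) : ℝ) ^ 2 := by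
    have : ((range (q ^ (e + 2)) ×ˢ range (q ^ (e + 2))).filter (Lc q e)).card ≤
        q ^ (e + 2) * q ^ (e + 2) := by
      refine (card_filter_le _ _).trans ?_
      rw [card_product, card_range]
    rw [sq]
    exact_mod_cast this
  by_contra hcon
  push Not at hcon
  have h2 : 1 * ((q ^ (e + 2) : ℕ) : ℝ) ^ 2 < dd q e * ((q ^ (e + 2) : ℕ) : ℝ) ^ 2 :=
    mul_lt_mul_of_pos_right hcon (by positivity)
  rw [← h] at h2
  linarith

lemma Dw_nonneg (w P0 : ℕ) : 0 ≤ Dw w P0 :=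
  prod_nonneg fun q hq => dd_nonneg (PP_prime P0 q hq) _

lemma Dw_le_one (w P0 : ℕ) : Dw w P0 ≤ 1 :=
  prod_le_one (fun q hq => dd_nonneg (PP_prime P0 q hq) _)
    (fun q hq => dd_le_one (PP_prime P0 q hq) _)

/-- **The limit**, for given convergence of the densities. -/
theorem Nl_limit {w : ℕ} (hw : 0 < w) {l : ℝ} (hl : 0 < l) (hl1 : l ≤ 1) {δ : ℝ}
    (hδ : Tendsto (fun P0 : ℕ => Dw w P0) atTop (𝓝 δ)) :
    Tendsto (fun x : ℝ => ((Nl l w x).ncard : ℝ) / x ^ 2) atTop (𝓝 (Ar l * δ)) := by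
  rw [Metric.tendsto_nhds]
  intro ε hε
  have hAr0 : 0 ≤ Ar l := (Ar_small hl).1
  -- the choice of `v`
  obtain ⟨v, hv0, hvl, hv1, hv2⟩ : ∃ v : ℝ, 0 < v ∧ v ≤ l ∧ 2 * v ^ (1 / 3 : ℝ) ≤ ε / 6 ∧
      2 * Real.sqrt (Sf v) ≤ ε / 6 := by
    refine ⟨min l ((ε / 12) ^ 3), lt_min hl (by positivity), min_le_left _ _, ?_, ?_⟩
    · have h1 : (min l ((ε / 12) ^ 3)) ^ (1 / 3 : ℝ) ≤ ((ε / 12) ^ 3) ^ (1 / 3 : ℝ) :=
        Real.rpow_le_rpow (le_min hl.le (by positivity)) (min_le_right _ _) (by norm_num)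
      have h2 : ((ε / 12) ^ 3) ^ (1 / 3 : ℝ) = ε / 12 := by
        rw [← Real.rpow_natCast, ← Real.rpow_mul (by positivity)]
        norm_num
      linarith
    · have h0 : 0 < min l ((ε / 12) ^ 3) := lt_min hl (by positivity)
      have h1 := Sf_le_rpow h0
      have h2 : (min l ((ε / 12) ^ 3)) ^ (2 / 3 : ℝ) ≤ ((ε / 12) ^ 3) ^ (2 / 3 : ℝ) :=
        Real.rpow_le_rpow h0.le (min_le_right _ _) (by norm_num)
      have h3 : ((ε / 12) ^ 3) ^ (2 / 3 : ℝ) = (ε / 12) ^ 2 := by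
        rw [← Real.rpow_natCast, ← Real.rpow_mul (by positivity), ← Real.rpow_natCast]
        norm_num
      have h4 : Real.sqrt (Sf (min l ((ε / 12) ^ 3))) ≤ ε / 12 := by
        rw [Real.sqrt_le_left (by positivity)]
        linarith
      linarith
  obtain ⟨η, hη⟩ : ∃ η : ℝ, η = Sf v := ⟨_, rfl⟩
  have hη0 : 0 < η := by rw [hη]; exact Sf_pos hv0
  have hη1 : η ≤ 1 := by rw [hη]; exact Sf_le hv0 (hvl.trans hl1)
  have hJ : |J l η - Ar l| ≤ ε / 6 := by rw [hη]; exact (J_approx hl hl1 hv0 hvl).trans hv1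
  rw [← hη] at hv2
  -- the choice of `P0`
  obtain ⟨P0, hP1, hP2, hP3⟩ : ∃ P0 : ℕ, w + 1 ≤ P0 ∧ 5 / (η * P0) ≤ ε / 6 ∧
      Ar l * |Dw w P0 - δ| ≤ ε / 6 := by
    have h1 : ∀ᶠ P0 : ℕ in atTop, Ar l * |Dw w P0 - δ| ≤ ε / 6 := by
      have h2 : Tendsto (fun P0 : ℕ => Ar l * |Dw w P0 - δ|) atTop (𝓝 (Ar l * |δ - δ|)) :=
        ((hδ.sub_const δ).abs).const_mul _
      rw [sub_self, abs_zero, mul_zero] at h2
      exact h2.eventually (eventually_le_nhds (by positivity))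
    obtain ⟨P0, h2, h3, h4⟩ := (h1.and ((eventually_ge_atTop (w + 1)).and
      (eventually_ge_atTop ⌈30 / (η * ε)⌉₊))).exists
    refine ⟨P0, h3, ?_, h2⟩
    have h5 : 30 / (η * ε) ≤ P0 := (Nat.le_ceil _).trans (by exact_mod_cast h4)
    have h6 : (0 : ℝ) < P0 := lt_of_lt_of_le (by positivity) h5
    rw [div_le_iff₀ (by positivity)] at h5
    rw [div_le_iff₀ (by positivity)]
    nlinarith
  obtain ⟨C, hC⟩ : ∃ C : ℝ, C = (Qs w (PP P0) : ℝ) ^ 2 * (8 + 4 * Ph l η) := ⟨_, rfl⟩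
  have hC0 : 0 ≤ C := by
    have := Ph_nonneg l η
    rw [hC]
    positivity
  filter_upwards [eventually_ge_atTop (max 1 (6 * C / ε))] with x hx
  have hx1 : 1 ≤ x := (le_max_left _ _).trans hx
  have hx2 : 6 * C / ε ≤ x := (le_max_right _ _).trans hx
  have hx0 : 0 < x := by linarith
  have h1 := Nl_approx hw hl hl1 hη0 hη1 hP1 hx1
  rw [← hC] at h1
  rw [div_le_iff₀ hε] at hx2
  rw [Real.dist_eq]
  have e : ((Nl l w x).ncard : ℝ) / x ^ 2 - Ar l * δ =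
      (((Nl l w x).ncard : ℝ) - J l η * Dw w P0 * x ^ 2) / x ^ 2 +
        (J l η - Ar l) * Dw w P0 + Ar l * (Dw w P0 - δ) := by
    field_simp
    ring
  rw [e]
  have b1 : |(((Nl l w x).ncard : ℝ) - J l η * Dw w P0 * x ^ 2) / x ^ 2| ≤ ε / 2 := by
    rw [abs_div, abs_of_pos (by positivity : 0 < x ^ 2), div_le_iff₀ (by positivity)]
    refine h1.trans ?_
    have h2 : (2 * Real.sqrt η + 5 / (η * P0)) * x ^ 2 ≤ (ε / 6 + ε / 6) * x ^ 2 :=
      mul_le_mul_of_nonneg_right (add_le_add hv2 hP2) (by positivity)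
    have h3 : C * x ≤ ε / 6 * x ^ 2 := by nlinarith
    linarith
  have b2 : |(J l η - Ar l) * Dw w P0| ≤ ε / 6 := by
    rw [abs_mul, abs_of_nonneg (Dw_nonneg w P0)]
    calc |J l η - Ar l| * Dw w P0 ≤ ε / 6 * 1 :=
          mul_le_mul hJ (Dw_le_one w P0) (Dw_nonneg w P0) (by positivity)
      _ = ε / 6 := mul_one _
  have b3 : |Ar l * (Dw w P0 - δ)| ≤ ε / 6 := by
    rw [abs_mul, abs_of_nonneg hAr0]
    exact hP3
  have b4 := abs_add_le ((((Nl l w x).ncard : ℝ) - J l η * Dw w P0 * x ^ 2) / x ^ 2 +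
        (J l η - Ar l) * Dw w P0) (Ar l * (Dw w P0 - δ))
  have b5 := abs_add_le ((((Nl l w x).ncard : ℝ) - J l η * Dw w P0 * x ^ 2) / x ^ 2)
        ((J l η - Ar l) * Dw w P0)
  linarith

end Pool.Agent.V7H9.AL
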