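import Pool.Agent.V7H9.AL.Wts

set_option autoImplicit false

/-!
# The points of the region with a periodic property
-/

namespace Pool.Agent.V7H9.AL

open Finset Filter Topology Pool.Agent.TH498.AR

/-- the pairs with `η x ≤ a ≤ l b`, `a b (a + b) ≤ x ^ 3` -/
def Rg (l η x : ℝ) : Set (ℕ × ℕ) :=
  {p | 0 < p.1 ∧ (p.1 : ℝ) ≤ l * p.2 ∧ η * x ≤ p.1 ∧ (p.1 : ℝ) * p.2 * (p.1 + p.2) ≤ x ^ 3}

lemma Rg_finite {l η x : ℝ} (hl1 : l ≤ 1) : (Rg l η x).Finite := by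
  refine (VV_finite x).subset ?_
  rintro p ⟨a1, a2, -, a4⟩
  have h0 : (0 : ℝ) ≤ p.2 := Nat.cast_nonneg _
  have : (p.1 : ℝ) ≤ p.2 := by nlinarith
  exact ⟨a1, by exact_mod_cast this, a4⟩

lemma cnt_le (Q : ℕ) (S : ℕ × ℕ → Prop) [DecidablePred S] : (cnt Q S : ℝ) ≤ (Q : ℝ) ^ 2 := by
  have : cnt Q S ≤ Q * Q := by
    unfold cnt
    refine (card_filter_le _ _).trans ?_
    rw [card_product, card_range]
  rw [sq]
  exact_mod_cast this

/-- **The count with a periodic property.** -/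
theorem per_count {l : ℝ} (hl : 0 < l) (hl1 : l ≤ 1) {η : ℝ} (hη : 0 < η) (hη1 : η ≤ 1) {Q : ℕ}
    (hQ0 : 0 < Q) {S : ℕ × ℕ → Prop} [DecidablePred S] (hS : Per Q S) {x : ℝ} (hx : 1 ≤ x) :
    |(({p | p ∈ Rg l η x ∧ S p} : Set (ℕ × ℕ)).ncard : ℝ) -
      J l η * (cnt Q S / (Q : ℝ) ^ 2) * x ^ 2| ≤ (Q : ℝ) ^ 2 * (8 + 4 * Ph l η) * x := by
  classical
  have hQ1 : (0 : ℝ) < Q := by exact_mod_cast hQ0
  have hx0 : 0 < x := by linarith
  have hPh := Ph_nonneg l η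
  set T : Finset (ℕ × ℕ) := (range Q ×ˢ range Q).filter S with hT
  have hTc : (T.card : ℝ) = cnt Q S := rfl
  have hTc2 : (T.card : ℝ) ≤ (Q : ℝ) ^ 2 := by rw [hTc]; exact cnt_le Q S
  have hLC := fun t : ℕ × ℕ => class_count hl hl1 hη hη1 hQ0 t.1 t.2 hx
  set UF : Finset (ℕ × ℕ) := T.biUnion (fun t => (hLC t).1.toFinset) with hUF
  have hset : ({p | p ∈ Rg l η x ∧ S p} : Set (ℕ × ℕ)) = (UF : Set (ℕ × ℕ)) := by
    ext p
    rw [mem_coe, hUF, mem_biUnion]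
    constructor
    · rintro ⟨⟨a1, a2, a3, a4⟩, a5⟩
      refine ⟨(p.1 % Q, p.2 % Q), ?_, ?_⟩
      · rw [hT, mem_filter, mem_product, mem_range, mem_range]
        refine ⟨⟨Nat.mod_lt _ hQ0, Nat.mod_lt _ hQ0⟩, ?_⟩
        refine hS p _ ?_ ?_ a5
        · rw [Nat.mod_mod]
        · rw [Nat.mod_mod]
      · rw [Set.Finite.mem_toFinset]
        exact ⟨a1, a2, a3, a4, (Nat.mod_mod _ _).symm, (Nat.mod_mod _ _).symm⟩
    · rintro ⟨t, ht, hp⟩
      rw [Set.Finite.mem_toFinset] at hp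
      obtain ⟨a1, a2, a3, a4, a5, a6⟩ := hp
      exact ⟨⟨a1, a2, a3, a4⟩, hS t p a5.symm a6.symm (mem_filter.1 ht).2⟩
  have hUc : (UF.card : ℝ) = ∑ t ∈ T, ((Cl l η Q t.1 t.2 x).ncard : ℝ) := by
    rw [hUF, card_biUnion]
    · push_cast
      refine sum_congr rfl fun t _ => ?_
      exact_mod_cast (Set.ncard_eq_toFinset_card _ (hLC t).1).symm
    · intro t ht t' ht' hne
      rw [Function.onFun, disjoint_left]
      intro p hp hp'
      rw [Set.Finite.mem_toFinset] at hp hp'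
      apply hne
      have u1 := (mem_product.1 (mem_filter.1 ht).1)
      have u2 := (mem_product.1 (mem_filter.1 ht').1)
      rw [mem_range, mem_range] at u1 u2
      have v1 := hp.2.2.2.2.1.symm.trans hp'.2.2.2.2.1
      have v2 := hp.2.2.2.2.2.symm.trans hp'.2.2.2.2.2
      rw [Nat.mod_eq_of_lt u1.1, Nat.mod_eq_of_lt u2.1] at v1
      rw [Nat.mod_eq_of_lt u1.2, Nat.mod_eq_of_lt u2.2] at v2
      exact Prod.ext v1 v2
  rw [hset, Set.ncard_coe_finset]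
  have e1 : J l η * (cnt Q S / (Q : ℝ) ^ 2) * x ^ 2 = ∑ t ∈ T, J l η / (Q : ℝ) ^ 2 * x ^ 2 := by
    rw [sum_const, nsmul_eq_mul, hTc]
    field_simp
  rw [hUc, e1, ← sum_sub_distrib]
  refine (abs_sum_le_sum_abs _ _).trans ((sum_le_sum fun t _ => (hLC t).2).trans ?_)
  rw [sum_const, nsmul_eq_mul, mul_assoc]
  exact mul_le_mul_of_nonneg_right hTc2 (by positivity)

/-- the product formula for the counts -/
theorem cnt_prod {P : Finset ℕ} (hP : ∀ q ∈ P, q.Prime) (k : ℕ → ℕ) (S : ℕ → ℕ × ℕ → Prop)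
    [∀ q, DecidablePred (S q)] (δ : ℕ → ℝ) (h1 : ∀ q ∈ P, Per (q ^ k q) (S q))
    (h2 : ∀ q ∈ P, (cnt (q ^ k q) (S q) : ℝ) = δ q * ((q ^ k q : ℕ) : ℝ) ^ 2) :
    Per (∏ q ∈ P, q ^ k q) (fun p => ∀ q ∈ P, S q p) ∧
    (cnt (∏ q ∈ P, q ^ k q) (fun p => ∀ q ∈ P, S q p) : ℝ) =
      (∏ q ∈ P, δ q) * ((∏ q ∈ P, q ^ k q : ℕ) : ℝ) ^ 2 := by
  classical
  have hPer : ∀ P' : Finset ℕ, P' ⊆ P →
      Per (∏ q ∈ P', q ^ k q) (fun p => ∀ q ∈ P', S q p) := by
    intro P' hP' p p' e1 e2 h q hq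
    have hd : q ^ k q ∣ ∏ q ∈ P', q ^ k q := dvd_prod_of_mem _ hq
    exact h1 q (hP' hq) p p' (Nat.ModEq.of_dvd hd e1) (Nat.ModEq.of_dvd hd e2) (h q hq)
  refine ⟨hPer P subset_rfl, ?_⟩
  have key : ∀ P' : Finset ℕ, P' ⊆ P → (cnt (∏ q ∈ P', q ^ k q) (fun p => ∀ q ∈ P', S q p) : ℝ) =
      (∏ q ∈ P', δ q) * ((∏ q ∈ P', q ^ k q : ℕ) : ℝ) ^ 2 := by
    intro P'
    induction P' using Finset.induction_on with
    | empty =>
      intro _
      have : cnt (∏ q ∈ (∅ : Finset ℕ), q ^ k q) (fun p => ∀ q ∈ (∅ : Finset ℕ), S q p) = 1 := by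
        unfold cnt
        simp
      rw [this]
      simp
    | insert q P' hq ih =>
      intro hsub
      have hqP : q ∈ P := hsub (mem_insert_self q P')
      have hsub' : P' ⊆ P := (subset_insert q P').trans hsub
      have hqp : q.Prime := hP q hqP
      have hpos : 0 < ∏ r ∈ P', r ^ k r :=
        Finset.prod_pos fun r hr => pow_pos (hP r (hsub' hr)).pos _
      have hc : Nat.Coprime (q ^ k q) (∏ r ∈ P', r ^ k r) := by
        refine Nat.Coprime.prod_right fun r hr => ?_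
        refine Nat.Coprime.pow _ _ ((Nat.coprime_primes hqp (hP r (hsub' hr))).2 ?_)
        rintro rfl
        exact hq hr
      have h := cnt_mul (pow_pos hqp.pos (k q)) hpos hc (h1 q hqP) (hPer P' hsub')
      have hS : cnt (∏ r ∈ insert q P', r ^ k r) (fun p => ∀ r ∈ insert q P', S r p) =
          cnt (q ^ k q * ∏ r ∈ P', r ^ k r) (fun p => S q p ∧ ∀ r ∈ P', S r p) := by
        unfold cnt
        rw [prod_insert hq]
        congr 1
        refine filter_congr fun p _ => ?_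
        rw [forall_mem_insert]
      rw [hS, h, prod_insert hq, prod_insert hq]
      push_cast
      rw [ih hsub', h2 q hqP]
      push_cast
      ring
  exact key P subset_rfl

/-- the bad local behaviour at a prime that does not divide `w` -/
def Bd (q : ℕ) (p : ℕ × ℕ) : Prop := ¬ Lc q 0 p

instance (q : ℕ) : DecidablePred (Bd q) := fun _ => by unfold Bd; infer_instance

lemma Per_Bd (q : ℕ) : Per (q ^ 2) (Bd q) := by
  intro p p' h1 h2 h h3
  exact h (Per_Lc q 0 p' p h1.symm h2.symm h3)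

lemma cnt_Bd {q : ℕ} (hq : q.Prime) :
    (cnt (q ^ 2) (Bd q) : ℝ) = (1 - dd q 0) * ((q ^ 2 : ℕ) : ℝ) ^ 2 := by
  have h := card_filter_add_card_filter_not (s := range (q ^ 2) ×ˢ range (q ^ 2))
    (fun p : ℕ × ℕ => Lc q 0 p)
  have h1 := card_Lc hq 0
  have h2 : ((range (q ^ 2) ×ˢ range (q ^ 2)).filter (Lc q 0)).card + cnt (q ^ 2) (Bd q) =
      q ^ 2 * q ^ 2 := by
    rw [card_product, card_range] at h
    exact h
  have h3 : (((range (q ^ 2) ×ˢ range (q ^ 2)).filter (Lc q 0)).card : ℝ) +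
      cnt (q ^ 2) (Bd q) = ((q ^ 2 : ℕ) : ℝ) * ((q ^ 2 : ℕ) : ℝ) := by exact_mod_cast h2
  have h4 : (((range (q ^ 2) ×ˢ range (q ^ 2)).filter (Lc q 0)).card : ℝ) =
      dd q 0 * ((q ^ 2 : ℕ) : ℝ) ^ 2 := h1
  rw [h4] at h3
  linarith

/-- the truncated inclusion-exclusion -/
theorem trunc {D : ℝ} (hD : 1 ≤ D) (B : Finset ℕ) (hB : ∀ q ∈ B, 1 ≤ q ∧ (q : ℝ) ≤ D) :
    |(if B = ∅ then (1 : ℝ) else 0) -
      ∑ S ∈ B.powerset with ((∏ q ∈ S, q : ℕ) : ℝ) ≤ D, (-1 : ℝ) ^ S.card| ≤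
      ((B.powerset.filter (fun S => D < ((∏ q ∈ S, q : ℕ) : ℝ) ∧
        ((∏ q ∈ S, q : ℕ) : ℝ) ≤ D * D)).card : ℝ) := by
  classical
  rcases B.eq_empty_or_nonempty with h | ⟨r, hr⟩
  · subst h
    have : ((∅ : Finset ℕ).powerset.filter (fun S => ((∏ q ∈ S, q : ℕ) : ℝ) ≤ D)) = {∅} := by
      ext S
      simp only [powerset_empty, mem_filter, mem_singleton]
      constructor
      · exact fun h => h.1
      · rintro rfl
        simpa using hD
    rw [this]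
    simp
  · rw [if_neg (Finset.nonempty_iff_ne_empty.1 ⟨r, hr⟩)]
    obtain ⟨B', hB', hBe⟩ : ∃ B' : Finset ℕ, r ∉ B' ∧ B = insert r B' :=
      ⟨B.erase r, notMem_erase r B, (insert_erase hr).symm⟩
    have hr1 := hB r hr
    rw [zero_sub, abs_neg, sum_filter, hBe, sum_powerset_insert hB', ← sum_add_distrib]
    have e : ∀ S ∈ B'.powerset, (if ((∏ q ∈ S, q : ℕ) : ℝ) ≤ D then (-1 : ℝ) ^ S.card else 0) +
        (if ((∏ q ∈ insert r S, q : ℕ) : ℝ) ≤ D then (-1 : ℝ) ^ (insert r S).card else 0) =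
        if ((∏ q ∈ S, q : ℕ) : ℝ) ≤ D ∧ D < ((∏ q ∈ insert r S, q : ℕ) : ℝ)
          then (-1 : ℝ) ^ S.card else 0 := by
      intro S hS
      have hrS : r ∉ S := fun h => hB' (mem_powerset.1 hS h)
      rw [prod_insert hrS, card_insert_of_notMem hrS]
      have hle : ((∏ q ∈ S, q : ℕ) : ℝ) ≤ ((r * ∏ q ∈ S, q : ℕ) : ℝ) := by
        exact_mod_cast Nat.le_mul_of_pos_left _ hr1.1
      by_cases h1 : ((r * ∏ q ∈ S, q : ℕ) : ℝ) ≤ D
      · rw [if_pos (hle.trans h1), if_pos h1, if_neg (fun h => absurd h1 (not_le.2 h.2)), pow_succ]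
        ring
      · by_cases h2 : ((∏ q ∈ S, q : ℕ) : ℝ) ≤ D
        · rw [if_pos h2, if_neg h1, if_pos ⟨h2, not_le.1 h1⟩, add_zero]
        · rw [if_neg h2, if_neg h1, if_neg (fun h => h2 h.1), add_zero]
    rw [sum_congr rfl e, ← sum_filter]
    refine (abs_sum_le_sum_abs _ _).trans ?_
    have e2 : ∀ S ∈ (B'.powerset.filter (fun S => ((∏ q ∈ S, q : ℕ) : ℝ) ≤ D ∧
        D < ((∏ q ∈ insert r S, q : ℕ) : ℝ))), |(-1 : ℝ) ^ S.card| = 1 := by
      intro S _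
      rw [abs_pow, abs_neg, abs_one, one_pow]
    rw [sum_congr rfl e2, sum_const, nsmul_eq_mul, mul_one]
    have hcard : (B'.powerset.filter (fun S => ((∏ q ∈ S, q : ℕ) : ℝ) ≤ D ∧
        D < ((∏ q ∈ insert r S, q : ℕ) : ℝ))).card ≤
        ((insert r B').powerset.filter (fun S => D < ((∏ q ∈ S, q : ℕ) : ℝ) ∧
          ((∏ q ∈ S, q : ℕ) : ℝ) ≤ D * D)).card := by
      refine card_le_card_of_injOn (fun S => insert r S) ?_ ?_
      · intro S hS
        rw [mem_coe, mem_filter, mem_powerset] at hS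
        obtain ⟨h1, h2, h3⟩ := hS
        have hrS : r ∉ S := fun h => hB' (h1 h)
        rw [mem_coe, mem_filter, mem_powerset]
        refine ⟨insert_subset_insert r h1, h3, ?_⟩
        rw [prod_insert hrS]
        push_cast
        push_cast at h2
        exact mul_le_mul hr1.2 h2 (by positivity) (by linarith)
      · intro S hS S' hS' h
        rw [mem_coe, mem_filter, mem_powerset] at hS hS'
        have hrS : r ∉ S := fun h => hB' (hS.1 h)
        have hrS' : r ∉ S' := fun h => hB' (hS'.1 h)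
        simp only at h
        rw [← erase_insert hrS, ← erase_insert hrS', h]
    exact_mod_cast hcard

end Pool.Agent.V7H9.AL
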