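import Pool.Agent.TH498.AR.Riem

set_option autoImplicit false

/-!
# The pairs of a residue class with `a ≤ l b` and `a b (a + b) ≤ x ^ 3`
-/

namespace Pool.Agent.V7H9.AL

open Finset Filter Topology Pool.Agent.TH498.AR

/-- the length of the interval of `t ≥ s / l` with `s t (s + t) ≤ 1` -/
noncomputable def Ph (l s : ℝ) : ℝ := max 0 (gg s - s / l)

lemma Ph_nonneg (l s : ℝ) : 0 ≤ Ph l s := le_max_left _ _

lemma Ph_anti {l s s' : ℝ} (hl : 0 < l) (hs : 0 < s) (h : s ≤ s') : Ph l s' ≤ Ph l s := by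
  unfold Ph
  refine max_le_max le_rfl ?_
  have := gg_anti hs h
  have := div_le_div_of_nonneg_right h hl.le
  linarith

lemma Ph_zero {l s : ℝ} (hl : 0 < l) (hl1 : l ≤ 1) (hs : 1 ≤ s) : Ph l s = 0 := by
  unfold Ph
  refine max_eq_left ?_
  have h1 := gg_lt hs
  have h2 : s ≤ s / l := by
    rw [le_div_iff₀ hl]
    nlinarith
  linarith

/-- the truncation -/
noncomputable def PL (l η s : ℝ) : ℝ := Ph l (max s η)

lemma PL_anti {l η : ℝ} (hl : 0 < l) (hη : 0 < η) : Antitone (PL l η) := by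
  intro s s' h
  unfold PL
  exact Ph_anti hl (lt_of_lt_of_le hη (le_max_right _ _)) (max_le_max h le_rfl)

lemma PL_nonneg (l η s : ℝ) : 0 ≤ PL l η s := Ph_nonneg _ _

lemma PL_le {l η : ℝ} (hl : 0 < l) (hη : 0 < η) (s : ℝ) : PL l η s ≤ Ph l η := by
  unfold PL
  exact Ph_anti hl hη (le_max_right _ _)

lemma PL_zero {l η s : ℝ} (hl : 0 < l) (hl1 : l ≤ 1) (hs : 1 ≤ s) : PL l η s = 0 := by
  unfold PL
  exact Ph_zero hl hl1 (hs.trans (le_max_left _ _))

lemma PL_eq {l η s : ℝ} (hs : η ≤ s) : PL l η s = Ph l s := by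
  unfold PL
  rw [max_eq_left hs]

lemma PL_small {l η s : ℝ} (hs : s ≤ η) : PL l η s = Ph l η := by
  unfold PL
  rw [max_eq_right hs]

/-- the Riemann sum over an arithmetic progression -/
theorem riem {f : ℝ → ℝ} (hf : Antitone f) (hf0 : ∀ s, 0 ≤ f s) {B : ℝ} (hB : ∀ s, f s ≤ B)
    (hf1 : ∀ s, 1 ≤ s → f s = 0) {Q r : ℕ} (hQ : 0 < Q) (hrQ : r ≤ Q) {x : ℝ} (hx : 0 < x)
    {n : ℕ} (hn : x ≤ n) :
    |∑ k ∈ range n, f (((r : ℝ) + Q * k) / x) - x / Q * ∫ s in (0 : ℝ)..1, f s| ≤ 2 * B := by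
  have hQ0 : (0 : ℝ) < Q := by exact_mod_cast hQ
  have hQ1 : (1 : ℝ) ≤ Q := by exact_mod_cast hQ
  have hB0 : 0 ≤ B := (hf0 0).trans (hB 0)
  set g : ℝ → ℝ := fun t => f (((r : ℝ) + Q * t) / x) with hg
  have hganti : Antitone g := by
    intro t t' h
    refine hf ?_
    refine div_le_div_of_nonneg_right ?_ hx.le
    have := mul_le_mul_of_nonneg_left h hQ0.le
    linarith
  have h1 := AntitoneOn.integral_le_sum (x₀ := 0) (a := n) (f := g) (hganti.antitoneOn _)
  have h2 := AntitoneOn.sum_le_integral (x₀ := 0) (a := n) (f := g) (hganti.antitoneOn _)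
  simp only [zero_add] at h1 h2
  have h3 : ∑ i ∈ range n, g i ≤ g 0 + ∑ i ∈ range n, g ((i + 1 : ℕ) : ℝ) := by
    have e := Finset.sum_range_succ' (fun i : ℕ => g (i : ℝ)) n
    have e' := Finset.sum_range_succ (fun i : ℕ => g (i : ℝ)) n
    rw [e'] at e
    have hfn : 0 ≤ g (n : ℝ) := hf0 _
    simp only [Nat.cast_zero] at e
    linarith
  have hg0 : g 0 ≤ B := hB _
  -- the integral
  have hint : ∫ t in (0 : ℝ)..n, g t =
      x / Q * ∫ s in ((r : ℝ) / x)..(((r : ℝ) + Q * n) / x), f s := by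
    have e := intervalIntegral.integral_comp_mul_add (a := (0 : ℝ)) (b := (n : ℝ)) f
      (c := (Q : ℝ) / x) (by positivity) ((r : ℝ) / x)
    have e1 : (fun t : ℝ => f ((Q : ℝ) / x * t + (r : ℝ) / x)) = g := by
      funext t
      rw [hg]
      simp only
      congr 1
      field_simp
      ring
    rw [← e1]
    rw [e, smul_eq_mul]
    congr 1
    · rw [inv_div]
    · congr 1
      · simp
      · field_simp
        ring
  have hii : ∀ a b : ℝ, IntervalIntegrable f MeasureTheory.volume a b :=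
    fun a b => hf.intervalIntegrable
  obtain ⟨α, hα⟩ : ∃ α : ℝ, α = (r : ℝ) / x := ⟨_, rfl⟩
  obtain ⟨β, hβ⟩ : ∃ β : ℝ, β = ((r : ℝ) + Q * n) / x := ⟨_, rfl⟩
  rw [← hα, ← hβ] at hint
  have hα0 : 0 ≤ α := by rw [hα]; positivity
  have hβ1 : 1 ≤ β := by
    rw [hβ, le_div_iff₀ hx, one_mul]
    have : (n : ℝ) ≤ Q * n := by
      have : (0 : ℝ) ≤ n := Nat.cast_nonneg _
      nlinarith
    have : (0 : ℝ) ≤ r := Nat.cast_nonneg _
    linarith
  have hsplit : ∫ s in α..β, f s = (∫ s in (0 : ℝ)..1, f s) - (∫ s in (0 : ℝ)..α, f s) +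
      ∫ s in (1 : ℝ)..β, f s := by
    have e1 := intervalIntegral.integral_add_adjacent_intervals (hii 0 α) (hii α β)
    have e2 := intervalIntegral.integral_add_adjacent_intervals (hii 0 1) (hii 1 β)
    linarith
  have hz : ∫ s in (1 : ℝ)..β, f s = 0 := by
    rw [intervalIntegral.integral_congr (g := fun _ => (0 : ℝ))]
    · simp
    · intro s hs
      rw [Set.uIcc_of_le hβ1] at hs
      exact hf1 s hs.1
  have hα2 : 0 ≤ ∫ s in (0 : ℝ)..α, f s :=
    intervalIntegral.integral_nonneg hα0 fun s _ => hf0 _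
  have hα3 : ∫ s in (0 : ℝ)..α, f s ≤ B * α := by
    have : ∫ s in (0 : ℝ)..α, f s ≤ ∫ _ in (0 : ℝ)..α, B :=
      intervalIntegral.integral_mono_on hα0 (hii 0 α) (by simp) fun s _ => hB s
    simpa [mul_comm] using this
  have hα4 : x / Q * (B * α) ≤ B := by
    rw [hα]
    have : x / Q * (B * ((r : ℝ) / x)) = B * ((r : ℝ) / Q) := by
      field_simp
    rw [this]
    have h5 : (r : ℝ) / Q ≤ 1 := by
      rw [div_le_one hQ0]
      exact_mod_cast hrQ
    nlinarith
  have hxQ : 0 < x / Q := by positivity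
  obtain ⟨I, hI⟩ : ∃ I : ℝ, I = ∫ s in (0 : ℝ)..1, f s := ⟨_, rfl⟩
  obtain ⟨I2, hI2⟩ : ∃ I2 : ℝ, I2 = ∫ s in (0 : ℝ)..α, f s := ⟨_, rfl⟩
  rw [← hI2] at hα2 hα3 hsplit
  rw [← hI] at hsplit ⊢
  rw [hz, add_zero] at hsplit
  rw [hint, hsplit] at h1 h2
  have h6 : x / Q * I2 ≤ B := (mul_le_mul_of_nonneg_left hα3 hxQ.le).trans hα4
  have h7 : 0 ≤ x / Q * I2 := by positivity
  have h8 : x / Q * (I - I2) = x / Q * I - x / Q * I2 := by ring
  rw [h8] at h1 h2
  rw [abs_le]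
  constructor
  · linarith
  · linarith

/-- the pairs of the class `(r, s)` modulo `Q` with `η x ≤ a ≤ l b`, `a b (a + b) ≤ x ^ 3` -/
def Cl (l η : ℝ) (Q r s : ℕ) (x : ℝ) : Set (ℕ × ℕ) :=
  {p | 0 < p.1 ∧ (p.1 : ℝ) ≤ l * p.2 ∧ η * x ≤ p.1 ∧ (p.1 : ℝ) * p.2 * (p.1 + p.2) ≤ x ^ 3 ∧
    p.1 % Q = r % Q ∧ p.2 % Q = s % Q}

/-- the values of `b` for given `a` -/
noncomputable def DD (l : ℝ) (Q s : ℕ) (x : ℝ) (a : ℕ) : Finset ℕ :=
  ((range (⌊x * gg (a / x)⌋₊ + 1)).filter (fun b => b % Q = s % Q)) \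
    ((range ⌈(a : ℝ) / l⌉₊).filter (fun b => b % Q = s % Q))

lemma mem_DD {l : ℝ} (hl : 0 < l) {Q s : ℕ} {x : ℝ} (hx : 0 < x) {a b : ℕ} (ha : 0 < a) :
    b ∈ DD l Q s x a ↔ (a : ℝ) ≤ l * b ∧ (a : ℝ) * b * (a + b) ≤ x ^ 3 ∧ b % Q = s % Q := by
  have ha0 : (0 : ℝ) < a := by exact_mod_cast ha
  have hax : 0 < (a : ℝ) / x := by positivity
  have hG := gg_pos hax
  unfold DD
  rw [Finset.mem_sdiff, mem_filter, mem_filter, mem_range, mem_range]
  have key : 0 < b → (b < ⌊x * gg (a / x)⌋₊ + 1 ↔ (a : ℝ) * b * (a + b) ≤ x ^ 3) := by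
    intro hb
    have hb0 : (0 : ℝ) < b := by exact_mod_cast hb
    rw [Nat.lt_succ_iff, Nat.le_floor_iff (by positivity)]
    have h1 : (b : ℝ) ≤ x * gg (a / x) ↔ (b : ℝ) / x ≤ gg (a / x) := by
      rw [div_le_iff₀ hx, mul_comm]
    rw [h1, gg_iff hax (by positivity)]
    have h2 : (a : ℝ) / x * (b / x) * (a / x + b / x) = (a : ℝ) * b * (a + b) / x ^ 3 := by
      field_simp
    rw [h2, div_le_one (by positivity)]
  have key2 : b < ⌈(a : ℝ) / l⌉₊ ↔ ¬ (a : ℝ) ≤ l * b := by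
    rw [Nat.lt_ceil, lt_div_iff₀ hl, not_le, mul_comm]
  have key3 : (a : ℝ) ≤ l * b → 0 < b := by
    intro h
    by_contra hb
    have : b = 0 := by omega
    rw [this] at h
    norm_num at h
    omega
  rw [key2]
  constructor
  · rintro ⟨⟨h1, h2⟩, h3⟩
    have h4 : (a : ℝ) ≤ l * b := by
      by_contra h
      exact h3 ⟨h, h2⟩
    exact ⟨h4, (key (key3 h4)).1 h1, h2⟩
  · rintro ⟨h1, h2, h3⟩
    exact ⟨⟨(key (key3 h1)).2 h2, h3⟩, fun h => h.1 h1⟩

lemma card_DD {l : ℝ} (hl : 0 < l) {Q s : ℕ} (hQ : 0 < Q) {x : ℝ} (hx : 0 < x) {a : ℕ}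
    (ha : 0 < a) : |((DD l Q s x a).card : ℝ) - x / Q * Ph l (a / x)| ≤ 4 := by
  have hQ0 : (0 : ℝ) < Q := by exact_mod_cast hQ
  have hQ1 : (1 : ℝ) ≤ Q := by exact_mod_cast hQ
  have ha0 : (0 : ℝ) < a := by exact_mod_cast ha
  have hax : 0 < (a : ℝ) / x := by positivity
  have hG := gg_pos hax
  obtain ⟨G, hGd⟩ : ∃ G : ℕ, G = ⌊x * gg (a / x)⌋₊ := ⟨_, rfl⟩
  obtain ⟨M, hMd⟩ : ∃ M : ℕ, M = ⌈(a : ℝ) / l⌉₊ := ⟨_, rfl⟩
  have g1 : (G : ℝ) ≤ x * gg (a / x) := by rw [hGd]; exact Nat.floor_le (by positivity)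
  have g2 : x * gg (a / x) < G + 1 := by rw [hGd]; exact Nat.lt_floor_add_one _
  have f1 : (a : ℝ) / l ≤ M := by rw [hMd]; exact Nat.le_ceil _
  have f2 : (M : ℝ) < (a : ℝ) / l + 1 := by rw [hMd]; exact Nat.ceil_lt_add_one (by positivity)
  have hPhi : x / Q * Ph l (a / x) = max 0 (x * gg (a / x) - a / l) / Q := by
    unfold Ph
    have : max 0 (x * gg (a / x) - a / l) = x * max 0 (gg (a / x) - a / x / l) := by
      rw [mul_max_of_nonneg _ _ hx.le, mul_zero, mul_sub]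
      congr 2
      field_simp
    rw [this]
    ring
  rw [hPhi]
  rcases le_or_gt M (G + 1) with h | h
  · have hsub : (range M).filter (fun b => b % Q = s % Q) ⊆
        (range (G + 1)).filter (fun b => b % Q = s % Q) :=
      filter_subset_filter _ (range_subset_range.2 h)
    have hc : ((DD l Q s x a).card : ℝ) =
        (((range (G + 1)).filter (fun b => b % Q = s % Q)).card : ℝ) -
        (((range M).filter (fun b => b % Q = s % Q)).card : ℝ) := by
      unfold DD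
      rw [← hGd, ← hMd, card_sdiff_of_subset hsub, Nat.cast_sub (card_le_card hsub)]
    have c1 := abs_le.1 (count_class hQ s (G + 1))
    have c2 := abs_le.1 (count_class hQ s M)
    rw [hc]
    push_cast at c1
    have e1 : ((G : ℝ) + 1) / Q - (M : ℝ) / Q = (G + 1 - M) / Q := by ring
    have m1 : max 0 (x * gg (a / x) - a / l) ≤ G + 1 - M + 1 := by
      refine max_le ?_ (by linarith)
      have : (M : ℝ) ≤ G + 1 := by exact_mod_cast h
      linarith
    have m2 : (G : ℝ) + 1 - M - 1 ≤ max 0 (x * gg (a / x) - a / l) := by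
      refine le_trans ?_ (le_max_right _ _)
      linarith
    have hQi : (1 : ℝ) / Q ≤ 1 := by rw [div_le_one hQ0]; exact hQ1
    have m3 : max 0 (x * gg (a / x) - a / l) / Q ≤ (G + 1 - M) / Q + 1 := by
      have h1 := div_le_div_of_nonneg_right m1 hQ0.le
      have h2 : ((G : ℝ) + 1 - M + 1) / Q = (G + 1 - M) / Q + 1 / Q := by ring
      linarith
    have m4 : (G + 1 - M) / Q - 1 ≤ max 0 (x * gg (a / x) - a / l) / Q := by
      have h1 := div_le_div_of_nonneg_right m2 hQ0.le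
      have h2 : ((G : ℝ) + 1 - M - 1) / Q = (G + 1 - M) / Q - 1 / Q := by ring
      linarith
    rw [abs_le]
    constructor <;> linarith
  · have hsub : (range (G + 1)).filter (fun b => b % Q = s % Q) ⊆
        (range M).filter (fun b => b % Q = s % Q) :=
      filter_subset_filter _ (range_subset_range.2 h.le)
    have hc : (DD l Q s x a).card = 0 := by
      unfold DD
      rw [← hGd, ← hMd, sdiff_eq_empty_iff_subset.2 hsub, card_empty]
    have h' : ((G : ℝ) + 1) + 1 ≤ M := by exact_mod_cast h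
    have hm0 : 0 ≤ max 0 (x * gg (a / x) - a / l) := le_max_left _ _
    have hm : max 0 (x * gg (a / x) - a / l) ≤ 1 := by
      refine max_le zero_le_one ?_
      linarith
    rw [hc]
    have h3 : max 0 (x * gg (a / x) - a / l) / Q ≤ 1 := by
      rw [div_le_one hQ0]
      linarith
    have h4 : 0 ≤ max 0 (x * gg (a / x) - a / l) / Q := by positivity
    rw [abs_le]
    push_cast
    constructor <;> linarith

/-- the area of the part `s ≥ η` -/
noncomputable def J (l η : ℝ) : ℝ := (∫ s in (0 : ℝ)..1, PL l η s) - Ph l η * η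

/-- **The count of a class.** -/
theorem class_count {l : ℝ} (hl : 0 < l) (hl1 : l ≤ 1) {η : ℝ} (hη : 0 < η) (hη1 : η ≤ 1) {Q : ℕ}
    (hQ : 0 < Q) (r s : ℕ) {x : ℝ} (hx : 1 ≤ x) : (Cl l η Q r s x).Finite ∧
      |((Cl l η Q r s x).ncard : ℝ) - J l η / Q ^ 2 * x ^ 2| ≤ (8 + 4 * Ph l η) * x := by
  classical
  have hQ0 : (0 : ℝ) < Q := by exact_mod_cast hQ
  have hQ1 : (1 : ℝ) ≤ Q := by exact_mod_cast hQ
  -- the representative in `[1, Q]`
  obtain ⟨r', hr1, hrQ, hrr⟩ : ∃ r' : ℕ, 1 ≤ r' ∧ r' ≤ Q ∧ r' % Q = r % Q := by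
    rcases Nat.eq_zero_or_pos (r % Q) with h | h
    · exact ⟨Q, hQ, le_rfl, by rw [h, Nat.mod_self]⟩
    · exact ⟨r % Q, h, (Nat.mod_lt r hQ).le, Nat.mod_mod r Q⟩
  have hr0 : (1 : ℝ) ≤ r' := by exact_mod_cast hr1
  have hrQ' : (r' : ℝ) ≤ Q := by exact_mod_cast hrQ
  obtain ⟨I, hI⟩ : ∃ I : ℝ, I = ∫ s in (0 : ℝ)..1, PL l η s := ⟨_, rfl⟩
  have hP0 := Ph_nonneg l η
  have hx0 : 0 < x := by linarith
  obtain ⟨n, hn⟩ : ∃ n : ℕ, n = ⌈x⌉₊ := ⟨_, rfl⟩
  have hxn : x ≤ n := by rw [hn]; exact Nat.le_ceil x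
  have hnx : (n : ℝ) ≤ x + 1 := by rw [hn]; exact (Nat.ceil_lt_add_one hx0.le).le
  set ak : ℕ → ℕ := fun k => r' + Q * k with hak
  have hakpos : ∀ k, 0 < ak k := fun k => by rw [hak]; positivity
  set A : Finset ℕ := (range n).filter (fun k => η * x ≤ (ak k : ℝ)) with hA
  set F : Finset (ℕ × ℕ) := A.biUnion (fun k => (DD l Q s x (ak k)).image (fun b => (ak k, b)))
    with hF
  have hset : Cl l η Q r s x = (F : Set (ℕ × ℕ)) := by
    ext p
    rw [mem_coe, hF, mem_biUnion]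
    constructor
    · rintro ⟨a1, a2, a3, a4, a5, a6⟩
      -- the index
      have hmod : p.1 % Q = r' % Q := a5.trans hrr.symm
      have hge : r' ≤ p.1 := by
        by_contra hlt
        push Not at hlt
        have h1 : p.1 % Q = p.1 := Nat.mod_eq_of_lt (by omega)
        rcases eq_or_lt_of_le hrQ with h2 | h2
        · rw [h2, Nat.mod_self, h1] at hmod
          omega
        · rw [h1, Nat.mod_eq_of_lt h2] at hmod
          omega
      obtain ⟨k, hk⟩ : ∃ k, p.1 = r' + Q * k := by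
        have : Q ∣ p.1 - r' := (Nat.modEq_iff_dvd' hge).1 hmod.symm
        obtain ⟨k, hk⟩ := this
        exact ⟨k, by omega⟩
      have hak' : ak k = p.1 := by rw [hak, hk]
      have hpx : (p.1 : ℝ) ≤ x := by
        by_contra h
        push Not at h
        have b0 : (0 : ℝ) < p.1 := by exact_mod_cast a1
        have b1 : (p.1 : ℝ) ≤ p.2 := by
          have : (0 : ℝ) ≤ p.2 := Nat.cast_nonneg _
          nlinarith
        have b2 : x ^ 3 < (p.1 : ℝ) ^ 3 := pow_lt_pow_left₀ h hx0.le (by norm_num)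
        have b3 : (p.1 : ℝ) ^ 3 ≤ (p.1 : ℝ) * p.2 * (p.1 + p.2) := by
          have : (p.1 : ℝ) ^ 3 = p.1 * p.1 * p.1 := by ring
          rw [this]
          refine mul_le_mul (mul_le_mul_of_nonneg_left b1 b0.le) (by linarith) b0.le (by positivity)
        linarith
      have hkn : k < n := by
        have h1 : (k : ℝ) < n := by
          have h2 : (k : ℝ) ≤ Q * k := by
            have : (0 : ℝ) ≤ k := Nat.cast_nonneg _
            nlinarith
          have h3 : (p.1 : ℝ) = r' + Q * k := by exact_mod_cast hk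
          linarith
        exact_mod_cast h1
      refine ⟨k, mem_filter.2 ⟨mem_range.2 hkn, by rw [hak']; exact a3⟩, ?_⟩
      rw [mem_image]
      refine ⟨p.2, ?_, by rw [hak']⟩
      rw [hak', mem_DD hl hx0 a1]
      exact ⟨a2, a4, a6⟩
    · rintro ⟨k, hk, hp⟩
      obtain ⟨b, hb, rfl⟩ := mem_image.1 hp
      rw [mem_DD hl hx0 (hakpos k)] at hb
      obtain ⟨-, hk2⟩ := mem_filter.1 hk
      refine ⟨hakpos k, hb.1, hk2, hb.2.1, ?_, hb.2.2⟩
      simp only [hak]
      rw [Nat.add_mul_mod_self_left]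
      exact hrr
  have hfin : (Cl l η Q r s x).Finite := by rw [hset]; exact Finset.finite_toSet _
  refine ⟨hfin, ?_⟩
  have hcard : ((Cl l η Q r s x).ncard : ℝ) = ∑ k ∈ A, ((DD l Q s x (ak k)).card : ℝ) := by
    rw [hset, Set.ncard_coe_finset, hF, card_biUnion]
    · push_cast
      refine sum_congr rfl fun k _ => ?_
      rw [card_image_of_injective]
      intro b b' h
      simpa using h
    · intro k _ l' _ hkl
      rw [Function.onFun, disjoint_left]
      intro p hp hp'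
      obtain ⟨b, _, rfl⟩ := mem_image.1 hp
      obtain ⟨b', _, h⟩ := mem_image.1 hp'
      simp only [Prod.mk.injEq, hak] at h
      have := Nat.eq_of_mul_eq_mul_left hQ (Nat.add_left_cancel h.1)
      exact hkl this.symm
  have e1 : |((Cl l η Q r s x).ncard : ℝ) - x / Q * ∑ k ∈ A, Ph l (ak k / x)| ≤ 4 * (x + 1) := by
    rw [hcard, mul_sum, ← sum_sub_distrib]
    refine (abs_sum_le_sum_abs _ _).trans ?_
    refine (sum_le_sum fun k _ => card_DD hl hQ hx0 (hakpos k)).trans ?_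
    rw [sum_const, nsmul_eq_mul, mul_comm]
    refine mul_le_mul_of_nonneg_left ?_ (by norm_num)
    have : A.card ≤ n := by
      rw [hA]
      exact (card_filter_le _ _).trans (card_range n).le
    have : (A.card : ℝ) ≤ n := by exact_mod_cast this
    linarith
  -- the truncated sum
  set A' : Finset ℕ := (range n).filter (fun k => ¬ η * x ≤ (ak k : ℝ)) with hA'
  have e2 : ∑ k ∈ range n, PL l η (((r' : ℝ) + Q * k) / x) =
      ∑ k ∈ A, Ph l (ak k / x) + A'.card * Ph l η := by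
    rw [← sum_filter_add_sum_filter_not (range n) (fun k => η * x ≤ (ak k : ℝ))]
    congr 1
    · refine sum_congr rfl fun k hk => ?_
      have h1 := (mem_filter.1 hk).2
      have h2 : ((ak k : ℕ) : ℝ) = r' + Q * k := by rw [hak]; push_cast; ring
      rw [← h2, PL_eq]
      rw [le_div_iff₀ hx0]
      exact h1
    · have h3 : ∀ k ∈ A', PL l η (((r' : ℝ) + Q * k) / x) = Ph l η := by
        intro k hk
        have h1 := (mem_filter.1 hk).2
        have h2 : ((ak k : ℕ) : ℝ) = r' + Q * k := by rw [hak]; push_cast; ring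
        rw [← h2, PL_small]
        rw [div_le_iff₀ hx0]
        push Not at h1
        exact h1.le
      rw [sum_congr rfl h3, sum_const, nsmul_eq_mul]
  have e3 : |(A'.card : ℝ) - η * x / Q| ≤ 2 := by
    obtain ⟨y, hy⟩ : ∃ y : ℝ, y = (η * x - r') / Q := ⟨_, rfl⟩
    have hA'eq : A' = range ⌈y⌉₊ := by
      rw [hA']
      ext k
      rw [mem_filter, mem_range, mem_range, Nat.lt_ceil, hy, lt_div_iff₀ hQ0]
      have h2 : ((ak k : ℕ) : ℝ) = r' + Q * k := by rw [hak]; push_cast; ring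
      rw [h2]
      constructor
      · rintro ⟨_, h⟩
        push Not at h
        nlinarith
      · intro h
        refine ⟨?_, by push Not; nlinarith⟩
        have h3 : (k : ℝ) ≤ k * Q := by
          have : (0 : ℝ) ≤ k := Nat.cast_nonneg _
          nlinarith
        have h4 : η * x ≤ x := by nlinarith
        have : (k : ℝ) < n := by linarith
        exact_mod_cast this
    rw [hA'eq, card_range]
    have hym : -1 ≤ y := by
      rw [hy, le_div_iff₀ hQ0]
      have : 0 ≤ η * x := by positivity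
      linarith
    have hy2 : |y - η * x / Q| ≤ 1 := by
      have : y - η * x / Q = -((r' : ℝ) / Q) := by rw [hy]; ring
      rw [this, abs_neg, abs_of_nonneg (by positivity), div_le_one hQ0]
      exact hrQ'
    have hy3 : |(⌈y⌉₊ : ℝ) - y| ≤ 1 := by
      rw [abs_le]
      constructor
      · have := Nat.le_ceil y
        linarith
      · rcases le_or_gt 0 y with h | h
        · have := (Nat.ceil_lt_add_one h).le
          linarith
        · rw [Nat.ceil_eq_zero.2 h.le]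
          push_cast
          linarith
    have := abs_add_le ((⌈y⌉₊ : ℝ) - y) (y - η * x / Q)
    have e : (⌈y⌉₊ : ℝ) - y + (y - η * x / Q) = (⌈y⌉₊ : ℝ) - η * x / Q := by ring
    rw [e] at this
    linarith
  have e4 := riem (PL_anti hl hη) (PL_nonneg l η) (PL_le hl hη) (fun s hs => PL_zero hl hl1 hs)
    hQ hrQ hx0 hxn
  rw [e2, ← hI] at e4
  have hJ : J l η = I - Ph l η * η := by rw [hI]; rfl
  rw [hJ]
  obtain ⟨S, hS⟩ : ∃ S : ℝ, S = ∑ k ∈ A, Ph l (ak k / x) := ⟨_, rfl⟩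
  obtain ⟨N, hN⟩ : ∃ N : ℝ, N = ((Cl l η Q r s x).ncard : ℝ) := ⟨_, rfl⟩
  obtain ⟨c, hc⟩ : ∃ c : ℝ, c = (A'.card : ℝ) := ⟨_, rfl⟩
  rw [← hS, ← hN] at e1
  rw [← hS, ← hc] at e4
  rw [← hc] at e3
  rw [← hN]
  -- combine
  have e5 : |S - (x / Q * I - η * x / Q * Ph l η)| ≤ 4 * Ph l η := by
    have h1 : S - (x / Q * I - η * x / Q * Ph l η) =
        (S + c * Ph l η - x / Q * I) - (c - η * x / Q) * Ph l η := by ring
    rw [h1]
    refine (abs_sub _ _).trans ?_
    have h2 : |(c - η * x / Q) * Ph l η| ≤ 2 * Ph l η := by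
      rw [abs_mul, abs_of_nonneg hP0]
      exact mul_le_mul_of_nonneg_right e3 hP0
    linarith
  have hxQ : 0 < x / Q := by positivity
  have hxQ2 : x / Q ≤ x := div_le_self hx0.le hQ1
  have h3 : N - (I - Ph l η * η) / Q ^ 2 * x ^ 2 =
      (N - x / Q * S) + x / Q * (S - (x / Q * I - η * x / Q * Ph l η)) := by
    field_simp
    ring
  rw [h3]
  refine (abs_add_le _ _).trans ?_
  have h4 : |x / Q * (S - (x / Q * I - η * x / Q * Ph l η))| ≤ x * (4 * Ph l η) := by
    rw [abs_mul, abs_of_pos hxQ]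
    exact mul_le_mul hxQ2 e5 (abs_nonneg _) hx0.le
  have : 4 * (x + 1) ≤ 8 * x := by linarith
  linarith

end Pool.Agent.V7H9.AL
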