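import Pool.Agent.V7H9.AL.Lim

set_option autoImplicit false

/-!
# The densities as Euler products
-/

namespace Pool.Agent.V7H9.AL

open Finset Filter Topology Pool.Agent.TH498.AR

/-- the density of the coprime pairs with squarefree `a b (a + b)` -/
noncomputable def C0 : ℝ := ∏' q : Nat.Primes, (1 - 4 / ((q : ℕ) : ℝ) ^ 2 + 3 / ((q : ℕ) : ℝ) ^ 3)

/-- the factor of a prime divisor of the repeated part -/
noncomputable def rr (q : ℕ) : ℝ := 3 * ((q : ℝ) - 1) / ((q : ℝ) ^ 2 + q - 3)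

/-- the relative density of the repeated part `w` -/
noncomputable def wt (w : ℕ) : ℝ := (∏ q ∈ w.primeFactors, rr q) / w

lemma two_le_cast {q : ℕ} (hq : q.Prime) : (2 : ℝ) ≤ q := by exact_mod_cast hq.two_le

lemma rr_den {q : ℕ} (hq : q.Prime) : 0 < (q : ℝ) ^ 2 + q - 3 := by
  have := two_le_cast hq
  nlinarith

lemma rr_pos {q : ℕ} (hq : q.Prime) : 0 < rr q := by
  have h := rr_den hq
  have := two_le_cast hq
  unfold rr
  have h1 : 0 < (q : ℝ) - 1 := by linarith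
  positivity

lemma dd_zero (q : ℕ) : dd q 0 = 1 - 4 / (q : ℝ) ^ 2 + 3 / (q : ℝ) ^ 3 := by
  unfold dd
  rw [if_pos rfl]

lemma dd_zero_pos {q : ℕ} (hq : q.Prime) : 0 < dd q 0 := by
  have h2 := two_le_cast hq
  have hq0 : (0 : ℝ) < q := by linarith
  rw [dd_zero]
  have : 1 - 4 / (q : ℝ) ^ 2 + 3 / (q : ℝ) ^ 3 = ((q : ℝ) - 1) * ((q : ℝ) ^ 2 + q - 3) / q ^ 3 := by
    field_simp
    ring
  rw [this]
  have h := rr_den hq
  have h1 : 0 < (q : ℝ) - 1 := by linarith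
  positivity

lemma dd_succ {q e : ℕ} (hq : q.Prime) (he : 0 < e) : dd q e = dd q 0 * (rr q / (q : ℝ) ^ e) := by
  have h2 := two_le_cast hq
  have hq0 : (0 : ℝ) < q := by linarith
  have h := rr_den hq
  rw [dd_zero]
  have h3 : 1 - 4 / (q : ℝ) ^ 2 + 3 / (q : ℝ) ^ 3 = ((q : ℝ) - 1) * ((q : ℝ) ^ 2 + q - 3) / q ^ 3 := by
    field_simp
    ring
  rw [h3]
  unfold dd rr
  rw [if_neg he.ne', pow_succ]
  obtain ⟨D, hD⟩ : ∃ D : ℝ, D = (q : ℝ) ^ 2 + q - 3 := ⟨_, rfl⟩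
  rw [← hD] at h ⊢
  have h4 : D ≠ 0 := h.ne'
  field_simp

/-- the summand -/
noncomputable def gg0 (n : ℕ) : ℝ := if n.Prime then -4 / (n : ℝ) ^ 2 + 3 / (n : ℝ) ^ 3 else 0

lemma gg0_summable : Summable (fun n => ‖gg0 n‖) := by
  have h : Summable fun n : ℕ => 7 * ((n : ℝ) ^ 2)⁻¹ :=
    (Real.summable_nat_pow_inv.2 (by norm_num)).mul_left 7
  refine Summable.of_nonneg_of_le (fun n => norm_nonneg _) (fun n => ?_) h
  unfold gg0
  split_ifs with hp
  · have h2 := two_le_cast hp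
    have hq0 : (0 : ℝ) < n := by linarith
    have h3 : 3 / (n : ℝ) ^ 3 ≤ 3 / (n : ℝ) ^ 2 := by
      refine div_le_div_of_nonneg_left (by norm_num) (by positivity) ?_
      exact pow_le_pow_right₀ (by linarith) (by norm_num)
    have h4 : 0 ≤ 3 / (n : ℝ) ^ 3 := by positivity
    have h5 : 0 ≤ 4 / (n : ℝ) ^ 2 := by positivity
    have h6 : (7 : ℝ) * ((n : ℝ) ^ 2)⁻¹ = 4 / (n : ℝ) ^ 2 + 3 / (n : ℝ) ^ 2 := by ring
    rw [Real.norm_eq_abs, h6, neg_div, abs_le]
    constructor <;> linarith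
  · rw [norm_zero]
    positivity

lemma ff0_eq (n : ℕ) : 1 + gg0 n = if n.Prime then dd n 0 else 1 := by
  unfold gg0
  split_ifs
  · rw [dd_zero]
    ring
  · ring

lemma C0_hasProd : HasProd (fun n : ℕ => if n.Prime then dd n 0 else 1) C0 := by
  have hm : Multipliable (fun n : ℕ => 1 + gg0 n) := multipliable_one_add_of_summable gg0_summable
  have h1 := hm.hasProd
  have e : (fun n : ℕ => 1 + gg0 n) = fun n : ℕ => if n.Prime then dd n 0 else 1 :=
    funext ff0_eq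
  rw [e] at h1
  have e2 : ∏' n : ℕ, (if n.Prime then dd n 0 else 1) = C0 := by
    have h2 := tprod_subtype {p : ℕ | p.Prime} (fun n => dd n 0)
    have h3 : (fun x => Set.mulIndicator {p : ℕ | p.Prime} (fun n => dd n 0) x) =
        fun n : ℕ => if n.Prime then dd n 0 else 1 := by
      funext n
      by_cases hn : n.Prime
      · rw [Set.mulIndicator_of_mem (show n ∈ {p : ℕ | p.Prime} from hn), if_pos hn]
      · rw [Set.mulIndicator_of_notMem (show n ∉ {p : ℕ | p.Prime} from hn), if_neg hn]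
    rw [h3] at h2
    rw [← h2]
    unfold C0
    refine tprod_congr fun q => ?_
    exact dd_zero _
  rwa [e2] at h1

lemma C0_pos : 0 < C0 := by
  have h1 := C0_hasProd.tprod_eq
  have hs : Summable (fun n => Real.log (1 + gg0 n)) :=
    Real.summable_log_one_add_of_summable gg0_summable.of_norm
  have e : (fun n : ℕ => 1 + gg0 n) = fun n : ℕ => if n.Prime then dd n 0 else 1 :=
    funext ff0_eq
  have hpos : ∀ n : ℕ, 0 < 1 + gg0 n := by
    intro n
    rw [ff0_eq]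
    split_ifs with h
    · exact dd_zero_pos h
    · exact one_pos
  have h2 := Real.rexp_tsum_eq_tprod hpos hs
  rw [e, h1] at h2
  rw [← h2]
  exact Real.exp_pos _

lemma Dw_one_tendsto : Tendsto (fun P0 : ℕ => ∏ q ∈ PP P0, dd q 0) atTop (𝓝 C0) := by
  have h1 := C0_hasProd.tendsto_prod_nat
  have h2 := h1.comp (tendsto_add_atTop_nat 1)
  refine h2.congr fun P0 => ?_
  simp only [Function.comp]
  unfold PP
  rw [prod_filter]

lemma Dw_eq {w : ℕ} (hw : 0 < w) {P0 : ℕ} (hP : w ≤ P0) :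
    Dw w P0 = (∏ q ∈ PP P0, dd q 0) * wt w := by
  unfold Dw
  have e : ∀ q ∈ PP P0, dd q (w.factorization q) =
      dd q 0 * (if q ∈ w.primeFactors then rr q / (q : ℝ) ^ (w.factorization q) else 1) := by
    intro q hq
    have hqp := PP_prime P0 q hq
    by_cases h : q ∈ w.primeFactors
    · rw [if_pos h]
      refine dd_succ hqp ?_
      exact hqp.factorization_pos_of_dvd hw.ne' (Nat.dvd_of_mem_primeFactors h)
    · rw [if_neg h, mul_one]
      have : w.factorization q = 0 := by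
        refine Nat.factorization_eq_zero_of_not_dvd fun hd => h ?_
        exact Nat.mem_primeFactors.2 ⟨hqp, hd, hw.ne'⟩
      rw [this]
  rw [prod_congr rfl e, prod_mul_distrib]
  congr 1
  have hsub : w.primeFactors ⊆ PP P0 := by
    intro q hq
    refine mem_PP.2 ⟨?_, Nat.prime_of_mem_primeFactors hq⟩
    exact (Nat.le_of_mem_primeFactors hq).trans hP
  rw [Finset.prod_ite_mem, inter_eq_right.2 hsub, prod_div_distrib]
  unfold wt
  congr 1
  have h2 := Nat.prod_factorization_pow_eq_self hw.ne'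
  have h3 : (w : ℝ) = ∏ q ∈ w.primeFactors, (q : ℝ) ^ (w.factorization q) := by
    conv_lhs => rw [← h2]
    rw [Finsupp.prod, Nat.support_factorization]
    push_cast
    rfl
  exact h3.symm

/-- **The density of the repeated part `w`.** -/
theorem Dw_tendsto {w : ℕ} (hw : 0 < w) : Tendsto (fun P0 : ℕ => Dw w P0) atTop (𝓝 (C0 * wt w)) := by
  refine (Dw_one_tendsto.mul_const (wt w)).congr' ?_
  filter_upwards [eventually_ge_atTop w] with P0 hP
  exact (Dw_eq hw hP).symm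

/-- the weight of the repeated part `w` -/
noncomputable def wgt (w : ℕ) : ℝ := (w : ℝ) ^ (-(1 / 3) : ℝ) * ∏ q ∈ w.primeFactors, rr q

lemma wgt_nonneg (w : ℕ) : 0 ≤ wgt w := by
  unfold wgt
  refine mul_nonneg (by positivity) (prod_nonneg fun q hq => ?_)
  exact (rr_pos (Nat.prime_of_mem_primeFactors hq)).le

lemma wgt_zero : wgt 0 = 0 := by
  unfold wgt
  rw [Nat.cast_zero, Real.zero_rpow (by norm_num), zero_mul]

lemma wgt_one : wgt 1 = 1 := by
  unfold wgt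
  simp

lemma wgt_eq {w : ℕ} (hw : 0 < w) : wt w * (w : ℝ) ^ ((2 : ℝ) / 3) = wgt w := by
  have h0 : (0 : ℝ) < w := by exact_mod_cast hw
  unfold wt wgt
  have : (w : ℝ) ^ (-(1 / 3) : ℝ) = (w : ℝ) ^ ((2 : ℝ) / 3) / w := by
    nth_rewrite 3 [← Real.rpow_one (w : ℝ)]
    rw [← Real.rpow_sub h0]
    norm_num
  rw [this]
  ring

lemma wgt_mul {m n : ℕ} (h : Nat.Coprime m n) : wgt (m * n) = wgt m * wgt n := by
  unfold wgt
  rw [h.primeFactors_mul, prod_union h.disjoint_primeFactors]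
  push_cast
  rw [Real.mul_rpow (Nat.cast_nonneg _) (Nat.cast_nonneg _)]
  ring

lemma wgt_pow {q : ℕ} (hq : q.Prime) (n : ℕ) :
    wgt (q ^ (n + 1)) = ((q : ℝ) ^ (-(1 / 3) : ℝ)) ^ (n + 1) * rr q := by
  unfold wgt
  rw [Nat.primeFactors_pow_succ, hq.primeFactors, prod_singleton]
  push_cast
  congr 1
  rw [← Real.rpow_natCast, ← Real.rpow_mul (Nat.cast_nonneg _), mul_comm,
    Real.rpow_mul (Nat.cast_nonneg _), Real.rpow_natCast]

/-- the Euler factor -/
lemma wgt_tsum {q : ℕ} (hq : q.Prime) :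
    ∑' e : ℕ, wgt (q ^ e) = 1 + rr q / ((q : ℝ) ^ ((1 : ℝ) / 3) - 1) := by
  have h2 := two_le_cast hq
  have hq0 : (0 : ℝ) < q := by linarith
  obtain ⟨y, hy⟩ : ∃ y : ℝ, y = (q : ℝ) ^ ((1 : ℝ) / 3) := ⟨_, rfl⟩
  have hy1 : 1 < y := by rw [hy]; exact Real.one_lt_rpow (by linarith) (by norm_num)
  have hyi : (q : ℝ) ^ (-(1 / 3) : ℝ) = y⁻¹ := by rw [hy, Real.rpow_neg hq0.le]
  have hyi0 : 0 < y⁻¹ := by positivity
  have hyi1 : y⁻¹ < 1 := inv_lt_one_of_one_lt₀ hy1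
  have e1 : (fun e : ℕ => wgt (q ^ (e + 1))) = fun e : ℕ => y⁻¹ ^ e * (y⁻¹ * rr q) := by
    funext e
    rw [wgt_pow hq, hyi, pow_succ]
    ring
  have hs1 : Summable (fun e : ℕ => wgt (q ^ (e + 1))) := by
    rw [e1]
    exact (summable_geometric_of_lt_one hyi0.le hyi1).mul_right _
  have hs : Summable (fun e : ℕ => wgt (q ^ e)) := (summable_nat_add_iff 1).1 hs1
  rw [hs.tsum_eq_zero_add, pow_zero, wgt_one, e1, tsum_mul_right,
    tsum_geometric_of_lt_one hyi0.le hyi1, ← hy]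
  congr 1
  have : y - 1 ≠ 0 := by linarith
  have hy0 : y ≠ 0 := by linarith
  field_simp

/-- the constant as an Euler product -/
lemma const_eq (hs : Summable wgt) : C0 * ∑' w : ℕ, wgt w =
    ∏' q : Nat.Primes, (1 - 4 / ((q : ℕ) : ℝ) ^ 2 + 3 / ((q : ℕ) : ℝ) ^ 3 +
      3 * (((q : ℕ) : ℝ) - 1) ^ 2 / (((q : ℕ) : ℝ) ^ 3 *
        (((q : ℕ) : ℝ) ^ ((1 : ℝ) / 3) - 1))) := by
  have hn : Summable (fun w => ‖wgt w‖) := by
    refine hs.congr fun w => ?_
    rw [Real.norm_of_nonneg (wgt_nonneg w)]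
  have h1 := EulerProduct.eulerProduct_hasProd wgt_one (fun {m n} h => wgt_mul h) hn wgt_zero
  have h2 : HasProd (fun q : Nat.Primes => dd (q : ℕ) 0) C0 := by
    have h3 := C0_hasProd
    have e : (fun n : ℕ => if n.Prime then dd n 0 else 1) =
        Set.mulIndicator {p : ℕ | p.Prime} (fun n => dd n 0) := by
      funext n
      by_cases hn : n.Prime
      · rw [Set.mulIndicator_of_mem (show n ∈ {p : ℕ | p.Prime} from hn), if_pos hn]
      · rw [Set.mulIndicator_of_notMem (show n ∉ {p : ℕ | p.Prime} from hn), if_neg hn]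
    rw [e, ← hasProd_subtype_iff_mulIndicator] at h3
    exact h3
  have h4 := (h2.mul h1).tprod_eq
  rw [← h4]
  refine tprod_congr fun q => ?_
  have hq := q.2
  have hq2 := two_le_cast hq
  have hq0 : (0 : ℝ) < ((q : ℕ) : ℝ) := by linarith
  rw [wgt_tsum hq, dd_zero]
  obtain ⟨y, hy⟩ : ∃ y : ℝ, y = ((q : ℕ) : ℝ) ^ ((1 : ℝ) / 3) := ⟨_, rfl⟩
  have hy1 : 1 < y := by rw [hy]; exact Real.one_lt_rpow (by linarith) (by norm_num)
  rw [← hy]
  have hy2 : y - 1 ≠ 0 := by linarith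
  have hden := (rr_den hq).ne'
  have h3 : 1 - 4 / ((q : ℕ) : ℝ) ^ 2 + 3 / ((q : ℕ) : ℝ) ^ 3 =
      (((q : ℕ) : ℝ) - 1) * (((q : ℕ) : ℝ) ^ 2 + ((q : ℕ) : ℝ) - 3) / ((q : ℕ) : ℝ) ^ 3 := by
    field_simp
    ring
  rw [h3]
  unfold rr
  obtain ⟨D, hD⟩ : ∃ D : ℝ, D = ((q : ℕ) : ℝ) ^ 2 + ((q : ℕ) : ℝ) - 3 := ⟨_, rfl⟩
  rw [← hD] at hden ⊢
  field_simp

end Pool.Agent.V7H9.AL
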